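import Pool.Agent.Helper32.BS.Lim

/-! Absolutely continuous spectrum. -/

set_option autoImplicit false
set_option linter.unusedSectionVars false
set_option linter.unusedSimpArgs false

open scoped BigOperators InnerProductSpace Topology ENNReal
open Filter MeasureTheory ProbabilityTheory

namespace Pool.Agent.Helper32.BS

open Pool.Agent.TH369.AN (Rz rz_eq rz_uniq rz_norm)
open Pool.Agent.TH369.MU (SpM ep zk qk Fk qk_sq poisson_ae)
open Pool.Agent.TH369.MU.PO2 (ep_pos ep_tendsto)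
open Pool.Agent.TH794.LL2 (Po Po_int Po_im)
open Pool.Agent.Y662.TR (LL lmk lmk_apply ll_inner ll_ext ll_summable ll_coord ll_sum dv dv_apply
  dv_self dv_ne inner_dv norm_dv ev ev_apply add_coord sub_coord neg_coord smul_coord Cf Cf_apply
  Cf_norm Cf_dv Cf_dv_ne Cf_adj Cf_adj_ne Cf_adj_norm clp clp_abs clp_eq clp_cont Mw Mw_apply
  Mw_norm Mw_sa Mw_tendsto approx rz_two qk_po zk_eq all_vec fatou_om)

variable {K d : ℕ} {S : Type} [AddGroup S]

theorem zk_im (E : ℝ) (k : ℕ) : (zk E k).im = ep k := by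
  rw [zk_eq]
  simp

theorem zk_re (E : ℝ) (k : ℕ) : (zk E k).re = E := by
  rw [zk_eq]
  simp

theorem zk_im_pos (E : ℝ) (k : ℕ) : 0 < (zk E k).im := by
  rw [zk_im]
  exact ep_pos k

theorem ep_le (k : ℕ) : ep k ≤ 1 := by
  unfold ep
  rw [div_le_one (by positivity)]
  have : (0 : ℝ) ≤ k := by positivity
  linarith

theorem zk_sub (E E' : ℝ) (k : ℕ) : ‖zk E k - zk E' k‖ = |E - E'| := by
  have : zk E k - zk E' k = ((E - E' : ℝ) : ℂ) := by
    rw [zk_eq, zk_eq]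
    push_cast
    ring
  rw [this, Complex.norm_real, Real.norm_eq_abs]

theorem gf_contE (e : Fin d → S) (a t lam b : ℝ) (k : ℕ) (v : Tr K × S) (ω : Tr K × S → ℝ) :
    Continuous fun E : ℝ => GF e a t lam b (zk E k) v ω := by
  rw [continuous_iff_continuousAt]
  intro E0
  unfold ContinuousAt
  rw [tendsto_iff_norm_sub_tendsto_zero]
  obtain ⟨T, hT⟩ : ∃ T, T = Tf K e a t (lam * b) (pw lam b ω) := ⟨_, rfl⟩
  have hTs : IsSelfAdjoint T := by rw [hT]; exact Tf_sa _ _ _ _ _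
  have h1 : Tendsto (fun E : ℝ => |E - E0| * ‖Rz T (zk E0 k) (dv v)‖ / ep k) (𝓝 E0)
      (𝓝 0) := by
    have h2 : Continuous fun E : ℝ => |E - E0| * ‖Rz T (zk E0 k) (dv v)‖ / ep k := by
      fun_prop
    have h4 := h2.tendsto E0
    simpa using h4
  refine squeeze_zero (fun E => norm_nonneg _) (fun E => ?_) h1
  unfold GF
  have h2 := rz_two T hTs (zk E k) (zk E0 k) (zk_im_pos E k) (zk_im_pos E0 k) (dv v)
  rw [zk_sub, zk_im] at h2
  rw [← hT]
  exact (ll_coord (Rz T (zk E k) (dv v) - Rz T (zk E0 k) (dv v)) v).trans h2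

theorem gf_joint [Countable S] (e : Fin d → S) (a t lam b : ℝ) (k : ℕ) (v : Tr K × S) :
    Measurable (Function.uncurry fun (E : ℝ) (ω : Tr K × S → ℝ) =>
      GF e a t lam b (zk E k) v ω) :=
  measurable_uncurry_of_continuous_of_measurable (fun ω => gf_contE e a t lam b k v ω)
    (fun E => (gf_cont e a t lam b (zk E k) (zk_im_pos E k) v).measurable)

/-- the first quantity -/
noncomputable def q1 (e : Fin d → S) (a t lam b : ℝ) (k : ℕ) (v : Tr K × S) (E : ℝ)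
    (ω : Tr K × S → ℝ) : ENNReal := ENNReal.ofReal (‖GF e a t lam b (zk E k) v ω‖ ^ 2)

/-- the second quantity -/
noncomputable def q2 (e : Fin d → S) (a t lam b : ℝ) (k : ℕ) (v : Tr K × S) (E : ℝ)
    (ω : Tr K × S → ℝ) : ENNReal := ENNReal.ofReal ((1 / (GF e a t lam b (zk E k) v ω).im) ^ 2)

theorem q1_joint [Countable S] (e : Fin d → S) (a t lam b : ℝ) (k : ℕ) (v : Tr K × S) :
    Measurable (Function.uncurry (q1 e a t lam b k v)) := by
  have h1 : Measurable fun p : ℝ × (Tr K × S → ℝ) => GF e a t lam b (zk p.1 k) v p.2 :=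
    gf_joint e a t lam b k v
  exact (h1.norm.pow_const 2).ennreal_ofReal

theorem q2_joint [Countable S] (e : Fin d → S) (a t lam b : ℝ) (k : ℕ) (v : Tr K × S) :
    Measurable (Function.uncurry (q2 e a t lam b k v)) := by
  have h1 : Measurable fun p : ℝ × (Tr K × S → ℝ) => GF e a t lam b (zk p.1 k) v p.2 :=
    gf_joint e a t lam b k v
  exact (((Complex.measurable_im.comp h1).const_div 1).pow_const 2).ennreal_ofReal

theorem gf_qk (e : Fin d → S) (a t lam b E : ℝ) (k : ℕ) (v : Tr K × S) (ω : Tr K × S → ℝ) :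
    qk (Tf K e a t (lam * b) (pw lam b ω)) E k (dv v) ^ 2 = (GF e a t lam b (zk E k) v ω).im := by
  rw [qk_sq _ (Tf_sa _ _ _ _ _)]
  unfold Fk GF
  rw [inner_dv]

/-- upper bound -/
theorem det_ac (e : Fin d → S) (a t lam b α β : ℝ) (ω : Tr K × S → ℝ)
    (h : ∀ s : Finset (Tr K × S), liminf (fun k => ∫⁻ E in Set.Ioo α β, ∑ v ∈ s,
      q1 e a t lam b k v E ω) atTop < ∞) (φ : LL (Tr K × S)) (m : Measure ℝ)
    (hm : SpM (Tf K e a t (lam * b) (pw lam b ω)) φ m) (A : Set ℝ)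
    (hA : A ⊆ Set.Ioo α β) (h0 : volume A = 0) : m A = 0 := by
  refine all_vec _ (Tf_sa _ _ _ _ _) α β (fun s => ?_) φ m hm A hA h0
  obtain ⟨C, hC1, hC2⟩ := exists_between (h s)
  have hfreq := frequently_lt_of_liminf_lt (by isBoundedDefault) hC1
  refine ⟨C, hC2.ne, hfreq.mono fun k hk v hv => ?_⟩
  have hpt : ∀ E, ENNReal.ofReal (qk (Tf K e a t (lam * b) (pw lam b ω)) E k (dv v) ^ 2) ^ 2 ≤
      q1 e a t lam b k v E ω := by
    intro E
    have g1 := gf_im_pos e a t lam b (zk E k) (zk_im_pos E k) v ω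
    rw [gf_qk, ← ENNReal.ofReal_pow g1.le]
    apply ENNReal.ofReal_le_ofReal
    have := Complex.im_le_norm (GF e a t lam b (zk E k) v ω)
    gcongr
  refine le_trans (lintegral_mono fun E => ?_) hk.le
  exact (hpt E).trans (Finset.single_le_sum (f := fun v => q1 e a t lam b k v E ω)
    (fun _ _ => zero_le) hv)

/-- lower bound -/
theorem det_pos [Countable S] (e : Fin d → S) (a t lam b α β : ℝ) (v : Tr K × S)
    (ω : Tr K × S → ℝ)
    (h : liminf (fun k => ∫⁻ E in Set.Ioo α β, q2 e a t lam b k v E ω) atTop < ∞)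
    (m : Measure ℝ) (hm : SpM (Tf K e a t (lam * b) (pw lam b ω)) (dv v) m) (A : Set ℝ)
    (hA : A ⊆ Set.Ioo α β) (hAm : MeasurableSet A) (h0 : m A = 0) : volume A = 0 := by
  haveI := hm.1
  have hmeas : ∀ k, Measurable fun E => q2 e a t lam b k v E ω := fun k =>
    Measurable.of_uncurry_right (q2_joint e a t lam b k v)
  have h1 : ∫⁻ E in Set.Ioo α β, liminf (fun k => q2 e a t lam b k v E ω) atTop < ∞ :=
    (lintegral_liminf_le hmeas).trans_lt h
  have h2 : ∀ᵐ E ∂(volume.restrict (Set.Ioo α β)),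
      liminf (fun k => q2 e a t lam b k v E ω) atTop < ∞ :=
    ae_lt_top (Measurable.liminf hmeas) h1.ne
  have h3 : ∀ᵐ E ∂(volume.restrict (Set.Ioo α β)), m.rnDeriv volume E ≠ 0 := by
    filter_upwards [h2, ae_restrict_of_ae (poisson_ae m)] with E e1 e2 hzero
    obtain ⟨C, hC1, hC2⟩ := exists_between e1
    have hfreq := frequently_lt_of_liminf_lt (by isBoundedDefault) hC1
    rw [hzero, ENNReal.toReal_zero, mul_zero] at e2
    have hδ : 0 < 1 / (Real.sqrt C.toReal + 1) := by positivity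
    have e4 := e2.eventually_lt_const hδ
    obtain ⟨k, k1, k2⟩ := (hfreq.and_eventually e4).exists
    have g1 := gf_im_pos e a t lam b (zk E k) (zk_im_pos E k) v ω
    have g5 := qk_po _ (Tf_sa e a t (lam * b) (pw lam b ω)) (dv v) m hm E k
    rw [gf_qk] at g5
    obtain ⟨y, hy⟩ : ∃ y, y = (GF e a t lam b (zk E k) v ω).im := ⟨_, rfl⟩
    unfold q2 at k1
    rw [← hy] at g1 g5 k1
    have g6 : (1 / y) ^ 2 < C.toReal := by
      rw [← ENNReal.ofReal_lt_ofReal_iff_of_nonneg (sq_nonneg _), ENNReal.ofReal_toReal hC2.ne]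
      exact k1
    have g7 : 1 / y ≤ Real.sqrt C.toReal := Real.le_sqrt_of_sq_le g6.le
    have g9 : y < 1 / (Real.sqrt C.toReal + 1) := by
      rw [g5]
      exact k2
    rw [lt_div_iff₀ (by positivity)] at g9
    rw [div_le_iff₀ g1] at g7
    nlinarith
  have h4 : ∫⁻ E in A, m.rnDeriv volume E = 0 :=
    le_antisymm ((Measure.setLIntegral_rnDeriv_le A).trans h0.le) zero_le
  have h5 : ∀ᵐ E ∂(volume.restrict A), m.rnDeriv volume E = 0 := by
    have := (lintegral_eq_zero_iff (Measure.measurable_rnDeriv m volume)).1 h4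
    filter_upwards [this] with E hE
    exact hE
  have h6 : ∀ᵐ E ∂(volume.restrict A), m.rnDeriv volume E ≠ 0 :=
    ae_restrict_of_ae_restrict_of_subset hA h3
  have h7 : ∀ᵐ E ∂(volume.restrict A), False := by
    filter_upwards [h5, h6] with E e1 e2
    exact e2 e1
  rw [Filter.eventually_false_iff_eq_bot, ae_eq_bot, Measure.restrict_eq_zero] at h7
  exact h7

theorem phi1_cont (w : ℂ) : ContinuousAt (fun w : ℂ => ENNReal.ofReal (‖w‖ ^ 2)) w := by
  have : Continuous fun w : ℂ => ENNReal.ofReal (‖w‖ ^ 2) :=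
    ENNReal.continuous_ofReal.comp (continuous_norm.pow 2)
  exact this.continuousAt

theorem phi2_cont (w : ℂ) (hw : 0 < w.im) :
    ContinuousAt (fun w : ℂ => ENNReal.ofReal ((1 / w.im) ^ 2)) w := by
  have h1 : ContinuousAt (fun w : ℂ => (1 / w.im) ^ 2) w := by
    refine ContinuousAt.pow ?_ 2
    exact continuousAt_const.div Complex.continuous_im.continuousAt hw.ne'
  exact ENNReal.continuous_ofReal.continuousAt.comp h1

/-- **absolutely continuous spectrum** -/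
theorem main_ac [Countable S] {Sn : ℕ → Type} [∀ n, AddGroup (Sn n)] [∀ n, Fintype (Sn n)]
    [∀ n, DecidableEq (Sn n)] {π : ∀ n, S →+ Sn n} {J : ∀ n, Sn n → S} (hA : Apx S Sn π J)
    (hK : 2 ≤ K) (e : Fin d → S) {t : ℝ} (ht : 0 < t) {b : ℝ} (hb : 0 < b) {r : ℝ} (hr0 : 0 ≤ r)
    (hr1 : r < 1) {lam : ℝ} (hlam : 0 < lam)
    (hl : 4000000 * (lam * b) ≤ (1 - r ^ 2) ^ 3 * (Real.sqrt K * t)) {α β : ℝ}
    (h1 : t * (K + 1) + 4 * d - 2 * r * (Real.sqrt K * t) ≤ α)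
    (h2 : β ≤ t * (K + 1) + 2 * r * (Real.sqrt K * t))
    (ρ : Measure ℝ) [IsProbabilityMeasure ρ] : ∀ᵐ ω ∂(Pf K S ρ),
        (∀ (φ : LL (Tr K × S)) (m : Measure ℝ),
          SpM (Tf K e (t * (K + 1) + 2 * d) t (lam * b) (pw lam b ω)) φ m →
          ∀ A : Set ℝ, A ⊆ Set.Ioo α β → volume A = 0 → m A = 0) ∧
        (∀ (v : Tr K × S) (m : Measure ℝ),
          SpM (Tf K e (t * (K + 1) + 2 * d) t (lam * b) (pw lam b ω)) (dv v) m →
          ∀ A : Set ℝ, A ⊆ Set.Ioo α β → MeasurableSet A → m A = 0 → volume A = 0) := by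
  have hK0 : (0 : ℝ) < K := by exact_mod_cast (by omega : 0 < K)
  have hsp := Real.sqrt_pos.2 hK0
  have hκ0 : 0 < Real.sqrt K * t := by positivity
  obtain ⟨k0, hk0⟩ : ∃ k0, ∀ k, k0 ≤ k → ep k ≤ Real.sqrt K * t := by
    have h8 := (tendsto_nhds_of_tendsto_nhdsWithin ep_tendsto).eventually_le_const hκ0
    exact Filter.eventually_atTop.1 h8
  obtain ⟨C, hC⟩ : ∃ C, C = 64 * (Real.sqrt (1 - r ^ 2) / 4 / (Real.sqrt K * t))⁻¹ ^ 2 := ⟨_, rfl⟩
  obtain ⟨a, ha⟩ : ∃ a : ℝ, a = t * (K + 1) + 2 * d := ⟨_, rfl⟩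
  rw [← ha]
  obtain ⟨R, hR⟩ : ∃ R : ℝ, R = |a| + |lam| * |b| + (|α| + |β| + 1) + 2 * d + t * (K + 1) :=
    ⟨_, rfl⟩
  obtain ⟨C1, hC1⟩ : ∃ C1, C1 = ENNReal.ofReal ((t⁻¹ ^ 2) ^ 2 * C) := ⟨_, rfl⟩
  obtain ⟨C2, hC2⟩ : ∃ C2, C2 = ENNReal.ofReal ((R ^ 2 * t⁻¹ ^ 2) ^ 2 *
      ((2 + 2 * d + K) ^ 2 * C)) := ⟨_, rfl⟩
  have hz : ∀ k, ∀ E ∈ Set.Ioo α β, ‖zk E k‖ ≤ |α| + |β| + 1 := by
    intro k E hE
    refine (Complex.norm_le_abs_re_add_abs_im _).trans ?_
    rw [zk_re, zk_im, abs_of_pos (ep_pos k)]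
    have e1 := ep_le k
    have e2 : |E| ≤ |α| + |β| := by
      rw [abs_le]
      have := neg_abs_le α
      have := le_abs_self β
      have := abs_nonneg α
      have := abs_nonneg β
      constructor
      · linarith [hE.1]
      · linarith [hE.2]
    linarith
  have hfin : ∀ k, k0 ≤ k → ∀ E ∈ Set.Ioo α β, ∀ n (v : Tr K × Sn n),
      ∫⁻ ω, ENNReal.ofReal (‖GF (fun i => π n (e i)) a t lam b (zk E k) v ω‖ ^ 2)
        ∂(Pf K (Sn n) ρ) ≤ C1 ∧
      ∫⁻ ω, ENNReal.ofReal ((1 / (GF (fun i => π n (e i)) a t lam b (zk E k) v ω).im) ^ 2)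
        ∂(Pf K (Sn n) ρ) ≤ C2 := by
    intro k hk E hE n v
    rw [hC1, hC2]
    refine site_bd hK (fun i => π n (e i)) ht (zk E k) (zk_im_pos E k) ρ C (fun x => ?_) R ?_ v
    · rw [ha, hC]
      refine mom_h hK ht hb hr0 hr1 (fun i => π n (e i)) ρ hlam hl (zk E k) (zk_im_pos E k) ?_ ?_
        ?_ x
      · rw [zk_im]
        exact hk0 k hk
      · rw [zk_re]
        exact h1.trans hE.1.le
      · rw [zk_re]
        exact hE.2.le.trans h2
    · rw [hR]
      have := hz k E hE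
      linarith
  have hb1 : ∀ k, k0 ≤ k → ∀ E ∈ Set.Ioo α β, ∀ v : Tr K × S,
      ∫⁻ ω, q1 e a t lam b k v E ω ∂(Pf K S ρ) ≤ C1 := by
    intro k hk E hE v
    exact hA.fatou e a t lam b (zk E k) (zk_im_pos E k) v ρ (fun w => ENNReal.ofReal (‖w‖ ^ 2))
      (by fun_prop) (fun w _ => phi1_cont w) C1 (fun n => inferInstance)
      (fun n => (hfin k hk E hE n _).1)
  have hb2 : ∀ k, k0 ≤ k → ∀ E ∈ Set.Ioo α β, ∀ v : Tr K × S,
      ∫⁻ ω, q2 e a t lam b k v E ω ∂(Pf K S ρ) ≤ C2 := by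
    intro k hk E hE v
    exact hA.fatou e a t lam b (zk E k) (zk_im_pos E k) v ρ
      (fun w => ENNReal.ofReal ((1 / w.im) ^ 2))
      (((Complex.measurable_im.const_div 1).pow_const 2).ennreal_ofReal) phi2_cont C2
      (fun n => inferInstance) (fun n => (hfin k hk E hE n _).2)
  have hm1 : ∀ k v E, Measurable fun ω => q1 (K := K) e a t lam b k v E ω := fun k v E =>
    Measurable.of_uncurry_left (q1_joint e a t lam b k v)
  have hall1 : ∀ s : Finset (Tr K × S), ∀ᵐ ω ∂(Pf K S ρ),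
      liminf (fun k => ∫⁻ E in Set.Ioo α β, ∑ v ∈ s, q1 e a t lam b k v E ω) atTop < ∞ := by
    intro s
    refine fatou_om (Pf K S ρ) (fun k E ω => ∑ v ∈ s, q1 e a t lam b k v E ω)
      (fun k => Finset.measurable_fun_sum s fun v _ => q1_joint e a t lam b k v)
      (Set.Ioo α β) measurableSet_Ioo (by simp) (s.card * C1)
      (ENNReal.mul_ne_top (ENNReal.natCast_ne_top _) (by rw [hC1]; exact ENNReal.ofReal_ne_top)) k0
      (fun k hk E hE => ?_)
    rw [lintegral_finsetSum s fun v _ => hm1 k v E]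
    refine (Finset.sum_le_sum fun v _ => hb1 k hk E hE v).trans ?_
    rw [Finset.sum_const, nsmul_eq_mul]
  have hall2 : ∀ v : Tr K × S, ∀ᵐ ω ∂(Pf K S ρ),
      liminf (fun k => ∫⁻ E in Set.Ioo α β, q2 e a t lam b k v E ω) atTop < ∞ := by
    intro v
    exact fatou_om (Pf K S ρ) (fun k E ω => q2 e a t lam b k v E ω)
      (fun k => q2_joint e a t lam b k v) (Set.Ioo α β) measurableSet_Ioo (by simp) C2
      (by rw [hC2]; exact ENNReal.ofReal_ne_top) k0 (fun k hk E hE => hb2 k hk E hE v)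
  filter_upwards [ae_all_iff.2 hall1, ae_all_iff.2 hall2] with ω hω1 hω2
  refine ⟨fun φ m hm A hA' hv => ?_, fun v m hm A hA' hAm hv => ?_⟩
  · exact det_ac e a t lam b α β ω hω1 φ m hm A hA' hv
  · exact det_pos e a t lam b α β v ω (hω2 v) m hm A hA' hAm hv

end Pool.Agent.Helper32.BS
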