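import Pool.Agent.Helper32.BS.Gr

/-! The environment: law, independence, continuity. -/

set_option autoImplicit false
set_option linter.unusedSectionVars false
set_option linter.unusedSimpArgs false

open scoped BigOperators InnerProductSpace Topology Matrix ComplexOrder MatrixOrder
open Filter Matrix MeasureTheory ProbabilityTheory

namespace Pool.Agent.Helper32.BS

open Pool.Agent.TH369.AN (Rz rz_eq rz_uniq rz_norm)
open Pool.Agent.Y662.TR (LL lmk lmk_apply ll_inner ll_ext ll_summable ll_coord ll_sum dv dv_apply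
  dv_self dv_ne inner_dv norm_dv ev ev_apply add_coord sub_coord neg_coord smul_coord Cf Cf_apply
  Cf_norm Cf_dv Cf_dv_ne Cf_adj Cf_adj_ne Cf_adj_norm clp clp_abs clp_eq clp_cont Mw Mw_apply
  Mw_norm Mw_sa Mw_tendsto)

section law

/-- the law of the restriction of an iid environment
(from the library module `Y662.FP.Meas`) -/
theorem pi_comp {ι κ : Type} (μ : Measure ℝ) [IsProbabilityMeasure μ] (f : κ → ι)
    (hf : Function.Injective f) :
    (Measure.infinitePi fun _ : ι => μ).map (fun ω x => ω (f x)) =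
      Measure.infinitePi fun _ : κ => μ := by
  classical
  apply Measure.eq_infinitePi
  intro s t ht
  have hm : Measurable fun (ω : ι → ℝ) (x : κ) => ω (f x) := by fun_prop
  rw [Measure.map_apply hm (MeasurableSet.pi s.countable_toSet fun i _ => ht i)]
  have h1 : (fun (ω : ι → ℝ) (x : κ) => ω (f x)) ⁻¹' (Set.pi s t) =
      Set.pi (s.image f : Finset ι) (Function.extend f t (fun _ => Set.univ)) := by
    ext ω
    simp only [Set.mem_preimage, Set.mem_pi, Finset.mem_coe, Finset.mem_image,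
      forall_exists_index, and_imp, forall_apply_eq_imp_iff₂]
    constructor
    · intro h x hx
      rw [hf.extend_apply]
      exact h x hx
    · intro h x hx
      have := h x hx
      rw [hf.extend_apply] at this
      exact this
  have h2 : ∀ y, MeasurableSet (Function.extend f t (fun _ => Set.univ) y) := by
    intro y
    by_cases hy : ∃ x, f x = y
    · obtain ⟨x, rfl⟩ := hy
      rw [hf.extend_apply]
      exact ht x
    · rw [Function.extend_apply' _ _ _ hy]
      exact MeasurableSet.univ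
  rw [h1, Measure.infinitePi_pi _ (fun y _ => h2 y), Finset.prod_image (fun x _ y _ h => hf h)]
  refine Finset.prod_congr rfl fun x _ => ?_
  rw [hf.extend_apply]

theorem pi_mp {ι κ : Type} (μ : Measure ℝ) [IsProbabilityMeasure μ] (f : κ → ι)
    (hf : Function.Injective f) : MeasurePreserving (fun (ω : ι → ℝ) (x : κ) => ω (f x))
      (Measure.infinitePi fun _ : ι => μ) (Measure.infinitePi fun _ : κ => μ) :=
  ⟨by fun_prop, pi_comp μ f hf⟩

/-- disjoint parts of an iid environment are independent -/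
theorem pi_indep {ι κ : Type} (μ : Measure ℝ) [IsProbabilityMeasure μ] (f g : κ → ι)
    (hfg : ∀ x y, f x ≠ g y) : IndepFun (fun (ω : ι → ℝ) (x : κ) => ω (f x))
      (fun (ω : ι → ℝ) (x : κ) => ω (g x)) (Measure.infinitePi fun _ : ι => μ) := by
  have h1 := iIndepFun_infinitePi (P := fun _ : ι => μ) (X := fun _ : ι => (id : ℝ → ℝ))
    (fun _ => measurable_id)
  have h2 := h1.iIndep
  have h3 := indep_iSup_of_disjoint (S := Set.range f) (T := Set.range g)
    (fun i => (measurable_id.comp (measurable_pi_apply i)).comap_le) h2 (by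
      rw [Set.disjoint_left]
      rintro w ⟨x, rfl⟩ ⟨y, hy⟩
      exact hfg x y hy.symm)
  have h4 : ∀ k : κ → ι, MeasurableSpace.comap (fun (ω : ι → ℝ) (x : κ) => ω (k x))
      MeasurableSpace.pi ≤ ⨆ i ∈ Set.range k, MeasurableSpace.comap (fun ω : ι → ℝ => id (ω i))
        inferInstance := by
    intro k
    unfold MeasurableSpace.pi
    rw [MeasurableSpace.comap_iSup]
    refine iSup_le fun x => ?_
    rw [MeasurableSpace.comap_comp]
    exact le_iSup₂_of_le (k x) ⟨x, rfl⟩ le_rfl
  exact indep_of_indep_of_le_left (indep_of_indep_of_le_right h3 (h4 g)) (h4 f)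

end law

section cont

variable {ι α : Type} {F : Filter α}

theorem rz_sub {A A' : LL ι →L[ℂ] LL ι} (hA : IsSelfAdjoint A) (hA' : IsSelfAdjoint A') (z : ℂ)
    (hz : z.im ≠ 0) (u : LL ι) :
    Rz A z u - Rz A' z u = Rz A z (A' (Rz A' z u) - A (Rz A' z u)) := by
  apply rz_uniq A hA z hz
  have h1 := rz_eq A hA z hz u
  have h2 := rz_eq A' hA' z hz u
  rw [map_sub, smul_sub]
  have h4 : A' (Rz A' z u) = u + z • Rz A' z u := sub_eq_iff_eq_add.1 h2
  rw [h4]
  have h5 : A (Rz A z u) = u + z • Rz A z u := sub_eq_iff_eq_add.1 h1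
  rw [h5]
  abel

theorem rz_tendsto (A : α → LL ι →L[ℂ] LL ι) (A0 : LL ι →L[ℂ] LL ι)
    (hA : ∀ k, IsSelfAdjoint (A k)) (hA0 : IsSelfAdjoint A0)
    (h : ∀ u, Tendsto (fun k => A k u) F (𝓝 (A0 u))) (z : ℂ) (hz : z.im ≠ 0) (u : LL ι) :
    Tendsto (fun k => Rz (A k) z u) F (𝓝 (Rz A0 z u)) := by
  rw [tendsto_iff_norm_sub_tendsto_zero]
  have h1 := h (Rz A0 z u)
  rw [tendsto_iff_norm_sub_tendsto_zero] at h1
  have h2 := h1.div_const |z.im|
  rw [zero_div] at h2
  refine squeeze_zero (fun k => norm_nonneg _) (fun k => ?_) h2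
  rw [rz_sub (hA k) hA0 z hz u]
  refine (rz_norm _ (hA k) z hz _).trans (le_of_eq ?_)
  rw [norm_sub_rev]

end cont

section half

variable {K d : ℕ} {S : Type} [AddGroup S]

theorem th_tendsto {α : Type} {F : Filter α} (e : Fin d → S) (a t B : ℝ)
    (w : α → List (Fin K) × S → ℝ) (w0 : List (Fin K) × S → ℝ)
    (hw : ∀ x, Tendsto (fun k => w k x) F (𝓝 (w0 x))) (u : LL (List (Fin K) × S)) :
    Tendsto (fun k => Th K e a t B (w k) u) F (𝓝 (Th K e a t B w0 u)) := by
  unfold Th
  simp only [ContinuousLinearMap.add_apply, ContinuousLinearMap.sub_apply]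
  exact ((tendsto_const_nhds.add (Mw_tendsto B w w0 hw u)).sub tendsto_const_nhds).sub
    tendsto_const_nhds

theorem tf_tendsto {α : Type} {F : Filter α} (e : Fin d → S) (a t B : ℝ)
    (w : α → Tr K × S → ℝ) (w0 : Tr K × S → ℝ)
    (hw : ∀ x, Tendsto (fun k => w k x) F (𝓝 (w0 x))) (u : LL (Tr K × S)) :
    Tendsto (fun k => Tf K e a t B (w k) u) F (𝓝 (Tf K e a t B w0 u)) := by
  unfold Tf
  obtain ⟨Q, hQ⟩ : ∃ Q, Q = (t : ℂ) • (Kr K S + ContinuousLinearMap.adjoint (Kr K S)) := ⟨_, rfl⟩
  rw [← hQ]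
  simp only [ContinuousLinearMap.add_apply, ContinuousLinearMap.sub_apply]
  exact (((tendsto_const_nhds.add (Mw_tendsto B w w0 hw u)).sub tendsto_const_nhds).sub
    tendsto_const_nhds).sub tendsto_const_nhds

theorem pw_tendsto {V : Type} (lam b : ℝ) (ω0 : V → ℝ) (x : V) :
    Tendsto (fun ω : V → ℝ => pw lam b ω x) (𝓝 ω0) (𝓝 (pw lam b ω0 x)) := by
  have h : Continuous fun ω : V → ℝ => pw lam b ω x := by
    unfold pw
    exact ((clp_cont b).comp (continuous_apply x)).const_mul lam
  exact h.tendsto ω0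

variable [Fintype S] [DecidableEq S]

theorem gh_cont (e : Fin d → S) (a t lam b : ℝ) (z : ℂ) (hz : 0 < z.im) :
    Continuous fun ω : List (Fin K) × S → ℝ => Gh K e a t lam b z ω := by
  refine continuous_matrix fun x y => ?_
  rw [continuous_iff_continuousAt]
  intro ω0
  unfold ContinuousAt Gh Gm
  simp only [← ev_apply]
  refine ((ev (([], x) : List (Fin K) × S)).continuous.tendsto _).comp ?_
  exact rz_tendsto (fun ω : List (Fin K) × S → ℝ => Th K e a t (lam * b) (pw lam b ω)) _
    (fun ω => Th_sa _ _ _ _ _) (Th_sa _ _ _ _ _)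
    (fun u => th_tendsto e a t (lam * b) _ _ (fun v => pw_tendsto lam b ω0 v) u) z hz.ne' _

theorem clp_clp (b x : ℝ) : clp b (clp b x) = clp b x := clp_eq (clp_abs b x)

theorem gh_clp (e : Fin d → S) (a t lam b : ℝ) (z : ℂ) (ω : List (Fin K) × S → ℝ) :
    Gh K e a t lam b z (fun v => clp b (ω v)) = Gh K e a t lam b z ω := by
  have h : pw lam b (fun v => clp b (ω v)) = pw lam b ω := by
    funext v
    unfold pw
    rw [clp_clp]
  unfold Gh
  rw [h]

/-- the right translation -/
noncomputable def Rt (g : S) : Matrix S S ℂ := fun x y => if x + g = y then 1 else 0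

theorem rt_conj (g : S) (x y : S) : (Rt g)ᴴ x y = if x - g = y then 1 else 0 := by
  rw [conjTranspose_apply]
  unfold Rt
  by_cases h : y + g = x
  · rw [if_pos h, if_pos (by rw [← h, add_sub_cancel_right]), star_one]
  · rw [if_neg h, if_neg (fun h2 => h (by rw [← h2, sub_add_cancel])), star_zero]

theorem rt_unit (g : S) : (Rt g)ᴴ * Rt g = 1 := by
  ext x y
  rw [mul_apply]
  simp only [rt_conj]
  unfold Rt
  simp only [ite_mul, one_mul, zero_mul, Finset.sum_ite_eq, Finset.mem_univ, if_true,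
    sub_add_cancel]
  rw [one_apply]

theorem am_rt (e : Fin d → S) (a : ℝ) :
    Am e a = (a : ℂ) • 1 - ∑ i, (Rt (e i) + (Rt (e i))ᴴ) := by
  ext x y
  rw [Matrix.sub_apply, Matrix.sum_apply, Matrix.smul_apply, smul_eq_mul, one_apply]
  simp only [Matrix.add_apply, rt_conj]
  unfold Am Rt
  congr 1
  split_ifs <;> simp

theorem am_low (e : Fin d → S) (a : ℝ) : (Am e a - ((a - 2 * d : ℝ) : ℂ) • 1).PosSemidef := by
  have h : Am e a - ((a - 2 * d : ℝ) : ℂ) • 1 = ∑ i, (1 - Rt (e i))ᴴ * (1 - Rt (e i)) := by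
    have h1 : ∀ i, (1 - Rt (e i))ᴴ * (1 - Rt (e i)) =
        (2 : ℂ) • 1 - (Rt (e i) + (Rt (e i))ᴴ) := by
      intro i
      rw [conjTranspose_sub, conjTranspose_one, Matrix.sub_mul, Matrix.mul_sub, Matrix.mul_sub,
        rt_unit]
      simp only [Matrix.one_mul, Matrix.mul_one]
      module
    rw [Finset.sum_congr rfl fun i _ => h1 i, Finset.sum_sub_distrib, Finset.sum_const,
      Finset.card_univ, Fintype.card_fin, am_rt, ← Nat.cast_smul_eq_nsmul ℂ, smul_smul]
    push_cast
    module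
  rw [h]
  exact posSemidef_sum _ fun i _ => posSemidef_conjTranspose_mul_self _

theorem am_high (e : Fin d → S) (a : ℝ) : (((a + 2 * d : ℝ) : ℂ) • 1 - Am e a).PosSemidef := by
  have h : ((a + 2 * d : ℝ) : ℂ) • 1 - Am e a = ∑ i, (1 + Rt (e i))ᴴ * (1 + Rt (e i)) := by
    have h1 : ∀ i, (1 + Rt (e i))ᴴ * (1 + Rt (e i)) =
        (2 : ℂ) • 1 + (Rt (e i) + (Rt (e i))ᴴ) := by
      intro i
      rw [conjTranspose_add, conjTranspose_one, Matrix.add_mul, Matrix.mul_add, Matrix.mul_add,
        rt_unit]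
      simp only [Matrix.one_mul, Matrix.mul_one]
      module
    rw [Finset.sum_congr rfl fun i _ => h1 i, Finset.sum_add_distrib, Finset.sum_const,
      Finset.card_univ, Fintype.card_fin, am_rt, ← Nat.cast_smul_eq_nsmul ℂ, smul_smul]
    push_cast
    module
  rw [h]
  exact posSemidef_sum _ fun i _ => posSemidef_conjTranspose_mul_self _

theorem am_herm (e : Fin d → S) (a : ℝ) : (Am e a).IsHermitian := by
  unfold Matrix.IsHermitian
  rw [am_rt, conjTranspose_sub, conjTranspose_smul, conjTranspose_one, conjTranspose_sum,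
    RCLike.star_def, Complex.conj_ofReal]
  congr 1
  refine Finset.sum_congr rfl fun i _ => ?_
  rw [conjTranspose_add, conjTranspose_conjTranspose, add_comm]

/-- the law of the environment of the rooted tree -/
noncomputable def Ph (K : ℕ) (S : Type) (ρ : Measure ℝ) : Measure (List (Fin K) × S → ℝ) :=
  Measure.infinitePi fun _ : List (Fin K) × S => ρ

instance (ρ : Measure ℝ) [IsProbabilityMeasure ρ] : IsProbabilityMeasure (Ph K S ρ) := by
  unfold Ph
  infer_instance

/-- the recursion of the Green matrices -/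
theorem rm_gh (e : Fin d → S) (a t lam b : ℝ) (z : ℂ) (hz : 0 < z.im) (hK : 2 ≤ K) (ht : 0 < t)
    (hlam : 0 < lam) (ρ : Measure ℝ) [IsProbabilityMeasure ρ] :
    Rm K t z lam |b| (Ph K S ρ) (Am e a) (tau K S) (fun ω x => clp b (ω ([], x)))
      (Gh K e a t lam b z) := by
  refine ⟨hK, ht, hz, hlam, am_herm e a, fun i => ?_, fun i j hij => ?_, fun ω x => clp_abs b _,
    fun ω => gh_rec e a t lam b z hz ω, fun ω => gm_pos _ z (Th_sa _ _ _ _ _) hz,
    gh_cont e a t lam b z hz, ?_⟩
  · exact pi_mp ρ _ (tm_inj (List.append_left_injective _))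
  · refine pi_indep ρ _ _ ?_
    rintro ⟨l, x⟩ ⟨l', x'⟩ h
    unfold tm at h
    simp only [Prod.mk.injEq] at h
    have h1 := List.append_inj' h.1 rfl
    simp only [List.cons.injEq, and_true] at h1
    exact hij h1.2
  · refine ⟨Set.pi Set.univ fun _ => Set.Icc (-|b|) |b|, isCompact_univ_pi fun _ => isCompact_Icc,
      fun ω => ⟨fun v => clp b (ω v), fun v _ => ?_, gh_clp e a t lam b z ω⟩⟩
    exact abs_le.1 (clp_abs b (ω v))

end half

end Pool.Agent.Helper32.BS
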