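import Pool.Agent.Helper32.BS.Mom

/-! The moment bounds of the regular tree times a finite group. -/

set_option autoImplicit false
set_option linter.unusedSectionVars false
set_option linter.unusedSimpArgs false

open scoped BigOperators InnerProductSpace Topology Matrix ComplexOrder MatrixOrder ENNReal
open Filter Matrix MeasureTheory ProbabilityTheory

namespace Pool.Agent.Helper32.BS

open Pool.Agent.TH369.AN (Rz rz_eq rz_uniq rz_norm)
open Pool.Agent.Y662.TR (LL lmk lmk_apply ll_inner ll_ext ll_summable ll_coord ll_sum dv dv_apply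
  dv_self dv_ne inner_dv norm_dv ev ev_apply add_coord sub_coord neg_coord smul_coord Cf Cf_apply
  Cf_norm Cf_dv Cf_dv_ne Cf_adj Cf_adj_ne Cf_adj_norm clp clp_abs clp_eq clp_cont Mw Mw_apply
  Mw_norm Mw_sa Mw_tendsto)

section gen

variable {K d : ℕ} {S : Type} [AddGroup S]

/-- the law of the environment of the regular tree -/
noncomputable def Pf (K : ℕ) (S : Type) (ρ : Measure ℝ) : Measure (Tr K × S → ℝ) :=
  Measure.infinitePi fun _ : Tr K × S => ρ

instance (ρ : Measure ℝ) [IsProbabilityMeasure ρ] : IsProbabilityMeasure (Pf K S ρ) := by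
  unfold Pf
  infer_instance

/-- the diagonal of the Green function -/
noncomputable def GF (e : Fin d → S) (a t lam b : ℝ) (z : ℂ) (v : Tr K × S)
    (ω : Tr K × S → ℝ) : ℂ := Rz (Tf K e a t (lam * b) (pw lam b ω)) z (dv v) v

theorem gf_im (e : Fin d → S) (a t lam b : ℝ) (z : ℂ) (hz : 0 < z.im) (v : Tr K × S)
    (ω : Tr K × S → ℝ) : (GF e a t lam b z v ω).im =
      z.im * ‖Rz (Tf K e a t (lam * b) (pw lam b ω)) z (dv v)‖ ^ 2 := by
  have : (inner ℂ (dv v) (Rz (Tf K e a t (lam * b) (pw lam b ω)) z (dv v))).im = z.im *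
      ‖Rz (Tf K e a t (lam * b) (pw lam b ω)) z (dv v)‖ ^ 2 :=
    Pool.Agent.H12R2.And.im_inner (Tf_sa _ _ _ _ _) hz.ne' (dv v)
  rw [inner_dv] at this
  exact this

theorem gf_im_pos (e : Fin d → S) (a t lam b : ℝ) (z : ℂ) (hz : 0 < z.im) (v : Tr K × S)
    (ω : Tr K × S → ℝ) : 0 < (GF e a t lam b z v ω).im := by
  rw [gf_im e a t lam b z hz]
  have h1 : Rz (Tf K e a t (lam * b) (pw lam b ω)) z (dv v) ≠ 0 := by
    intro h
    have h2 := rz_eq _ (Tf_sa e a t (lam * b) (pw lam b ω)) z hz.ne' (dv v)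
    rw [h, map_zero, smul_zero, sub_zero] at h2
    have h3 := norm_dv v
    rw [← h2, norm_zero] at h3
    exact zero_ne_one h3
  have := norm_pos_iff.2 h1
  positivity

theorem gf_cont (e : Fin d → S) (a t lam b : ℝ) (z : ℂ) (hz : 0 < z.im) (v : Tr K × S) :
    Continuous (GF (K := K) e a t lam b z v) := by
  rw [continuous_iff_continuousAt]
  intro ω0
  unfold ContinuousAt GF
  simp only [← ev_apply]
  refine ((ev v).continuous.tendsto _).comp ?_
  exact rz_tendsto (fun ω : Tr K × S → ℝ => Tf K e a t (lam * b) (pw lam b ω)) _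
    (fun ω => Tf_sa _ _ _ _ _) (Tf_sa _ _ _ _ _)
    (fun u => tf_tendsto e a t (lam * b) _ _ (fun v => pw_tendsto lam b ω0 v) u) z hz.ne' _

/-- the neighbours of a vertex, and the vertex -/
def nbv (e : Fin d → S) (v0 : Tr K × S) : Option (Option ((Fin d × Bool) ⊕ Fin K)) → Tr K × S
  | none => v0
  | some none => (pa v0.1, v0.2)
  | some (some (Sum.inl (i, s))) => (v0.1, if s then v0.2 + e i else v0.2 - e i)
  | some (some (Sum.inr j)) => (cf j v0.1, v0.2)

/-- the environment of the subtree of the child `j` of `p` -/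
def se (p : Tr K) (j : Fin K) (ω : Tr K × S → ℝ) : List (Fin K) × S → ℝ :=
  fun v => ω (tm (fun l => ((p.1, l ++ j :: p.2) : Tr K)) v)

theorem nb_sel (hK : 2 ≤ K) (e : Fin d → S) (v0 : Tr K × S)
    (ι : Option (Option ((Fin d × Bool) ⊕ Fin K))) : ∃ j : Fin K,
      ∀ v : List (Fin K) × S, tm (fun l => (((nbv e v0 ι).1.1, l ++ j :: (nbv e v0 ι).1.2) : Tr K)) v ≠
        v0 := by
  obtain ⟨⟨s0, l0⟩, x0⟩ := v0
  have hlen : ∀ (l : List (Fin K)) (j : Fin K), l ++ j :: l0 ≠ l0 := by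
    intro l j h
    have := congrArg List.length h
    simp at this
    omega
  rcases ι with _ | _ | ⟨i, s⟩ | j
  · refine ⟨⟨0, by omega⟩, ?_⟩
    rintro ⟨l, x⟩ h
    simp only [tm, nbv, Prod.mk.injEq] at h
    exact hlen _ _ h.1.2
  · cases l0 with
    | nil =>
      refine ⟨⟨0, by omega⟩, ?_⟩
      rintro ⟨l, x⟩ h
      simp [tm, nbv, pa] at h
    | cons i l0 =>
      obtain ⟨j, hj⟩ : ∃ j : Fin K, j ≠ i := by
        have : Nontrivial (Fin K) := Fin.nontrivial_iff_two_le.2 hK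
        exact exists_ne i
      refine ⟨j, ?_⟩
      rintro ⟨l, x⟩ h
      simp only [tm, nbv, pa, Prod.mk.injEq, true_and] at h
      have h1 := congrArg List.length h.1
      simp only [List.length_append, List.length_cons] at h1
      have h2 : l = [] := by
        rw [← List.length_eq_zero_iff]
        omega
      rw [h2] at h
      simp only [List.nil_append, List.cons.injEq] at h
      exact hj h.1.1
  · refine ⟨⟨0, by omega⟩, ?_⟩
    rintro ⟨l, x⟩ h
    simp only [tm, nbv, Prod.mk.injEq] at h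
    exact hlen _ _ h.1.2
  · refine ⟨⟨0, by omega⟩, ?_⟩
    rintro ⟨l, x⟩ h
    simp only [tm, nbv, cf, Prod.mk.injEq] at h
    have := congrArg List.length h.1.2
    simp at this
    omega

end gen

section fin

variable {K d : ℕ} {S : Type} [AddGroup S] [Fintype S] [DecidableEq S]

theorem key_f (e : Fin d → S) (a t lam b : ℝ) (z : ℂ) (hz : 0 < z.im) (v0 : Tr K × S)
    (ω : Tr K × S → ℝ) (p : Tr K) (j : Fin K) (x : S)
    (hv : ∀ v, tm (fun l => ((p.1, l ++ j :: p.2) : Tr K)) v ≠ v0) :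
    t ^ 2 * ‖Rz (Tf K e a t (lam * b) (pw lam b ω)) z (dv v0) (p, x)‖ ^ 2 ≤
      (GF e a t lam b z v0 ω).im * mq e a t lam b z x (se p j ω) := by
  have hs : Sub (Th K e a t (lam * b) (pw lam b (se p j ω)))
      (Tf K e a t (lam * b) (pw lam b ω)) t (fun l => ((p.1, l ++ j :: p.2) : Tr K))
      (jf_inj j p.1 p.2) p := by
    intro u v
    exact sub_full e a t (lam * b) (pw lam b ω) j p.1 p.2 (jf_inj j p.1 p.2) u v
  exact key hs (Th_sa _ _ _ _ _) (Tf_sa _ _ _ _ _) z hz v0 hv x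

theorem mp_int2 {Ω Ω' : Type} [MeasurableSpace Ω] [MeasurableSpace Ω'] {P : Measure Ω}
    {Q : Measure Ω'} {τ : Ω → Ω'} (hτ : MeasurePreserving τ P Q) {f : Ω' → ℝ}
    (hf : Measurable f) : ∫ ω, f (τ ω) ∂P = ∫ ω, f ω ∂Q := by
  have h := integral_map (μ := P) (φ := τ) hτ.measurable.aemeasurable (f := f)
    hf.aestronglyMeasurable
  rw [hτ.map_eq] at h
  exact h.symm

theorem se_mp (p : Tr K) (j : Fin K) (ρ : Measure ℝ) [IsProbabilityMeasure ρ] :
    MeasurePreserving (se (S := S) p j) (Pf K S ρ) (Ph K S ρ) :=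
  pi_mp ρ _ (tm_inj (jf_inj j p.1 p.2))

/-- the bounds at a site -/
theorem site_bd (hK : 2 ≤ K) (e : Fin d → S) {a t lam b : ℝ} (ht : 0 < t) (z : ℂ) (hz : 0 < z.im)
    (ρ : Measure ℝ) [IsProbabilityMeasure ρ] (C : ℝ)
    (hC : ∀ x : S, ∫ ω, mq e a t lam b z x ω ^ 2 ∂(Ph K S ρ) ≤ C) (A : ℝ)
    (hA : |a| + |lam| * |b| + ‖z‖ + 2 * d + t * (K + 1) ≤ A) (v0 : Tr K × S) :
    ∫⁻ ω, ENNReal.ofReal (‖GF e a t lam b z v0 ω‖ ^ 2) ∂(Pf K S ρ) ≤
        ENNReal.ofReal ((t⁻¹ ^ 2) ^ 2 * C) ∧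
      ∫⁻ ω, ENNReal.ofReal ((1 / (GF e a t lam b z v0 ω).im) ^ 2) ∂(Pf K S ρ) ≤
        ENNReal.ofReal ((A ^ 2 * t⁻¹ ^ 2) ^ 2 * ((2 + 2 * d + K) ^ 2 * C)) := by
  choose jj hjj using nb_sel hK e v0
  obtain ⟨m, hm⟩ : ∃ m : Option (Option ((Fin d × Bool) ⊕ Fin K)) → (Tr K × S → ℝ) → ℝ,
      m = fun ι ω => mq e a t lam b z (nbv e v0 ι).2 (se (nbv e v0 ι).1 (jj ι) ω) := ⟨_, rfl⟩
  have hm0 : ∀ ι ω, 0 ≤ m ι ω := by
    intro ι ω
    rw [hm]
    exact mq_nonneg e a t lam b z hz _ _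
  have hmm : ∀ ι, Measurable (m ι) := by
    intro ι
    rw [hm]
    exact (mq_cont e a t lam b z hz _).measurable.comp (se_mp (S := S) _ _ ρ).measurable
  have hmb : ∀ ι, ∃ M, ∀ ω, |m ι ω| ≤ M := by
    intro ι
    obtain ⟨M, hM⟩ := mq_bdd (K := K) e a t lam b z hz (nbv e v0 ι).2
    refine ⟨M, fun ω => ?_⟩
    rw [hm]
    exact hM _
  have hmi : ∀ ι, Integrable (fun ω => m ι ω ^ 2) (Pf K S ρ) := by
    intro ι
    obtain ⟨M, hM⟩ := hmb ι
    refine bintr ((hmm ι).pow_const 2) (M := M ^ 2) fun ω => ?_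
    rw [abs_of_nonneg (sq_nonneg _), ← sq_abs]
    have := hM ω
    gcongr
  have hmC : ∀ ι, ∫ ω, m ι ω ^ 2 ∂(Pf K S ρ) ≤ C := by
    intro ι
    rw [hm]
    have h1 := mp_int2 (se_mp (S := S) (nbv e v0 ι).1 (jj ι) ρ)
      (f := fun ω => mq e a t lam b z (nbv e v0 ι).2 ω ^ 2)
      ((mq_cont e a t lam b z hz _).measurable.pow_const 2)
    rw [h1]
    exact hC _
  have hkey : ∀ ι ω, t ^ 2 * ‖Rz (Tf K e a t (lam * b) (pw lam b ω)) z (dv v0) (nbv e v0 ι)‖ ^ 2 ≤
      (GF e a t lam b z v0 ω).im * m ι ω := by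
    intro ι ω
    rw [hm]
    exact key_f e a t lam b z hz v0 ω _ (jj ι) _ (hjj ι)
  have hC0 : 0 ≤ C := (integral_nonneg fun ω => sq_nonneg _).trans (hmC none)
  constructor
  · have h1 : ∀ ω, ‖GF e a t lam b z v0 ω‖ ^ 2 ≤ (t⁻¹ ^ 2) ^ 2 * m none ω ^ 2 := by
      intro ω
      have e1 := hkey none ω
      have e2 : Rz (Tf K e a t (lam * b) (pw lam b ω)) z (dv v0) (nbv e v0 none) =
          GF e a t lam b z v0 ω := rfl
      rw [e2] at e1
      have e3 := gf_im_pos e a t lam b z hz v0 ω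
      have e4 : (GF e a t lam b z v0 ω).im ≤ ‖GF e a t lam b z v0 ω‖ := Complex.im_le_norm _
      have e5 : 0 < ‖GF e a t lam b z v0 ω‖ := e3.trans_le e4
      have e6 : t ^ 2 * ‖GF e a t lam b z v0 ω‖ ^ 2 ≤ ‖GF e a t lam b z v0 ω‖ * m none ω :=
        e1.trans (mul_le_mul_of_nonneg_right e4 (hm0 _ _))
      have e7 : t ^ 2 * ‖GF e a t lam b z v0 ω‖ ≤ m none ω := by
        have : ‖GF e a t lam b z v0 ω‖ * (t ^ 2 * ‖GF e a t lam b z v0 ω‖) ≤
            ‖GF e a t lam b z v0 ω‖ * m none ω := by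
          calc _ = t ^ 2 * ‖GF e a t lam b z v0 ω‖ ^ 2 := by ring
            _ ≤ _ := e6
        exact le_of_mul_le_mul_left this e5
      have e8 : ‖GF e a t lam b z v0 ω‖ ≤ t⁻¹ ^ 2 * m none ω := by
        rw [inv_pow, ← div_eq_inv_mul, le_div_iff₀ (by positivity)]
        linarith
      calc ‖GF e a t lam b z v0 ω‖ ^ 2 ≤ (t⁻¹ ^ 2 * m none ω) ^ 2 := by gcongr
        _ = _ := by ring
    calc ∫⁻ ω, ENNReal.ofReal (‖GF e a t lam b z v0 ω‖ ^ 2) ∂(Pf K S ρ) ≤
        ∫⁻ ω, ENNReal.ofReal ((t⁻¹ ^ 2) ^ 2 * m none ω ^ 2) ∂(Pf K S ρ) :=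
          lintegral_mono fun ω => ENNReal.ofReal_le_ofReal (h1 ω)
      _ = ENNReal.ofReal (∫ ω, (t⁻¹ ^ 2) ^ 2 * m none ω ^ 2 ∂(Pf K S ρ)) :=
          (ofReal_integral_eq_lintegral_ofReal ((hmi none).const_mul _)
            (Eventually.of_forall fun ω => by positivity)).symm
      _ ≤ _ := by
          apply ENNReal.ofReal_le_ofReal
          rw [integral_const_mul]
          gcongr
          exact hmC none
  · obtain ⟨N, hN⟩ : ∃ N : (Tr K × S → ℝ) → ℝ, N = fun ω => ∑ ι, m ι ω := ⟨_, rfl⟩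
    have hNm : ∀ ι ω, m ι ω ≤ N ω := by
      intro ι ω
      rw [hN]
      exact Finset.single_le_sum (f := fun ι => m ι ω) (fun i _ => hm0 i ω) (Finset.mem_univ ι)
    have hN0 : ∀ ω, 0 ≤ N ω := fun ω => (hm0 none ω).trans (hNm none ω)
    have h1 : ∀ ω, (1 / (GF e a t lam b z v0 ω).im) ^ 2 ≤ (A ^ 2 * t⁻¹ ^ 2) ^ 2 * N ω ^ 2 := by
      intro ω
      obtain ⟨u, hu⟩ : ∃ u, u = Rz (Tf K e a t (lam * b) (pw lam b ω)) z (dv v0) := ⟨_, rfl⟩
      obtain ⟨g, hg⟩ : ∃ g, g = (GF e a t lam b z v0 ω).im := ⟨_, rfl⟩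
      have hg0 : 0 < g := by
        rw [hg]
        exact gf_im_pos e a t lam b z hz v0 ω
      obtain ⟨R, hR⟩ : ∃ R, R = t⁻¹ * Real.sqrt (g * N ω) := ⟨_, rfl⟩
      have hR0 : 0 ≤ R := by rw [hR]; positivity
      have hb : ∀ ι, ‖u (nbv e v0 ι)‖ ≤ R := by
        intro ι
        have e1 := hkey ι ω
        rw [← hu, ← hg] at e1
        have e2 : g * m ι ω ≤ g * N ω := by
          have := hNm ι ω
          gcongr
        have e3 : (t * ‖u (nbv e v0 ι)‖) ^ 2 ≤ g * N ω := by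
          rw [mul_pow]
          linarith
        have e4 := Real.le_sqrt_of_sq_le e3
        rw [hR, ← div_eq_inv_mul, le_div_iff₀ ht]
        linarith
      have h2 := rz_eq _ (Tf_sa e a t (lam * b) (pw lam b ω)) z hz.ne' (dv v0)
      rw [← hu] at h2
      have h3 : Tf K e a t (lam * b) (pw lam b ω) u v0 - z * u v0 = 1 := by
        rw [← dv_self v0, ← h2, sub_coord, smul_coord]
      rw [Tf_apply, clp_pw] at h3
      have n1 : ‖u v0‖ ≤ R := hb none
      have n2 : ‖u (pa v0.1, v0.2)‖ ≤ R := hb (some none)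
      have n3 : ∀ i, ‖u (v0.1, v0.2 + e i)‖ ≤ R := by
        intro i
        have := hb (some (some (Sum.inl (i, true))))
        simpa [nbv] using this
      have n4 : ∀ i, ‖u (v0.1, v0.2 - e i)‖ ≤ R := by
        intro i
        have := hb (some (some (Sum.inl (i, false))))
        simpa [nbv] using this
      have n5 : ∀ j, ‖u (cf j v0.1, v0.2)‖ ≤ R := fun j => hb (some (some (Sum.inr j)))
      have s1 : ‖∑ i : Fin d, (u (v0.1, v0.2 + e i) + u (v0.1, v0.2 - e i))‖ ≤ 2 * d * R := by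
        refine (norm_sum_le _ _).trans ?_
        refine (Finset.sum_le_sum fun i _ => (norm_add_le _ _).trans
          (add_le_add (n3 i) (n4 i))).trans (le_of_eq ?_)
        rw [Finset.sum_const, Finset.card_univ, Fintype.card_fin, nsmul_eq_mul]
        ring
      have s2 : ‖(∑ j : Fin K, u (cf j v0.1, v0.2)) + u (pa v0.1, v0.2)‖ ≤ (K + 1) * R := by
        refine (norm_add_le _ _).trans ?_
        have : ‖∑ j : Fin K, u (cf j v0.1, v0.2)‖ ≤ K * R := by
          refine (norm_sum_le _ _).trans ?_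
          refine (Finset.sum_le_sum fun j _ => n5 j).trans (le_of_eq ?_)
          rw [Finset.sum_const, Finset.card_univ, Fintype.card_fin, nsmul_eq_mul]
        linarith
      have s3 : ‖((a + lam * clp b (ω v0) : ℝ) : ℂ) * u v0 - z * u v0‖ ≤
          (|a| + |lam| * |b| + ‖z‖) * R := by
        refine (norm_sub_le _ _).trans ?_
        rw [norm_mul, norm_mul, Complex.norm_real, Real.norm_eq_abs]
        have e1 : |a + lam * clp b (ω v0)| ≤ |a| + |lam| * |b| := by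
          refine (abs_add_le _ _).trans ?_
          rw [abs_mul]
          have := clp_abs b (ω v0)
          gcongr
        calc |a + lam * clp b (ω v0)| * ‖u v0‖ + ‖z‖ * ‖u v0‖ ≤
            (|a| + |lam| * |b|) * R + ‖z‖ * R := by gcongr
          _ = _ := by ring
      have h4 : 1 ≤ A * R := by
        have e1 : (1 : ℂ) = (((a + lam * clp b (ω v0) : ℝ) : ℂ) * u v0 - z * u v0) -
            (∑ i : Fin d, (u (v0.1, v0.2 + e i) + u (v0.1, v0.2 - e i))) -
            (t : ℂ) * ((∑ j : Fin K, u (cf j v0.1, v0.2)) + u (pa v0.1, v0.2)) := by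
          rw [← h3]
          ring
        have e2 : (1 : ℝ) ≤ ‖((a + lam * clp b (ω v0) : ℝ) : ℂ) * u v0 - z * u v0‖ +
            ‖∑ i : Fin d, (u (v0.1, v0.2 + e i) + u (v0.1, v0.2 - e i))‖ +
            t * ‖(∑ j : Fin K, u (cf j v0.1, v0.2)) + u (pa v0.1, v0.2)‖ := by
          have e3 := congrArg norm e1
          rw [norm_one] at e3
          have e4 : ‖(t : ℂ) * ((∑ j : Fin K, u (cf j v0.1, v0.2)) + u (pa v0.1, v0.2))‖ =
              t * ‖(∑ j : Fin K, u (cf j v0.1, v0.2)) + u (pa v0.1, v0.2)‖ := by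
            rw [norm_mul, Complex.norm_real, Real.norm_of_nonneg ht.le]
          rw [← e4, e3]
          refine (norm_sub_le _ _).trans ?_
          gcongr
          exact norm_sub_le _ _
        have e5 : t * ‖(∑ j : Fin K, u (cf j v0.1, v0.2)) + u (pa v0.1, v0.2)‖ ≤
            t * ((K + 1) * R) := by gcongr
        have e6 : (|a| + |lam| * |b| + ‖z‖ + 2 * d + t * (K + 1)) * R ≤ A * R := by gcongr
        linarith
      have h5 : 1 ≤ A ^ 2 * (t⁻¹ ^ 2 * (g * N ω)) := by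
        have e1 : (1 : ℝ) ≤ (A * R) ^ 2 := by
          have := pow_le_pow_left₀ zero_le_one h4 2
          simpa using this
        have e2 : (A * R) ^ 2 = A ^ 2 * (t⁻¹ ^ 2 * (g * N ω)) := by
          rw [hR, mul_pow, mul_pow, Real.sq_sqrt (mul_nonneg hg0.le (hN0 ω))]
        rwa [e2] at e1
      have h6 : 1 / g ≤ A ^ 2 * t⁻¹ ^ 2 * N ω := by
        rw [div_le_iff₀ hg0]
        linarith
      rw [← hg]
      calc (1 / g) ^ 2 ≤ (A ^ 2 * t⁻¹ ^ 2 * N ω) ^ 2 := by gcongr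
        _ = _ := by ring
    have hcard : (Fintype.card (Option (Option ((Fin d × Bool) ⊕ Fin K))) : ℝ) = 2 + 2 * d + K := by
      simp only [Fintype.card_option, Fintype.card_sum, Fintype.card_prod, Fintype.card_fin,
        Fintype.card_bool]
      push_cast
      ring
    have hN2 : ∀ ω, N ω ^ 2 ≤ (2 + 2 * d + K) * ∑ ι, m ι ω ^ 2 := by
      intro ω
      rw [hN, ← hcard]
      exact sq_sum_le_card_mul_sum_sq
    have hsi : Integrable (fun ω => ∑ ι, m ι ω ^ 2) (Pf K S ρ) :=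
      integrable_finsetSum _ fun ι _ => hmi ι
    calc ∫⁻ ω, ENNReal.ofReal ((1 / (GF e a t lam b z v0 ω).im) ^ 2) ∂(Pf K S ρ) ≤
        ∫⁻ ω, ENNReal.ofReal ((A ^ 2 * t⁻¹ ^ 2) ^ 2 * ((2 + 2 * d + K) * ∑ ι, m ι ω ^ 2))
          ∂(Pf K S ρ) := by
          refine lintegral_mono fun ω => ENNReal.ofReal_le_ofReal ((h1 ω).trans ?_)
          have := hN2 ω
          gcongr
      _ = ENNReal.ofReal (∫ ω, (A ^ 2 * t⁻¹ ^ 2) ^ 2 * ((2 + 2 * d + K) * ∑ ι, m ι ω ^ 2)
          ∂(Pf K S ρ)) :=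
          (ofReal_integral_eq_lintegral_ofReal ((hsi.const_mul _).const_mul _)
            (Eventually.of_forall fun ω => by positivity)).symm
      _ ≤ _ := by
          apply ENNReal.ofReal_le_ofReal
          rw [integral_const_mul, integral_const_mul, integral_finsetSum _ fun ι _ => hmi ι]
          have e1 : ∑ ι, ∫ ω, m ι ω ^ 2 ∂(Pf K S ρ) ≤ (2 + 2 * d + K) * C := by
            rw [← hcard]
            refine (Finset.sum_le_sum fun ι _ => hmC ι).trans (le_of_eq ?_)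
            rw [Finset.sum_const, Finset.card_univ, nsmul_eq_mul]
          calc (A ^ 2 * t⁻¹ ^ 2) ^ 2 * ((2 + 2 * d + K) * ∑ ι, ∫ ω, m ι ω ^ 2 ∂(Pf K S ρ)) ≤
              (A ^ 2 * t⁻¹ ^ 2) ^ 2 * ((2 + 2 * d + K) * ((2 + 2 * d + K) * C)) := by gcongr
            _ = _ := by ring

end fin

end Pool.Agent.Helper32.BS
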