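import Pool.Agent.Helper32.BS.Nf

/-! The random matrix recursion: the bound, uniformly in the size of the matrices. -/

set_option autoImplicit false
set_option linter.unusedSectionVars false
set_option linter.unusedSimpArgs false

open scoped BigOperators Matrix ComplexOrder MatrixOrder
open Matrix MeasureTheory ProbabilityTheory

namespace Pool.Agent.Helper32.BS

section mat

variable {S : Type} [Fintype S] [DecidableEq S]

theorem diag_ex (A : Matrix S S ℂ) (hA : A.IsHermitian) : ∃ (U : Matrix S S ℂ) (a : S → ℝ),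
    Uᴴ * U = 1 ∧ U * Uᴴ = 1 ∧ Uᴴ * A * U = diagonal fun j => (a j : ℂ) := by
  refine ⟨hA.eigenvectorUnitary, hA.eigenvalues, ?_, ?_, ?_⟩
  · exact Unitary.coe_star_mul_self _
  · exact Unitary.coe_mul_star_self _
  · have h := hA.conjStarAlgAut_star_eigenvectorUnitary
    rw [Unitary.conjStarAlgAut_star_apply] at h
    exact h

theorem hs_unit (U X : Matrix S S ℂ) (hU : Uᴴ * U = 1) (hU' : U * Uᴴ = 1) :
    hs (Uᴴ * X * U) = hs X := by
  rw [hs_trace, hs_trace]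
  congr 1
  have h1 : (Uᴴ * X * U)ᴴ * (Uᴴ * X * U) = Uᴴ * (Xᴴ * X) * U := by
    rw [conjTranspose_mul, conjTranspose_mul, conjTranspose_conjTranspose]
    calc Uᴴ * (Xᴴ * U) * (Uᴴ * X * U) = Uᴴ * Xᴴ * (U * Uᴴ) * X * U := by
          simp only [Matrix.mul_assoc]
      _ = _ := by
          rw [hU', Matrix.mul_one]
          simp only [Matrix.mul_assoc]
  rw [h1, trace_mul_comm, ← Matrix.mul_assoc, ← Matrix.mul_assoc, hU', Matrix.one_mul]

theorem hs_scale (D X : Matrix S S ℂ) (w : S → ℝ) (hD : D = diagonal fun j => (w j : ℂ)) (c : ℝ)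
    (hc : ∀ j, w j ^ 2 ≤ c) : hs (D * X * D) ≤ c ^ 2 * hs X := by
  unfold hs
  rw [Finset.mul_sum]
  refine Finset.sum_le_sum fun i _ => ?_
  rw [Finset.mul_sum]
  refine Finset.sum_le_sum fun j _ => ?_
  rw [hD, mul_diagonal, diagonal_mul, norm_mul, norm_mul, Complex.norm_real, Complex.norm_real,
    mul_pow, mul_pow, Real.norm_eq_abs, Real.norm_eq_abs, sq_abs, sq_abs]
  have h1 := hc i
  have h2 := hc j
  have h3 : w i ^ 2 * w j ^ 2 ≤ c * c := by
    have := (sq_nonneg (w i)).trans h1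
    gcongr
  calc w i ^ 2 * ‖X i j‖ ^ 2 * w j ^ 2 = (w i ^ 2 * w j ^ 2) * ‖X i j‖ ^ 2 := by ring
    _ ≤ (c * c) * ‖X i j‖ ^ 2 := by gcongr
    _ = _ := by ring

theorem imm_unit (U X : Matrix S S ℂ) : Imm (Uᴴ * X * U) = Uᴴ * Imm X * U := by
  unfold Imm
  rw [conjTranspose_mul, conjTranspose_mul, conjTranspose_conjTranspose]
  simp only [Matrix.mul_sub, Matrix.sub_mul, Matrix.mul_smul, Matrix.smul_mul, Matrix.mul_assoc]

theorem unit_inv (U X : Matrix S S ℂ) (hU : Uᴴ * U = 1) (hU' : U * Uᴴ = 1) (hX : X.PosDef) :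
    (Uᴴ * X * U)⁻¹ = Uᴴ * X⁻¹ * U := by
  apply inv_eq_right_inv
  calc Uᴴ * X * U * (Uᴴ * X⁻¹ * U) = Uᴴ * X * (U * Uᴴ) * X⁻¹ * U := by
        simp only [Matrix.mul_assoc]
    _ = Uᴴ * (X * X⁻¹) * U := by
        rw [hU', Matrix.mul_one]
        simp only [Matrix.mul_assoc]
    _ = 1 := by
        rw [mul_nonsing_inv _ ((isUnit_iff_isUnit_det _).1 hX.isUnit), Matrix.mul_one, hU]

theorem posdef_unit (U X : Matrix S S ℂ) (hU : Uᴴ * U = 1) (hU' : U * Uᴴ = 1) (hX : X.PosDef) :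
    (Uᴴ * X * U).PosDef := by
  have h1 := hX.mul_mul_conjTranspose_same (B := Uᴴ) (by
    apply Matrix.vecMul_injective_of_isUnit
    exact ⟨⟨Uᴴ, U, hU, hU'⟩, rfl⟩)
  rwa [conjTranspose_conjTranspose] at h1

/-- the bound of the eigenvalues -/
theorem eig_low (A U : Matrix S S ℂ) (a : S → ℝ) (hU : Uᴴ * U = 1)
    (hd : Uᴴ * A * U = diagonal fun j => (a j : ℂ)) (α : ℝ)
    (h : (A - (α : ℂ) • 1).PosSemidef) (j : S) : α ≤ a j := by
  have h1 := h.conjTranspose_mul_mul_same U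
  have h2 : Uᴴ * (A - (α : ℂ) • 1) * U = diagonal fun j => ((a j - α : ℝ) : ℂ) := by
    rw [Matrix.mul_sub, Matrix.sub_mul, hd, Matrix.mul_smul, Matrix.smul_mul, Matrix.mul_one, hU,
      ← diagonal_one, ← diagonal_smul, diagonal_sub]
    congr 1
    funext j
    simp
  rw [h2] at h1
  have h3 := h1.diag_nonneg (i := j)
  rw [diagonal_apply_eq] at h3
  have h4 : (0 : ℝ) ≤ a j - α := by exact_mod_cast h3
  linarith

theorem eig_high (A U : Matrix S S ℂ) (a : S → ℝ) (hU : Uᴴ * U = 1)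
    (hd : Uᴴ * A * U = diagonal fun j => (a j : ℂ)) (α : ℝ)
    (h : ((α : ℂ) • 1 - A).PosSemidef) (j : S) : a j ≤ α := by
  have h1 := h.conjTranspose_mul_mul_same U
  have h2 : Uᴴ * ((α : ℂ) • 1 - A) * U = diagonal fun j => ((α - a j : ℝ) : ℂ) := by
    rw [Matrix.mul_sub, Matrix.sub_mul, hd, Matrix.mul_smul, Matrix.smul_mul, Matrix.mul_one, hU,
      ← diagonal_one, ← diagonal_smul, diagonal_sub]
    congr 1
    funext j
    simp
  rw [h2] at h1
  have h3 := h1.diag_nonneg (i := j)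
  rw [diagonal_apply_eq] at h3
  have h4 : (0 : ℝ) ≤ α - a j := by exact_mod_cast h3
  linarith

end mat

section cont

variable {S Ω : Type} [Fintype S] [DecidableEq S] [TopologicalSpace Ω]

theorem cont_imm {F : Ω → Matrix S S ℂ} (hF : Continuous F) : Continuous fun ω => Imm (F ω) := by
  unfold Imm
  exact Continuous.const_smul (hF.sub hF.matrix_conjTranspose) (-Complex.I / 2)

theorem cont_inv {F : Ω → Matrix S S ℂ} (hF : Continuous F) (hp : ∀ ω, (F ω).PosDef) :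
    Continuous fun ω => (F ω)⁻¹ := by
  simp only [inv_def, Ring.inverse_eq_inv']
  refine Continuous.smul (Continuous.inv₀ hF.matrix_det fun ω => ?_) hF.matrix_adjugate
  exact ((isUnit_iff_isUnit_det _).1 (hp ω).isUnit).ne_zero

theorem cont_nn {F : Ω → Matrix S S ℂ} (hF : Continuous F) : Continuous fun ω => Nn (F ω) := by
  unfold Nn
  exact hF.add_const _

theorem cont_yy {F : Ω → Matrix S S ℂ} (hF : Continuous F) : Continuous fun ω => Yy (F ω) := by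
  unfold Yy
  exact hF.sub continuous_const

theorem cont_dp {F : Ω → Matrix S S ℂ} (hF : Continuous F) (hp : ∀ ω, (Imm (F ω)).PosDef) :
    Continuous fun ω => Dp (F ω) := by
  unfold Dp
  exact ((cont_nn hF).matrix_conjTranspose.matrix_mul (cont_inv (cont_imm hF) hp)).matrix_mul
    (cont_nn hF)

theorem cont_dm {F : Ω → Matrix S S ℂ} (hF : Continuous F) (hp : ∀ ω, (Imm (F ω)).PosDef) :
    Continuous fun ω => Dm (F ω) := by
  unfold Dm
  exact ((cont_yy hF).matrix_conjTranspose.matrix_mul (cont_inv (cont_imm hF) hp)).matrix_mul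
    (cont_yy hF)

theorem cont_xx {F : Ω → Matrix S S ℂ} (hF : Continuous F) (hp : ∀ ω, (Imm (F ω)).PosDef) :
    Continuous fun ω => Xx (F ω) := by
  unfold Xx
  exact ((cont_nn hF).matrix_conjTranspose.matrix_mul (cont_inv (cont_imm hF) hp)).matrix_mul
    (cont_yy hF)

theorem cont_hs {F : Ω → Matrix S S ℂ} (hF : Continuous F) : Continuous fun ω => hs (F ω) := by
  unfold hs
  refine continuous_finsetSum _ fun i _ => continuous_finsetSum _ fun j _ => ?_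
  exact (hF.matrix_elem i j).norm.pow 2

end cont

section main

variable {S Ω : Type} [Fintype S] [DecidableEq S] [TopologicalSpace Ω] [MeasurableSpace Ω]
  [OpensMeasurableSpace Ω]

/-- the recursion -/
structure Rm (K : ℕ) (t : ℝ) (z : ℂ) (lam bd : ℝ) (P : Measure Ω) (A : Matrix S S ℂ)
    (τ : Fin K → Ω → Ω) (v : Ω → S → ℝ) (G : Ω → Matrix S S ℂ) : Prop where
  K2 : 2 ≤ K
  tpos : 0 < t
  zpos : 0 < z.im
  lpos : 0 < lam
  herm : A.IsHermitian
  mp : ∀ i, MeasurePreserving (τ i) P P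
  ind : ∀ i j, i ≠ j → IndepFun (τ i) (τ j) P
  vb : ∀ ω x, |v ω x| ≤ bd
  eq : ∀ ω, (A + (lam : ℂ) • (diagonal fun x => (v ω x : ℂ)) - z • 1 -
    ((t ^ 2 : ℝ) : ℂ) • ∑ i, G (τ i ω)) * G ω = 1
  pos : ∀ ω, (Imm (G ω)).PosDef
  cont : Continuous G
  cpt : ∃ C : Set Ω, IsCompact C ∧ ∀ ω, ∃ ω' ∈ C, G ω' = G ω

variable {K : ℕ} {t : ℝ} {z : ℂ} {lam bd : ℝ} {P : Measure Ω} [IsProbabilityMeasure P]
  {A : Matrix S S ℂ} {τ : Fin K → Ω → Ω} {v : Ω → S → ℝ} {G : Ω → Matrix S S ℂ}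

/-- **the bound** -/
theorem Rm.main (h : Rm K t z lam bd P A τ v G) (α1 α2 δ M : ℝ)
    (h1 : (A - (α1 : ℂ) • 1).PosSemidef) (h2 : ((α2 : ℂ) • 1 - A).PosSemidef)
    (hδ : 0 < δ) (hM : 0 ≤ M)
    (hE : ∀ a : ℝ, α1 ≤ a → a ≤ α2 → ((z.re - a) / (Real.sqrt K * t) / 2) ^ 2 ≤ 1 - δ ∧
      ‖(z - a) / ((Real.sqrt K * t : ℝ) : ℂ)‖ ≤ M)
    (c β : ℝ) (hc : c = Real.sqrt δ / (1 + M)) (hβ : β = c / (Real.sqrt K * t)) (hbd : 0 < bd)
    (hl1 : lam * bd / (Real.sqrt K * t) ≤ 1)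
    (hl2 : 2 * ((6 / c ^ 2 + 12) * ((26 + 36 * c⁻¹ ^ 4) * (lam * bd / (Real.sqrt K * t)))) ≤
      1 / 2) :
    ∫ ω, hs (Imm (G ω))⁻¹ ∂P ≤ 64 * β⁻¹ ^ 2 * Fintype.card S := by
  obtain ⟨U, a, hU, hU', hd⟩ := diag_ex A h.herm
  have hK0 : (0 : ℝ) < K := by
    have := h.K2
    exact_mod_cast (by omega : 0 < K)
  have htp := h.tpos
  obtain ⟨κ, hκ⟩ : ∃ κ, κ = Real.sqrt K * t := ⟨_, rfl⟩
  have hκp : 0 < κ := by rw [hκ]; positivity
  have hκ2 : κ ^ 2 = K * t ^ 2 := by rw [hκ, mul_pow, Real.sq_sqrt hK0.le]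
  have hc0 : 0 < c := by rw [hc]; positivity
  rw [← hκ] at hE hβ hl1 hl2
  have hβ0 : 0 < β := by rw [hβ]; positivity
  have hκc : (κ : ℂ) ≠ 0 := by exact_mod_cast hκp.ne'
  -- the scalars
  have hroot : ∀ j, ∃ u : ℂ, u * u + ((z - a j) / (κ : ℂ)) * u + 1 = 0 ∧ ‖u‖ < 1 := by
    intro j
    apply root_ex
    rw [Complex.div_ofReal_im]
    have := h.zpos
    simp only [Complex.sub_im, Complex.ofReal_im, sub_zero]
    positivity
  choose u hu hu1 using hroot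
  have hζ : ∀ j, 0 < ((z - a j) / (κ : ℂ)).im := by
    intro j
    rw [Complex.div_ofReal_im]
    have := h.zpos
    simp only [Complex.sub_im, Complex.ofReal_im, sub_zero]
    positivity
  have hui : ∀ j, c ≤ (u j).im := by
    intro j
    obtain ⟨e1, e2⟩ := hE (a j) (eig_low A U a hU hd α1 h1 j) (eig_high A U a hU hd α2 h2 j)
    rw [hc]
    refine root_im_low (hζ j) (hu j) (hu1 j) e2 hδ.le ?_
    rw [Complex.div_ofReal_re]
    simpa using e1
  obtain ⟨γ, hγ⟩ : ∃ γ : S → ℂ, γ = fun j => u j / (κ : ℂ) := ⟨_, rfl⟩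
  have huγ : ∀ j, (κ : ℂ) * γ j = u j := by
    intro j
    rw [hγ]
    field_simp
  have hγi : ∀ j, β ≤ (γ j).im := by
    intro j
    rw [hγ, hβ, Complex.div_ofReal_im]
    have := hui j
    gcongr
  have hSc : Sc K t z a γ := by
    refine ⟨by have := h.K2; omega, h.tpos, h.zpos, fun j => ?_,
      fun j => hβ0.trans_le (hγi j), fun j => ?_⟩
    · have e1 := hu j
      rw [← huγ j] at e1
      have e2 : (K : ℂ) * (t : ℂ) ^ 2 = (κ : ℂ) ^ 2 := by
        rw [← Complex.ofReal_pow κ 2, hκ2]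
        push_cast
        ring
      rw [e2]
      have e3 : (z - a j) / (κ : ℂ) * ((κ : ℂ) * γ j) = (z - a j) * γ j := by field_simp
      rw [e3] at e1
      linear_combination -e1
    · rw [← hκ]
      have e1 : κ * ‖γ j‖ = ‖u j‖ := by
        rw [← huγ j, norm_mul, Complex.norm_real, Real.norm_of_nonneg hκp.le]
      rw [e1]
      exact (hu1 j).le
  -- the rotated matrices
  obtain ⟨F, hF⟩ : ∃ F : Ω → Matrix S S ℂ, F = fun ω => nf γ (Uᴴ * G ω * U) := ⟨_, rfl⟩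
  obtain ⟨v', hv'⟩ : ∃ v' : Ω → S → ℝ, v' = fun ω x => v ω x / (κ * bd) := ⟨_, rfl⟩
  obtain ⟨W, hW⟩ : ∃ W : Ω → Matrix S S ℂ, W = fun ω =>
    Uᴴ * (diagonal fun x => (v' ω x : ℂ)) * U := ⟨_, rfl⟩
  obtain ⟨μ, hμ⟩ : ∃ μ, μ = lam * bd / κ := ⟨_, rfl⟩
  have hμ0 : 0 < μ := by
    rw [hμ]
    have := h.lpos
    positivity
  have hvv : ∀ ω, ((K * t ^ 2 * μ : ℝ) : ℂ) • (diagonal fun x => (v' ω x : ℂ) : Matrix S S ℂ) =
      (lam : ℂ) • (diagonal fun x => (v ω x : ℂ)) := by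
    intro ω
    rw [← diagonal_smul, ← diagonal_smul]
    congr 1
    funext x
    rw [Pi.smul_apply, Pi.smul_apply, smul_eq_mul, smul_eq_mul, ← Complex.ofReal_mul,
      ← Complex.ofReal_mul]
    congr 1
    rw [← hκ2, hμ, hv']
    field_simp
  rw [← hμ] at hl1 hl2
  have hWh : ∀ ω, (W ω)ᴴ = W ω := by
    intro ω
    rw [hW]
    simp only [conjTranspose_mul, conjTranspose_conjTranspose, diagonal_conjTranspose]
    have : (star fun x => (v' ω x : ℂ)) = fun x => (v' ω x : ℂ) := by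
      funext x
      rw [Pi.star_apply, RCLike.star_def, Complex.conj_ofReal]
    rw [this, Matrix.mul_assoc]
  have hGU : ∀ ω, (Imm (Uᴴ * G ω * U)).PosDef := by
    intro ω
    rw [imm_unit]
    exact posdef_unit U _ hU hU' (h.pos ω)
  have hFp : ∀ ω, (Imm (F ω)).PosDef := by
    intro ω
    rw [hF]
    exact imm_nf_pos γ hSc.im _ (hGU ω)
  have hrec : ∀ ω, ((diagonal fun j => (a j : ℂ) - z) + ((K * t ^ 2 * μ : ℝ) : ℂ) • W ω -
      ((t ^ 2 : ℝ) : ℂ) • ∑ i, Uᴴ * G (τ i ω) * U) * (Uᴴ * G ω * U) = 1 := by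
    intro ω
    have e1 : (diagonal fun j => (a j : ℂ) - z) = Uᴴ * (A - z • 1) * U := by
      rw [Matrix.mul_sub, Matrix.sub_mul, hd, Matrix.mul_smul, Matrix.smul_mul, Matrix.mul_one, hU,
        ← diagonal_one, ← diagonal_smul, diagonal_sub]
      congr 1
      funext j
      simp
    have e2 : ((diagonal fun j => (a j : ℂ) - z) + ((K * t ^ 2 * μ : ℝ) : ℂ) • W ω -
      ((t ^ 2 : ℝ) : ℂ) • ∑ i, Uᴴ * G (τ i ω) * U) = Uᴴ * (A + (lam : ℂ) •
        (diagonal fun x => (v ω x : ℂ)) - z • 1 - ((t ^ 2 : ℝ) : ℂ) • ∑ i, G (τ i ω)) * U := by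
      rw [← hvv ω, e1, hW, ← Matrix.sum_mul, ← Matrix.mul_sum]
      simp only [Matrix.mul_sub, Matrix.sub_mul, Matrix.mul_add, Matrix.add_mul, Matrix.mul_smul,
        Matrix.smul_mul]
      abel
    rw [e2]
    calc Uᴴ * (A + (lam : ℂ) • (diagonal fun x => (v ω x : ℂ)) - z • 1 -
        ((t ^ 2 : ℝ) : ℂ) • ∑ i, G (τ i ω)) * U * (Uᴴ * G ω * U) =
        Uᴴ * (A + (lam : ℂ) • (diagonal fun x => (v ω x : ℂ)) - z • 1 -
        ((t ^ 2 : ℝ) : ℂ) • ∑ i, G (τ i ω)) * (U * Uᴴ) * G ω * U := by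
          simp only [Matrix.mul_assoc]
      _ = Uᴴ * ((A + (lam : ℂ) • (diagonal fun x => (v ω x : ℂ)) - z • 1 -
        ((t ^ 2 : ℝ) : ℂ) • ∑ i, G (τ i ω)) * G ω) * U := by
          rw [hU', Matrix.mul_one]
          simp only [Matrix.mul_assoc]
      _ = 1 := by rw [h.eq, Matrix.mul_one, hU]
  have hFc : Continuous F := by
    rw [hF]
    unfold nf
    exact (continuous_const.matrix_mul (((continuous_const.matrix_mul h.cont).matrix_mul
      continuous_const).sub continuous_const)).matrix_mul continuous_const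
  have hDpc := cont_dp hFc hFp
  -- the bound of the perturbation
  have hP : ∀ ω, hs (Imm (G ω))⁻¹ ≤ β⁻¹ ^ 2 * hs (Imm (F ω))⁻¹ := by
    intro ω
    have e1 : (Imm (F ω))⁻¹ = Rr γ * (Imm (Uᴴ * G ω * U))⁻¹ * Rr γ := by
      rw [hF]
      exact imm_nf_inv γ hSc.im _ (hGU ω)
    have e2 : (Imm (Uᴴ * G ω * U))⁻¹ = Dd γ * (Imm (F ω))⁻¹ * Dd γ := by
      rw [e1]
      calc (Imm (Uᴴ * G ω * U))⁻¹ = 1 * (Imm (Uᴴ * G ω * U))⁻¹ * 1 := by
            rw [Matrix.mul_one, Matrix.one_mul]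
        _ = (Dd γ * Rr γ) * (Imm (Uᴴ * G ω * U))⁻¹ * (Rr γ * Dd γ) := by
            rw [dr γ hSc.im, rd γ hSc.im]
        _ = _ := by simp only [Matrix.mul_assoc]
    have e3 : hs (Imm (Uᴴ * G ω * U))⁻¹ = hs (Imm (G ω))⁻¹ := by
      rw [imm_unit, unit_inv U _ hU hU' (h.pos ω), hs_unit U _ hU hU']
    rw [← e3, e2]
    refine hs_scale _ _ (fun j => (Real.sqrt (γ j).im)⁻¹) rfl _ fun j => ?_
    rw [inv_pow, Real.sq_sqrt (hSc.im j).le]
    exact inv_anti₀ hβ0 (hγi j)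
  have hV : ∀ ω i, hs (Ee (Dd γ * W ω * Dd γ) (F (τ i ω))) ≤
      c⁻¹ ^ 4 * hs (Imm (F (τ i ω)))⁻¹ := by
    intro ω i
    have e1 : (Imm (F (τ i ω)))⁻¹ = Rr γ * (Uᴴ * (Imm (G (τ i ω)))⁻¹ * U) * Rr γ := by
      rw [← unit_inv U _ hU hU' (h.pos _), ← imm_unit, hF]
      exact imm_nf_inv γ hSc.im _ (hGU _)
    obtain ⟨p, hp⟩ : ∃ p, p = (Imm (G (τ i ω)))⁻¹ := ⟨_, rfl⟩
    obtain ⟨w, hw⟩ : ∃ w : Matrix S S ℂ, w = diagonal fun x => (v' ω x : ℂ) := ⟨_, rfl⟩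
    have e2 : Ee (Dd γ * W ω * Dd γ) (F (τ i ω)) = Dd γ * (Uᴴ * (w * p * w) * U) * Dd γ := by
      unfold Ee
      rw [e1, ← hp, hW]
      simp only
      rw [← hw]
      calc Dd γ * (Uᴴ * w * U) * Dd γ * (Rr γ * (Uᴴ * p * U) * Rr γ) *
          (Dd γ * (Uᴴ * w * U) * Dd γ) = Dd γ * Uᴴ * w * U * (Dd γ * Rr γ) * Uᴴ * p * U *
            (Rr γ * Dd γ) * Uᴴ * w * U * Dd γ := by simp only [Matrix.mul_assoc]
        _ = Dd γ * Uᴴ * w * (U * Uᴴ) * p * (U * Uᴴ) * w * U * Dd γ := by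
            rw [dr γ hSc.im, rd γ hSc.im, Matrix.mul_one, Matrix.mul_one]
            simp only [Matrix.mul_assoc]
        _ = _ := by
            rw [hU', Matrix.mul_one, Matrix.mul_one]
            simp only [Matrix.mul_assoc]
    rw [e2]
    have e3 : hs (Dd γ * (Uᴴ * (w * p * w) * U) * Dd γ) ≤ β⁻¹ ^ 2 * hs (Uᴴ * (w * p * w) * U) := by
      refine hs_scale _ _ (fun j => (Real.sqrt (γ j).im)⁻¹) rfl _ fun j => ?_
      rw [inv_pow, Real.sq_sqrt (hSc.im j).le]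
      exact inv_anti₀ hβ0 (hγi j)
    rw [hs_unit U _ hU hU'] at e3
    have e4 : hs (w * p * w) ≤ (κ⁻¹ ^ 2) ^ 2 * hs p := by
      refine hs_scale _ _ (v' ω) hw _ fun j => ?_
      rw [← sq_abs, hv']
      have := h.vb ω j
      have e6 : |v ω j / (κ * bd)| ≤ κ⁻¹ := by
        rw [abs_div, abs_of_pos (by positivity : 0 < κ * bd), div_le_iff₀ (by positivity)]
        calc |v ω j| ≤ bd := this
          _ = κ⁻¹ * (κ * bd) := by field_simp
      gcongr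
    have e5 := hP (τ i ω)
    rw [← hp] at e5
    calc hs (Dd γ * (Uᴴ * (w * p * w) * U) * Dd γ) ≤ β⁻¹ ^ 2 * hs (w * p * w) := e3
      _ ≤ β⁻¹ ^ 2 * ((κ⁻¹ ^ 2) ^ 2 * (β⁻¹ ^ 2 * hs (Imm (F (τ i ω)))⁻¹)) := by
          gcongr
          exact e4.trans (by gcongr)
      _ = _ := by
          rw [hβ]
          field_simp
  -- boundedness
  obtain ⟨C, hC, hCr⟩ := h.cpt
  obtain ⟨M1, hM1⟩ := hC.exists_bound_of_continuousOn (cont_hs hDpc).continuousOn
  have hbdd : ∀ ω, hs (Dp (F ω)) ≤ M1 := by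
    intro ω
    obtain ⟨ω', e1, e2⟩ := hCr ω
    have e3 : F ω = F ω' := by
      rw [hF]
      simp only [e2]
    have e4 := hM1 ω' e1
    rw [e3]
    exact (le_abs_self _).trans e4
  have hD : Dat P K (t ^ 2) z.im μ (c⁻¹ ^ 4) c M1 (fun j => (γ j).im) γ
      (fun j => ((Real.sqrt K * t : ℝ) : ℂ) * γ j) τ F (fun ω => Dd γ * W ω * Dd γ)
      (fun ω => Dd γ * (Uᴴ * G ω * U) * Rr γ) := by
    refine ⟨h.K2, hμ0, hl1, by positivity, hc0, ?_, h.mp, h.ind, ?_, ?_, hFp, hV, ?_, ?_, ?_,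
      hbdd⟩
    · intro j k
      rw [← hκ, huγ, huγ]
      refine gap_low (root_ne (hu j)) (hu1 j).le (hc0.trans_le (hui k)) hc0.le (hui j)
    · intro ω
      rw [hF]
      exact hSc.stp (fun i => Uᴴ * G (τ i ω) * U) (Uᴴ * G ω * U) (W ω) μ (hWh ω)
        (fun i => hGU _) (hrec ω)
    · intro ω
      rw [conjTranspose_mul, conjTranspose_mul, dd_conj, hWh, Matrix.mul_assoc]
    · intro j k
      exact (hDpc.matrix_elem j k).measurable
    · intro j k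
      exact ((cont_dm hFc hFp).matrix_elem j k).measurable
    · intro j k
      exact ((cont_xx hFc hFp).matrix_elem j k).measurable
  have hmain := hD.main hl2
  have hi1 : Integrable (fun ω => hs (Dp (F ω))) P := int_hs (P := P) hD.meas1 hD.bdd
  have hi2 : Integrable (fun ω => hs (Imm (G ω))⁻¹) P := by
    have e1 := cont_hs (cont_inv (cont_imm h.cont) h.pos)
    obtain ⟨M2, hM2⟩ := hC.exists_bound_of_continuousOn e1.continuousOn
    refine bintr e1.measurable (M := M2) fun ω => ?_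
    obtain ⟨ω', e2, e3⟩ := hCr ω
    have e4 := hM2 ω' e2
    rw [← e3]
    exact e4
  calc ∫ ω, hs (Imm (G ω))⁻¹ ∂P ≤ ∫ ω, β⁻¹ ^ 2 * hs (Dp (F ω)) ∂P := by
        refine integral_mono hi2 (hi1.const_mul _) fun ω => ?_
        exact (hP ω).trans (mul_le_mul_of_nonneg_left (inv_le_dp _ (hFp ω)) (by positivity))
    _ = β⁻¹ ^ 2 * ∫ ω, hs (Dp (F ω)) ∂P := integral_const_mul _ _
    _ ≤ β⁻¹ ^ 2 * (64 * Fintype.card S) := by gcongr
    _ = _ := by ring

end main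

end Pool.Agent.Helper32.BS
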