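import Pool.Agent.Helper32.BS.Op
import Pool.Agent.Helper32.BS.Rm

/-! The Green matrices. -/

set_option autoImplicit false
set_option linter.unusedSectionVars false
set_option linter.unusedSimpArgs false

open scoped BigOperators InnerProductSpace Topology Matrix ComplexOrder MatrixOrder
open Filter Matrix

namespace Pool.Agent.Helper32.BS

open Pool.Agent.TH369.AN (Rz rz_eq rz_uniq rz_norm)
open Pool.Agent.Y662.TR (LL lmk lmk_apply ll_inner ll_ext ll_summable ll_coord ll_sum dv dv_apply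
  dv_self dv_ne inner_dv norm_dv ev ev_apply add_coord sub_coord neg_coord smul_coord Cf Cf_apply
  Cf_norm Cf_dv Cf_dv_ne Cf_adj Cf_adj_ne Cf_adj_norm clp clp_abs clp_eq clp_cont Mw Mw_apply
  Mw_norm Mw_sa Mw_tendsto)

section fin

variable {S : Type} [Fintype S] [DecidableEq S]

theorem imm_herm (F : Matrix S S ℂ) : (Imm F).IsHermitian := by
  unfold Matrix.IsHermitian Imm
  rw [conjTranspose_smul, conjTranspose_sub, conjTranspose_conjTranspose, RCLike.star_def]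
  have : (starRingEnd ℂ) (-Complex.I / 2) = -(-Complex.I / 2) := by
    rw [map_div₀, map_neg, Complex.conj_I, Complex.conj_ofNat]
    ring
  rw [this, neg_smul, ← smul_neg, neg_sub]

theorem quad_imm (F : Matrix S S ℂ) (ψ : S → ℂ) :
    star ψ ⬝ᵥ (Imm F *ᵥ ψ) = (((star ψ ⬝ᵥ (F *ᵥ ψ)).im : ℝ) : ℂ) := by
  have h1 : star ψ ⬝ᵥ (Fᴴ *ᵥ ψ) = (starRingEnd ℂ) (star ψ ⬝ᵥ (F *ᵥ ψ)) := by
    rw [star_dotProduct, star_mulVec, conjTranspose_conjTranspose, ← dotProduct_mulVec,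
      starRingEnd_apply]
  unfold Imm
  rw [smul_mulVec, dotProduct_smul, sub_mulVec, dotProduct_sub, h1, smul_eq_mul]
  obtain ⟨q, hq⟩ : ∃ q, q = star ψ ⬝ᵥ (F *ᵥ ψ) := ⟨_, rfl⟩
  rw [← hq]
  apply Complex.ext
  · simp
    ring
  · simp

/-- Cauchy–Schwarz for a positive matrix -/
theorem pos_cs (Q : Matrix S S ℂ) (hQ : Q.PosDef) (ψ : S → ℂ) (x : S) :
    ‖ψ x‖ ^ 2 ≤ (star ψ ⬝ᵥ (Q *ᵥ ψ)).re * ((Q⁻¹) x x).re := by
  obtain ⟨B, hB⟩ := gram _ hQ.inv.posSemidef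
  have hPQ : Q⁻¹ * Q = 1 := nonsing_inv_mul _ ((isUnit_iff_isUnit_det _).1 hQ.isUnit)
  have hQP : Q * Q⁻¹ = 1 := mul_nonsing_inv _ ((isUnit_iff_isUnit_det _).1 hQ.isUnit)
  obtain ⟨w, hw⟩ : ∃ w, w = B *ᵥ (Q *ᵥ ψ) := ⟨_, rfl⟩
  have h1 : ψ x = ∑ k, (starRingEnd ℂ) (B k x) * w k := by
    have e1 : ψ = Q⁻¹ *ᵥ (Q *ᵥ ψ) := by rw [mulVec_mulVec, hPQ, one_mulVec]
    conv_lhs => rw [e1, hB, ← mulVec_mulVec, ← hw]
    rfl
  have h2 : ∑ k, ‖B k x‖ ^ 2 = ((Q⁻¹) x x).re := by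
    rw [hB, mul_apply, Complex.re_sum]
    refine Finset.sum_congr rfl fun k _ => ?_
    rw [conjTranspose_apply, ← Complex.normSq_eq_norm_sq, RCLike.star_def,
      ← Complex.normSq_eq_conj_mul_self, Complex.ofReal_re]
  have h3 : ∑ k, ‖w k‖ ^ 2 = (star ψ ⬝ᵥ (Q *ᵥ ψ)).re := by
    have e1 : star ψ ⬝ᵥ (Q *ᵥ ψ) = star w ⬝ᵥ w := by
      have e2 : star w = star (Q *ᵥ ψ) ᵥ* Bᴴ := by rw [hw, star_mulVec]
      rw [e2, ← dotProduct_mulVec]
      have e3 : Bᴴ *ᵥ w = ψ := by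
        rw [hw, mulVec_mulVec, ← hB, mulVec_mulVec, hPQ, one_mulVec]
      rw [e3, star_mulVec, hQ.isHermitian.eq, ← dotProduct_mulVec]
    rw [e1]
    simp only [dotProduct, Pi.star_apply, Complex.re_sum]
    refine Finset.sum_congr rfl fun k _ => ?_
    rw [← Complex.normSq_eq_norm_sq, RCLike.star_def, ← Complex.normSq_eq_conj_mul_self,
      Complex.ofReal_re]
  rw [h1, ← h2, ← h3]
  have h4 : ‖∑ k, (starRingEnd ℂ) (B k x) * w k‖ ≤ ∑ k, ‖B k x‖ * ‖w k‖ := by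
    refine (norm_sum_le _ _).trans (le_of_eq ?_)
    refine Finset.sum_congr rfl fun k _ => ?_
    rw [norm_mul, Complex.norm_conj]
  calc ‖∑ k, (starRingEnd ℂ) (B k x) * w k‖ ^ 2 ≤ (∑ k, ‖B k x‖ * ‖w k‖) ^ 2 := by gcongr
    _ ≤ (∑ k, ‖B k x‖ ^ 2) * ∑ k, ‖w k‖ ^ 2 := Finset.sum_mul_sq_le_sq_mul_sq _ _ _
    _ = _ := mul_comm _ _

end fin

section green

variable {K : ℕ} {S : Type} [Fintype S] [DecidableEq S]

/-- a vector on the root level -/
noncomputable def io (K : ℕ) (ψ : S → ℂ) : LL (List (Fin K) × S) :=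
  ∑ x, ψ x • dv (([], x) : List (Fin K) × S)

theorem io_apply (ψ : S → ℂ) (v : List (Fin K) × S) :
    io K ψ v = if v.1 = [] then ψ v.2 else 0 := by
  unfold io
  rw [← ev_apply v, map_sum]
  simp only [map_smul, ev_apply, smul_eq_mul]
  obtain ⟨l, x⟩ := v
  by_cases hl : l = []
  · subst hl
    rw [if_pos rfl, Finset.sum_eq_single x]
    · rw [dv_self, mul_one]
    · intro y _ hy
      rw [dv_ne, mul_zero]
      intro h
      simp only [Prod.mk.injEq, true_and] at h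
      exact hy h.symm
    · intro h
      exact absurd (Finset.mem_univ _) h
  · rw [if_neg hl]
    refine Finset.sum_eq_zero fun y _ => ?_
    rw [dv_ne, mul_zero]
    intro h
    simp only [Prod.mk.injEq] at h
    exact hl h.1

/-- the Green matrix of the root level -/
noncomputable def Gm (T : LL (List (Fin K) × S) →L[ℂ] LL (List (Fin K) × S)) (z : ℂ) :
    Matrix S S ℂ := fun x y => Rz T z (dv ([], y)) ([], x)

variable (T : LL (List (Fin K) × S) →L[ℂ] LL (List (Fin K) × S)) (z : ℂ)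

theorem gm_mulVec (ψ : S → ℂ) (x : S) : (Gm T z *ᵥ ψ) x = Rz T z (io K ψ) ([], x) := by
  unfold io
  rw [map_sum, ← ev_apply, map_sum]
  simp only [map_smul, ev_apply, smul_eq_mul]
  unfold Gm mulVec dotProduct
  refine Finset.sum_congr rfl fun y _ => ?_
  rw [mul_comm]

theorem io_inner (ψ : S → ℂ) (u : LL (List (Fin K) × S)) :
    ⟪io K ψ, u⟫_ℂ = ∑ x, (starRingEnd ℂ) (ψ x) * u ([], x) := by
  unfold io
  rw [sum_inner]
  refine Finset.sum_congr rfl fun x _ => ?_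
  rw [inner_smul_left, inner_dv]

theorem gm_quad (ψ : S → ℂ) : star ψ ⬝ᵥ (Gm T z *ᵥ ψ) = ⟪io K ψ, Rz T z (io K ψ)⟫_ℂ := by
  rw [io_inner]
  unfold dotProduct
  refine Finset.sum_congr rfl fun x _ => ?_
  rw [gm_mulVec]
  rfl

variable (hT : IsSelfAdjoint T) (hz : 0 < z.im)

include hT hz

theorem gm_quad_im (ψ : S → ℂ) :
    star ψ ⬝ᵥ (Imm (Gm T z) *ᵥ ψ) = ((z.im * ‖Rz T z (io K ψ)‖ ^ 2 : ℝ) : ℂ) := by
  rw [quad_imm, gm_quad]
  congr 1
  exact Pool.Agent.H12R2.And.im_inner hT hz.ne' _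

theorem gm_pos : (Imm (Gm T z)).PosDef := by
  refine Matrix.PosDef.of_dotProduct_mulVec_pos (imm_herm _) fun ψ hψ => ?_
  rw [gm_quad_im T z hT hz]
  have h1 : Rz T z (io K ψ) ≠ 0 := by
    intro h
    have h2 := rz_eq T hT z hz.ne' (io K ψ)
    rw [h, map_zero, smul_zero, sub_zero] at h2
    apply hψ
    funext x
    have h3 := io_apply (K := K) ψ ([], x)
    rw [if_pos rfl] at h3
    rw [← h3, ← h2]
    rfl
  have h2 : 0 < z.im * ‖Rz T z (io K ψ)‖ ^ 2 := by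
    have := norm_pos_iff.2 h1
    positivity
  exact_mod_cast h2

end green

section child

variable {K : ℕ} {S X : Type}

/-- `f` is the inclusion of the subtree below `p` -/
def Sub (Ts : LL (List (Fin K) × S) →L[ℂ] LL (List (Fin K) × S))
    (T : LL (X × S) →L[ℂ] LL (X × S)) (t : ℝ) (f : List (Fin K) → X)
    (hf : Function.Injective f) (p : X) : Prop :=
  ∀ (u : LL (X × S)) (v : List (Fin K) × S), Ts (Cf (tm f) (tm_inj hf) u) v =
    T u (tm f v) + (t : ℂ) * (if v.1 = [] then u (p, v.2) else 0)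

variable [Fintype S] [DecidableEq S] {Ts : LL (List (Fin K) × S) →L[ℂ] LL (List (Fin K) × S)}
  {T : LL (X × S) →L[ℂ] LL (X × S)} {t : ℝ} {f : List (Fin K) → X} {hf : Function.Injective f}
  {p : X} (h : Sub Ts T t f hf p) (hTs : IsSelfAdjoint Ts) (hT : IsSelfAdjoint T) (z : ℂ)

include h hTs hT

/-- the resolvent in a subtree -/
theorem sub_res (hz : z.im ≠ 0) (φ : LL (X × S)) : Cf (tm f) (tm_inj hf) (Rz T z φ) =
    Rz Ts z (Cf (tm f) (tm_inj hf) φ + (t : ℂ) • io K fun x => Rz T z φ (p, x)) := by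
  apply rz_uniq Ts hTs z hz
  apply ll_ext
  intro v
  rw [sub_coord, smul_coord, h, add_coord, smul_coord, io_apply, Cf_apply, Cf_apply]
  have h1 := rz_eq T hT z hz φ
  have h2 : T (Rz T z φ) (tm f v) - z * Rz T z φ (tm f v) = φ (tm f v) := by
    conv_rhs => rw [← h1, sub_coord, smul_coord]
  rw [← h2]
  ring

theorem sub_res_out (hz : z.im ≠ 0) (v0 : X × S) (hv : ∀ v, tm f v ≠ v0) :
    Cf (tm f) (tm_inj hf) (Rz T z (dv v0)) =
      (t : ℂ) • Rz Ts z (io K fun x => Rz T z (dv v0) (p, x)) := by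
  rw [sub_res h hTs hT z hz, Cf_dv_ne _ _ v0 hv, zero_add, map_smul]

/-- **the lower bound of the imaginary part of the Green function** -/
theorem key (hz : 0 < z.im) (v0 : X × S) (hv : ∀ v, tm f v ≠ v0) (x : S) :
    t ^ 2 * ‖Rz T z (dv v0) (p, x)‖ ^ 2 ≤
      (Rz T z (dv v0) v0).im * ((Imm (Gm Ts z))⁻¹ x x).re := by
  obtain ⟨u, hu⟩ : ∃ u, u = Rz T z (dv v0) := ⟨_, rfl⟩
  obtain ⟨ψ, hψ⟩ : ∃ ψ : S → ℂ, ψ = fun x => u (p, x) := ⟨_, rfl⟩
  have h1 := sub_res_out h hTs hT z hz.ne' v0 hv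
  rw [← hu, ← hψ] at h1
  have h2 : (u v0).im = z.im * ‖u‖ ^ 2 := by
    have : (inner ℂ (dv v0) (Rz T z (dv v0))).im = z.im * ‖Rz T z (dv v0)‖ ^ 2 :=
      Pool.Agent.H12R2.And.im_inner hT hz.ne' (dv v0)
    rw [inner_dv, ← hu] at this
    exact this
  have h3 : t ^ 2 * ‖Rz Ts z (io K ψ)‖ ^ 2 ≤ ‖u‖ ^ 2 := by
    have e1 : ‖Cf (tm f) (tm_inj hf) u‖ ≤ ‖u‖ := by
      have := (Cf (tm (S := S) f) (tm_inj hf)).le_opNorm u
      have e2 := Cf_norm (tm (S := S) f) (tm_inj hf)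
      refine this.trans ?_
      have := norm_nonneg u
      nlinarith
    rw [h1, norm_smul, Complex.norm_real] at e1
    have e3 : (‖t‖ * ‖Rz Ts z (io K ψ)‖) ^ 2 ≤ ‖u‖ ^ 2 := by gcongr
    rw [mul_pow, Real.norm_eq_abs, sq_abs] at e3
    exact e3
  have h4 := gm_quad_im Ts z hTs hz ψ
  have h5 := pos_cs _ (gm_pos Ts z hTs hz) ψ x
  rw [h4, Complex.ofReal_re] at h5
  rw [← hu, h2]
  have h6 : 0 ≤ ((Imm (Gm Ts z))⁻¹ x x).re := by
    have := (gm_pos Ts z hTs hz).inv.posSemidef.diag_nonneg (i := x)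
    exact (Complex.le_def.1 this).1
  have h7 : ψ x = u (p, x) := by rw [hψ]
  rw [← h7]
  calc t ^ 2 * ‖ψ x‖ ^ 2 ≤ t ^ 2 * (z.im * ‖Rz Ts z (io K ψ)‖ ^ 2 * ((Imm (Gm Ts z))⁻¹ x x).re) := by
        gcongr
    _ = z.im * (t ^ 2 * ‖Rz Ts z (io K ψ)‖ ^ 2) * ((Imm (Gm Ts z))⁻¹ x x).re := by ring
    _ ≤ z.im * ‖u‖ ^ 2 * ((Imm (Gm Ts z))⁻¹ x x).re := by gcongr

end child

section rec

variable {K d : ℕ} {S : Type} [AddGroup S] [Fintype S] [DecidableEq S]

/-- the matrix of the hopping in the group -/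
noncomputable def Am {d : ℕ} {S : Type} [AddGroup S] [Fintype S] [DecidableEq S] (e : Fin d → S)
    (a : ℝ) : Matrix S S ℂ := fun x y => (if x = y then (a : ℂ) else 0) -
  ∑ i : Fin d, ((if x + e i = y then (1 : ℂ) else 0) + (if x - e i = y then 1 else 0))

theorem am_apply (e : Fin d → S) (a : ℝ) (M : Matrix S S ℂ) (x y : S) :
    (Am e a * M) x y = a * M x y - ∑ i : Fin d, (M (x + e i) y + M (x - e i) y) := by
  rw [mul_apply]
  unfold Am
  simp only [sub_mul, Finset.sum_sub_distrib, Finset.sum_mul, ite_mul, zero_mul,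
    Finset.sum_ite_eq, Finset.mem_univ, if_true, add_mul, one_mul]
  congr 1
  rw [Finset.sum_comm]
  refine Finset.sum_congr rfl fun i _ => ?_
  rw [Finset.sum_add_distrib]
  simp only [Finset.sum_ite_eq, Finset.mem_univ, if_true]

/-- the environment of a child of the root -/
def tau (K : ℕ) (S : Type) (j : Fin K) (ω : List (Fin K) × S → ℝ) : List (Fin K) × S → ℝ :=
  fun v => ω (tm (fun l => l ++ [j]) v)

/-- the potential -/
noncomputable def pw {V : Type} (lam b : ℝ) (ω : V → ℝ) : V → ℝ := fun v => lam * clp b (ω v)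

theorem clp_pw {V : Type} (lam b : ℝ) (ω : V → ℝ) (v : V) :
    clp (lam * b) (pw lam b ω v) = lam * clp b (ω v) := by
  apply clp_eq
  unfold pw
  rw [abs_mul, abs_mul]
  have := clp_abs b (ω v)
  gcongr

/-- the Green matrix -/
noncomputable def Gh (K : ℕ) {d : ℕ} {S : Type} [AddGroup S] [Fintype S] [DecidableEq S]
    (e : Fin d → S) (a t lam b : ℝ) (z : ℂ) (ω : List (Fin K) × S → ℝ) : Matrix S S ℂ :=
  Gm (Th K e a t (lam * b) (pw lam b ω)) z

theorem sub_half' (e : Fin d → S) (a t lam b : ℝ) (ω : List (Fin K) × S → ℝ) (j : Fin K) :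
    Sub (Th K e a t (lam * b) (pw lam b (tau K S j ω))) (Th K e a t (lam * b) (pw lam b ω)) t
      (fun l => l ++ [j]) (List.append_left_injective _) [] := by
  intro u v
  exact sub_half e a t (lam * b) (pw lam b ω) j [] u v

/-- **the recursion** -/
theorem gh_rec (e : Fin d → S) (a t lam b : ℝ) (z : ℂ) (hz : 0 < z.im)
    (ω : List (Fin K) × S → ℝ) :
    (Am e a + (lam : ℂ) • (diagonal fun x => (clp b (ω ([], x)) : ℂ)) - z • 1 -
      ((t ^ 2 : ℝ) : ℂ) • ∑ j, Gh K e a t lam b z (tau K S j ω)) * Gh K e a t lam b z ω = 1 := by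
  ext x y
  obtain ⟨u, hu⟩ : ∃ u, u = Rz (Th K e a t (lam * b) (pw lam b ω)) z (dv ([], y)) := ⟨_, rfl⟩
  have h0 : ∀ x', Gh K e a t lam b z ω x' y = u ([], x') := fun x' => by rw [hu]; rfl
  have h1 := rz_eq (Th K e a t (lam * b) (pw lam b ω)) (Th_sa _ _ _ _ _) z hz.ne' (dv ([], y))
  rw [← hu] at h1
  have h2 : Th K e a t (lam * b) (pw lam b ω) u ([], x) - z * u ([], x) =
      dv (([], y) : List (Fin K) × S) ([], x) := by
    rw [← h1, sub_coord, smul_coord]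
  rw [Th_apply, clp_pw] at h2
  have h3 : ∀ j : Fin K, u ([j], x) = (t : ℂ) * ∑ x', Gh K e a t lam b z (tau K S j ω) x x' *
      u ([], x') := by
    intro j
    have e1 := sub_res_out (sub_half' e a t lam b ω j) (Th_sa _ _ _ _ _) (Th_sa _ _ _ _ _) z
      hz.ne' ([], y) (by
        rintro ⟨l, x'⟩ h
        unfold tm at h
        simp at h)
    rw [← hu] at e1
    have e2 := congrArg (fun w : LL (List (Fin K) × S) => w ([], x)) e1
    simp only [Cf_apply, smul_coord] at e2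
    have e3 : tm (fun l : List (Fin K) => l ++ [j]) (([], x) : List (Fin K) × S) = ([j], x) := rfl
    rw [e3, ← gm_mulVec] at e2
    exact e2
  simp only [Matrix.sub_mul, Matrix.add_mul, Matrix.sub_apply, Matrix.add_apply, Matrix.smul_mul,
    Matrix.smul_apply, Matrix.one_mul, diagonal_mul, smul_eq_mul, am_apply, h0]
  have h4 : ((∑ j, Gh K e a t lam b z (tau K S j ω)) * Gh K e a t lam b z ω) x y =
      ∑ j, ∑ x', Gh K e a t lam b z (tau K S j ω) x x' * u ([], x') := by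
    rw [Matrix.sum_mul, Matrix.sum_apply]
    refine Finset.sum_congr rfl fun j _ => ?_
    rw [mul_apply]
    refine Finset.sum_congr rfl fun x' _ => ?_
    rw [h0]
  rw [h4]
  have h5 : (1 : Matrix S S ℂ) x y = dv (([], y) : List (Fin K) × S) ([], x) := by
    by_cases hx : x = y
    · subst hx
      rw [dv_self, one_apply_eq]
    · rw [dv_ne, one_apply_ne hx]
      intro h
      simp only [Prod.mk.injEq, true_and] at h
      exact hx h
  rw [h5, ← h2]
  simp only [h3, parh, add_zero, ← Finset.mul_sum]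
  push_cast
  ring

end rec

end Pool.Agent.Helper32.BS
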