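import Mathlib

/-! The squared Hilbert–Schmidt norm of complex matrices. -/

set_option autoImplicit false
set_option linter.unusedSectionVars false

open scoped BigOperators Matrix ComplexOrder MatrixOrder
open Matrix

namespace Pool.Agent.Helper32.BS

variable {m n : Type} [Fintype m] [Fintype n]

/-- the squared Hilbert–Schmidt norm -/
noncomputable def hs (X : Matrix m n ℂ) : ℝ := ∑ i, ∑ j, ‖X i j‖ ^ 2

theorem hs_nonneg (X : Matrix m n ℂ) : 0 ≤ hs X := by unfold hs; positivity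

theorem hs_zero : hs (0 : Matrix m n ℂ) = 0 := by simp [hs]

theorem hs_trace (X : Matrix m n ℂ) : hs X = (trace (Xᴴ * X)).re := by
  unfold hs trace
  simp only [diag_apply, mul_apply, conjTranspose_apply, Complex.re_sum]
  rw [Finset.sum_comm]
  refine Finset.sum_congr rfl fun j _ => Finset.sum_congr rfl fun i _ => ?_
  rw [← Complex.normSq_eq_norm_sq, RCLike.star_def, ← Complex.normSq_eq_conj_mul_self,
    Complex.ofReal_re]

theorem hs_conj (X : Matrix m n ℂ) : hs Xᴴ = hs X := by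
  unfold hs
  rw [Finset.sum_comm]
  simp [conjTranspose_apply]

theorem hs_trace' (X : Matrix m n ℂ) : hs X = (trace (X * Xᴴ)).re := by
  rw [← hs_conj, hs_trace, conjTranspose_conjTranspose]

theorem hs_smul (c : ℂ) (X : Matrix m n ℂ) : hs (c • X) = ‖c‖ ^ 2 * hs X := by
  unfold hs
  rw [Finset.mul_sum]
  refine Finset.sum_congr rfl fun i _ => ?_
  rw [Finset.mul_sum]
  refine Finset.sum_congr rfl fun j _ => ?_
  rw [Matrix.smul_apply, smul_eq_mul, norm_mul, mul_pow]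

theorem hs_neg (X : Matrix m n ℂ) : hs (-X) = hs X := by
  simp [hs]

theorem sq_young {a b θ : ℝ} (hθ : 0 < θ) : (a + b) ^ 2 ≤ (1 + θ) * a ^ 2 + (1 + 1 / θ) * b ^ 2 := by
  have h : 0 ≤ (θ * a - b) ^ 2 / θ := by positivity
  have h2 : (θ * a - b) ^ 2 / θ = θ * a ^ 2 - 2 * a * b + 1 / θ * b ^ 2 := by
    field_simp
    ring
  nlinarith

theorem hs_young (X Y : Matrix m n ℂ) {θ : ℝ} (hθ : 0 < θ) :
    hs (X + Y) ≤ (1 + θ) * hs X + (1 + 1 / θ) * hs Y := by
  unfold hs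
  rw [Finset.mul_sum, Finset.mul_sum, ← Finset.sum_add_distrib]
  refine Finset.sum_le_sum fun i _ => ?_
  rw [Finset.mul_sum, Finset.mul_sum, ← Finset.sum_add_distrib]
  refine Finset.sum_le_sum fun j _ => ?_
  calc ‖(X + Y) i j‖ ^ 2 ≤ (‖X i j‖ + ‖Y i j‖) ^ 2 := by
        gcongr
        exact norm_add_le _ _
    _ ≤ _ := sq_young hθ

theorem hs_add (X Y : Matrix m n ℂ) : hs (X + Y) ≤ 2 * hs X + 2 * hs Y := by
  have := hs_young X Y (θ := 1) one_pos
  norm_num at this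
  exact this

theorem hs_sub (X Y : Matrix m n ℂ) : hs (X - Y) ≤ 2 * hs X + 2 * hs Y := by
  rw [sub_eq_add_neg]
  have := hs_add X (-Y)
  rwa [hs_neg] at this

/-- convexity -/
theorem hs_avg {ι : Type} (s : Finset ι) (X : ι → Matrix m n ℂ) (hs0 : s.Nonempty) :
    hs ((1 / (s.card : ℂ)) • ∑ i ∈ s, X i) ≤ 1 / (s.card : ℝ) * ∑ i ∈ s, hs (X i) := by
  have hc : (0 : ℝ) < s.card := by exact_mod_cast hs0.card_pos
  rw [hs_smul]
  have h1 : hs (∑ i ∈ s, X i) ≤ s.card * ∑ i ∈ s, hs (X i) := by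
    have h0 : ∑ i ∈ s, hs (X i) = ∑ a, ∑ b, ∑ i ∈ s, ‖X i a b‖ ^ 2 := by
      unfold hs
      rw [Finset.sum_comm]
      refine Finset.sum_congr rfl fun a _ => ?_
      rw [Finset.sum_comm]
    rw [h0]
    unfold hs
    rw [Finset.mul_sum]
    refine Finset.sum_le_sum fun a _ => ?_
    rw [Finset.mul_sum]
    refine Finset.sum_le_sum fun b _ => ?_
    rw [Matrix.sum_apply]
    calc ‖∑ i ∈ s, X i a b‖ ^ 2 ≤ (∑ i ∈ s, ‖X i a b‖) ^ 2 := by
          gcongr
          exact norm_sum_le _ _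
      _ ≤ _ := sq_sum_le_card_mul_sum_sq
  have h2 : ‖(1 / (s.card : ℂ))‖ ^ 2 = 1 / (s.card : ℝ) * (1 / (s.card : ℝ)) := by
    rw [norm_div, norm_one, Complex.norm_natCast]
    ring
  rw [h2]
  calc 1 / (s.card : ℝ) * (1 / (s.card : ℝ)) * hs (∑ i ∈ s, X i) ≤
      1 / (s.card : ℝ) * (1 / (s.card : ℝ)) * (s.card * ∑ i ∈ s, hs (X i)) := by gcongr
    _ = _ := by field_simp


section sq

variable {p : Type} [Fintype p]

/-- the real scalar product -/
theorem hs_sub_eq (X Y : Matrix m n ℂ) :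
    hs (X - Y) = hs X + hs Y - 2 * (trace (Xᴴ * Y)).re := by
  rw [hs_trace, hs_trace, hs_trace, conjTranspose_sub, Matrix.sub_mul, Matrix.mul_sub,
    Matrix.mul_sub]
  have h1 : (trace (Yᴴ * X)).re = (trace (Xᴴ * Y)).re := by
    have : Yᴴ * X = (Xᴴ * Y)ᴴ := by rw [conjTranspose_mul, conjTranspose_conjTranspose]
    rw [this, trace_conjTranspose, RCLike.star_def, Complex.conj_re]
  simp only [trace_sub, Complex.sub_re, h1]
  ring

theorem hs_add_eq (X Y : Matrix m n ℂ) :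
    hs (X + Y) = hs X + hs Y + 2 * (trace (Xᴴ * Y)).re := by
  have h := hs_sub_eq X (-Y)
  rw [sub_neg_eq_add, hs_neg, Matrix.mul_neg, trace_neg, Complex.neg_re] at h
  rw [h]
  ring

/-- a Gram factorization -/
theorem gram (P : Matrix n n ℂ) (hP : P.PosSemidef) : ∃ B : Matrix n n ℂ, P = Bᴴ * B := by
  classical
  obtain ⟨B, hB⟩ := CStarAlgebra.nonneg_iff_eq_star_mul_self.mp hP.nonneg
  exact ⟨B, hB⟩

theorem trace_nonneg_mul (P Q : Matrix n n ℂ) (hP : P.PosSemidef) (hQ : Q.PosSemidef) :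
    0 ≤ (trace (P * Q)).re := by
  obtain ⟨B, rfl⟩ := gram P hP
  have h1 : trace (Bᴴ * B * Q) = trace (B * Q * Bᴴ) := by
    rw [Matrix.mul_assoc, trace_mul_comm]
  rw [h1]
  have h2 := (hQ.mul_mul_conjTranspose_same B).trace_nonneg
  exact (Complex.le_def.1 h2).1

/-- the difference of two positive matrices -/
theorem hs_slack (X Y : Matrix n n ℂ) (hX : X.PosSemidef) (hXY : (Y - X).PosSemidef) :
    hs (Y - X) ≤ hs Y - hs X := by
  have h1 := hs_add_eq (Y - X) X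
  rw [sub_add_cancel, hXY.isHermitian.eq] at h1
  have h2 := trace_nonneg_mul _ _ hXY hX
  linarith

theorem hs_mono (X Y : Matrix n n ℂ) (hX : X.PosSemidef) (hXY : (Y - X).PosSemidef) :
    hs X ≤ hs Y := by
  have h1 := hs_slack X Y hX hXY
  have h2 := hs_nonneg (Y - X)
  linarith

theorem hs_gram_comm (C : Matrix m n ℂ) : hs (C * Cᴴ) = hs (Cᴴ * C) := by
  rw [hs_trace, hs_trace]
  simp only [conjTranspose_mul, conjTranspose_conjTranspose]
  congr 1
  rw [Matrix.mul_assoc, trace_mul_comm, Matrix.mul_assoc]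
  rw [Matrix.mul_assoc, Matrix.mul_assoc]

/-- the off-diagonal block -/
theorem hs_cross (C : Matrix m n ℂ) (E : Matrix m p ℂ) :
    hs (Cᴴ * E) ≤ (hs (Cᴴ * C) + hs (Eᴴ * E)) / 2 := by
  have h1 : hs (Cᴴ * E) = (trace ((C * Cᴴ)ᴴ * (E * Eᴴ))).re := by
    rw [hs_trace']
    simp only [conjTranspose_mul, conjTranspose_conjTranspose]
    congr 1
    have h0 : Cᴴ * E * (Eᴴ * C) = (Cᴴ * (E * Eᴴ)) * C := by simp only [Matrix.mul_assoc]
    rw [h0, trace_mul_comm]
    simp only [Matrix.mul_assoc]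
  have h2 := hs_sub_eq (C * Cᴴ) (E * Eᴴ)
  have h3 := hs_nonneg (C * Cᴴ - E * Eᴴ)
  rw [h2, ← h1, hs_gram_comm, hs_gram_comm] at h3
  linarith

end sq

end Pool.Agent.Helper32.BS
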