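import Pool.Agent.Helper32.BS.Ful
import Pool.Graph.R_pool_sql_team_seeded_1acbe0a2.Y662.TR.Acs

/-! The limit of the finite groups. -/

set_option autoImplicit false
set_option linter.unusedSectionVars false
set_option linter.unusedSimpArgs false

open scoped BigOperators InnerProductSpace Topology Matrix ComplexOrder MatrixOrder ENNReal
open Filter Matrix MeasureTheory ProbabilityTheory

namespace Pool.Agent.Helper32.BS

open Pool.Agent.TH369.AN (Rz rz_eq rz_uniq rz_norm)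
open Pool.Agent.Y662.TR (LL lmk lmk_apply ll_inner ll_ext ll_summable ll_coord ll_sum dv dv_apply
  dv_self dv_ne inner_dv norm_dv ev ev_apply add_coord sub_coord neg_coord smul_coord Cf Cf_apply
  Cf_norm Cf_dv Cf_dv_ne Cf_adj Cf_adj_ne Cf_adj_norm clp clp_abs clp_eq clp_cont Mw Mw_apply
  Mw_norm Mw_sa Mw_tendsto approx)

section lim

variable {K d : ℕ} {S : Type} [AddGroup S]

/-- the inclusion of a section of a quotient -/
def tj {S' : Type} (J : S' → S) (v : Tr K × S') : Tr K × S := (v.1, J v.2)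

theorem tj_inj {S' : Type} {J : S' → S} (hJ : Function.Injective J) :
    Function.Injective (tj (K := K) J) := by
  rintro ⟨l, x⟩ ⟨l', x'⟩ h
  unfold tj at h
  simp only [Prod.mk.injEq] at h
  exact Prod.ext h.1 (hJ h.2)

/-- the commutator -/
noncomputable def Dn {S' : Type} [AddGroup S'] (e : Fin d → S) (π : S →+ S') (J : S' → S)
    (hJ : Function.Injective J) : LL (Tr K × S) →L[ℂ] LL (Tr K × S') :=
  (Cf (tj J) (tj_inj hJ)).comp (Ls (Tr K) e) -
    (Ls (Tr K) (fun i => π (e i))).comp (Cf (tj J) (tj_inj hJ))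

theorem dn_norm {S' : Type} [AddGroup S'] (e : Fin d → S) (π : S →+ S') (J : S' → S)
    (hJ : Function.Injective J) (u : LL (Tr K × S)) : ‖Dn e π J hJ u‖ ≤ 4 * d * ‖u‖ := by
  have h1 : ∀ w : LL (Tr K × S), ‖Cf (tj J) (tj_inj hJ) w‖ ≤ ‖w‖ := by
    intro w
    have e1 := (Cf (tj (K := K) J) (tj_inj hJ)).le_opNorm w
    have e2 := Cf_norm (tj (K := K) J) (tj_inj hJ)
    have := norm_nonneg w
    nlinarith
  have h2 : ‖Ls (Tr K) e u‖ ≤ 2 * d * ‖u‖ := by
    refine ((Ls (Tr K) e).le_opNorm u).trans ?_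
    have := Ls_norm (X := Tr K) e
    gcongr
  have h3 : ‖Ls (Tr K) (fun i => π (e i)) (Cf (tj J) (tj_inj hJ) u)‖ ≤ 2 * d * ‖u‖ := by
    refine ((Ls (Tr K) (fun i => π (e i))).le_opNorm _).trans ?_
    have e1 := Ls_norm (X := Tr K) (fun i => π (e i))
    have e2 := h1 u
    gcongr
  have h4 : Dn e π J hJ u = Cf (tj J) (tj_inj hJ) (Ls (Tr K) e u) -
      Ls (Tr K) (fun i => π (e i)) (Cf (tj J) (tj_inj hJ) u) := rfl
  rw [h4]
  refine (norm_sub_le _ _).trans ?_
  have h5 := h1 (Ls (Tr K) e u)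
  linarith

theorem dn_apply {S' : Type} [AddGroup S'] (e : Fin d → S) (π : S →+ S') (J : S' → S)
    (hJ : Function.Injective J) (u : LL (Tr K × S)) (v : Tr K × S') :
    Dn e π J hJ u v = (∑ i : Fin d, (u (v.1, J v.2 + e i) + u (v.1, J v.2 - e i))) -
      ∑ i : Fin d, (u (v.1, J (v.2 + π (e i))) + u (v.1, J (v.2 - π (e i)))) := by
  have h4 : Dn e π J hJ u = Cf (tj J) (tj_inj hJ) (Ls (Tr K) e u) -
      Ls (Tr K) (fun i => π (e i)) (Cf (tj J) (tj_inj hJ) u) := rfl
  rw [h4, sub_coord, Cf_apply, Ls_apply, Ls_apply]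
  rfl

/-- the operator on the quotient -/
theorem tf_dn {S' : Type} [AddGroup S'] (e : Fin d → S) (π : S →+ S') (J : S' → S)
    (hJ : Function.Injective J) (a t B : ℝ) (w : Tr K × S → ℝ) (u : LL (Tr K × S)) :
    Tf K (fun i => π (e i)) a t B (w ∘ tj J) (Cf (tj J) (tj_inj hJ) u) =
      Cf (tj J) (tj_inj hJ) (Tf K e a t B w u) + Dn e π J hJ u := by
  apply ll_ext
  intro v
  have h5 : Cf (tj J) (tj_inj hJ) (Tf K e a t B w u) v = Tf K e a t B w u (tj J v) := rfl
  rw [add_coord, dn_apply, Tf_apply, h5, Tf_apply]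
  simp only [Cf_apply, tj, Function.comp]
  ring

theorem dn_dv {S' : Type} [AddGroup S'] (e : Fin d → S) (π : S →+ S') (J : S' → S)
    (hJ : Function.Injective J) (hπ : ∀ x, π (J x) = x) (y : Tr K × S)
    (h0 : J (π y.2) = y.2) (h1 : ∀ i, J (π (y.2 - e i)) = y.2 - e i)
    (h2 : ∀ i, J (π (y.2 + e i)) = y.2 + e i) : Dn e π J hJ (dv y) = 0 := by
  apply ll_ext
  intro v
  rw [dn_apply, ← Finset.sum_sub_distrib]
  refine Finset.sum_eq_zero fun i _ => ?_
  have key : ∀ (x x' : S), (x = y.2 ↔ x' = y.2) → dv y (v.1, x) = dv y (v.1, x') := by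
    intro x x' h
    by_cases h3 : (v.1, x) = y
    · have e1 : x = y.2 := by rw [← h3]
      have e2 : v.1 = y.1 := by rw [← h3]
      have e3 : (v.1, x') = y := Prod.ext e2 (h.1 e1)
      rw [h3, e3]
    · have h4 : (v.1, x') ≠ y := by
        intro h5
        have e1 : x' = y.2 := by rw [← h5]
        have e2 : v.1 = y.1 := by rw [← h5]
        exact h3 (Prod.ext e2 (h.2 e1))
      rw [dv_ne h3, dv_ne h4]
  have k1 := key (J v.2 + e i) (J (v.2 + π (e i))) (by
    constructor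
    · intro h
      have e1 : v.2 = π (y.2 - e i) := by rw [← h, add_sub_cancel_right, hπ]
      rw [e1, map_sub, sub_add_cancel, h0]
    · intro h
      have e1 : v.2 = π (y.2 - e i) := by
        have := hπ (v.2 + π (e i))
        rw [h] at this
        rw [map_sub, this, add_sub_cancel_right]
      rw [e1, h1, sub_add_cancel])
  have k2 := key (J v.2 - e i) (J (v.2 - π (e i))) (by
    constructor
    · intro h
      have e1 : v.2 = π (y.2 + e i) := by rw [← h, sub_add_cancel, hπ]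
      rw [e1, map_add, add_sub_cancel_right, h0]
    · intro h
      have e1 : v.2 = π (y.2 + e i) := by
        have := hπ (v.2 - π (e i))
        rw [h] at this
        rw [map_add, this, sub_add_cancel]
      rw [e1, h2, add_sub_cancel_right])
  rw [k1, k2, sub_self]

/-- finite quotients which converge to the group -/
structure Apx (S : Type) [AddGroup S] (Sn : ℕ → Type) [∀ n, AddGroup (Sn n)]
    (π : ∀ n, S →+ Sn n) (J : ∀ n, Sn n → S) : Prop where
  pj : ∀ n x, π n (J n x) = x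
  jp : ∀ y, ∀ᶠ n in atTop, J n (π n y) = y

variable {Sn : ℕ → Type} [∀ n, AddGroup (Sn n)] {π : ∀ n, S →+ Sn n} {J : ∀ n, Sn n → S}

theorem Apx.inj (h : Apx S Sn π J) (n : ℕ) : Function.Injective (J n) := by
  intro x y hxy
  rw [← h.pj n x, ← h.pj n y, hxy]

theorem Apx.dn (h : Apx S Sn π J) (e : Fin d → S) (u : LL (Tr K × S)) :
    Tendsto (fun n => ‖Dn e (π n) (J n) (h.inj n) u‖) atTop (𝓝 0) := by
  rw [Metric.tendsto_atTop]
  intro ε hε
  obtain ⟨s, hs⟩ := approx u (ε / (2 * (4 * d + 1))) (by positivity)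
  have h1 : ∀ y ∈ s, ∀ᶠ n in atTop, Dn e (π n) (J n) (h.inj n) (dv y) = 0 := by
    intro y _
    filter_upwards [h.jp y.2, eventually_all.2 fun i => h.jp (y.2 - e i),
      eventually_all.2 fun i => h.jp (y.2 + e i)] with n e1 e2 e3
    exact dn_dv e (π n) (J n) (h.inj n) (h.pj n) y e1 e2 e3
  have h2 := (Filter.eventually_all_finset s).2 h1
  obtain ⟨N, hN⟩ := Filter.eventually_atTop.1 h2
  refine ⟨N, fun n hn => ?_⟩
  rw [Real.dist_eq, sub_zero, abs_of_nonneg (norm_nonneg _)]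
  have h3 : Dn e (π n) (J n) (h.inj n) u =
      Dn e (π n) (J n) (h.inj n) (u - ∑ x ∈ s, u x • dv x) := by
    rw [map_sub, map_sum]
    have : ∑ x ∈ s, Dn e (π n) (J n) (h.inj n) (u x • dv x) = 0 :=
      Finset.sum_eq_zero fun x hx => by rw [map_smul, hN n hn x hx, smul_zero]
    rw [this, sub_zero]
  rw [h3]
  refine (dn_norm _ _ _ _ _).trans_lt ?_
  calc 4 * d * ‖u - ∑ x ∈ s, u x • dv x‖ ≤ 4 * d * (ε / (2 * (4 * d + 1))) := by gcongr
    _ < ε := by
      rw [mul_div_assoc', div_lt_iff₀ (by positivity)]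
      nlinarith

/-- **convergence of the Green function** -/
theorem Apx.gf (h : Apx S Sn π J) (e : Fin d → S) (a t lam b : ℝ) (z : ℂ) (hz : 0 < z.im)
    (v : Tr K × S) (ω : Tr K × S → ℝ) :
    Tendsto (fun n => GF (fun i => π n (e i)) a t lam b z (v.1, π n v.2) (ω ∘ tj (J n))) atTop
      (𝓝 (GF e a t lam b z v ω)) := by
  obtain ⟨u, hu⟩ : ∃ u, u = Rz (Tf K e a t (lam * b) (pw lam b ω)) z (dv v) := ⟨_, rfl⟩
  have h1 := (h.dn e u).div_const |z.im|
  rw [zero_div] at h1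
  rw [tendsto_iff_norm_sub_tendsto_zero]
  refine squeeze_zero' (Eventually.of_forall fun n => norm_nonneg _) ?_ h1
  filter_upwards [h.jp v.2] with n hn
  have e1 := tf_dn e (π n) (J n) (h.inj n) a t (lam * b) (pw lam b ω) u
  have e2 := rz_eq _ (Tf_sa e a t (lam * b) (pw lam b ω)) z hz.ne' (dv v)
  rw [← hu] at e2
  have hv : tj (J n) (v.1, π n v.2) = v := by
    unfold tj
    exact Prod.ext rfl hn
  have e3 : Cf (tj (J n)) (tj_inj (h.inj n)) (dv v) = dv (v.1, π n v.2) := by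
    conv_lhs => rw [← hv]
    exact Cf_dv _ _ _
  have e4 : Cf (tj (J n)) (tj_inj (h.inj n)) u =
      Rz (Tf K (fun i => π n (e i)) a t (lam * b) (pw lam b (ω ∘ tj (J n)))) z
        (dv (v.1, π n v.2) + Dn e (π n) (J n) (h.inj n) u) := by
    apply rz_uniq _ (Tf_sa _ _ _ _ _) z hz.ne'
    have e5 : pw lam b (ω ∘ tj (J n)) = pw lam b ω ∘ tj (K := K) (J n) := rfl
    rw [e5, e1, ← e3, ← e2, map_sub, map_smul]
    abel
  have e6 := congrArg (fun w : LL (Tr K × Sn n) => w (v.1, π n v.2)) e4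
  simp only [Cf_apply, hv, map_add, add_coord] at e6
  have e7 : GF e a t lam b z v ω = u v := by rw [hu]; rfl
  have e8 : GF (fun i => π n (e i)) a t lam b z (v.1, π n v.2) (ω ∘ tj (J n)) -
      GF e a t lam b z v ω =
      -(Rz (Tf K (fun i => π n (e i)) a t (lam * b) (pw lam b (ω ∘ tj (J n)))) z
        (Dn e (π n) (J n) (h.inj n) u)) (v.1, π n v.2) := by
    rw [e7, e6]
    unfold GF
    ring
  rw [e8, norm_neg]
  exact (ll_coord _ _).trans (rz_norm _ (Tf_sa _ _ _ _ _) z hz.ne' _)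

/-- Fatou's lemma -/
theorem Apx.fatou [Countable S] (h : Apx S Sn π J) (e : Fin d → S) (a t lam b : ℝ) (z : ℂ)
    (hz : 0 < z.im) (v : Tr K × S) (ρ : Measure ℝ) [IsProbabilityMeasure ρ] (Φ : ℂ → ENNReal)
    (hΦ : Measurable Φ) (hΦc : ∀ w : ℂ, 0 < w.im → ContinuousAt Φ w) (C : ENNReal)
    (hn : ∀ n, Countable (Sn n))
    (hC : ∀ n, ∫⁻ ω, Φ (GF (fun i => π n (e i)) a t lam b z (v.1, π n v.2) ω)
      ∂(Pf K (Sn n) ρ) ≤ C) : ∫⁻ ω, Φ (GF e a t lam b z v ω) ∂(Pf K S ρ) ≤ C := by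
  have hm : ∀ n, Measurable fun ω : Tr K × Sn n → ℝ =>
      Φ (GF (fun i => π n (e i)) a t lam b z (v.1, π n v.2) ω) := by
    intro n
    haveI := hn n
    exact hΦ.comp (gf_cont _ a t lam b z hz _).measurable
  have hmp : ∀ n, MeasurePreserving (fun (ω : Tr K × S → ℝ) => ω ∘ tj (K := K) (J n))
      (Pf K S ρ) (Pf K (Sn n) ρ) := fun n => pi_mp ρ _ (tj_inj (h.inj n))
  have h1 : ∀ n, ∫⁻ ω, Φ (GF (fun i => π n (e i)) a t lam b z (v.1, π n v.2) (ω ∘ tj (J n)))
      ∂(Pf K S ρ) ≤ C := by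
    intro n
    rw [(hmp n).lintegral_comp (hm n)]
    exact hC n
  have h2 : ∀ ω : Tr K × S → ℝ, Φ (GF e a t lam b z v ω) = liminf (fun n =>
      Φ (GF (fun i => π n (e i)) a t lam b z (v.1, π n v.2) (ω ∘ tj (J n)))) atTop := by
    intro ω
    have e1 := (hΦc _ (gf_im_pos e a t lam b z hz v ω)).tendsto.comp (h.gf e a t lam b z hz v ω)
    exact e1.liminf_eq.symm
  simp only [h2]
  refine (lintegral_liminf_le fun n => ?_).trans ?_
  · exact (hm n).comp (hmp n).measurable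
  · exact liminf_le_of_frequently_le' (Filter.Eventually.frequently (Eventually.of_forall h1))

end lim

end Pool.Agent.Helper32.BS
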