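import Pool.Agent.Helper32.BS.Env

/-! The moment bound of the rooted tree times a finite group. -/

set_option autoImplicit false
set_option linter.unusedSectionVars false
set_option linter.unusedSimpArgs false

open scoped BigOperators InnerProductSpace Topology Matrix ComplexOrder MatrixOrder
open Filter Matrix MeasureTheory ProbabilityTheory

namespace Pool.Agent.Helper32.BS

open Pool.Agent.TH369.AN (Rz rz_eq rz_uniq rz_norm)
open Pool.Agent.Y662.TR (LL lmk lmk_apply ll_inner ll_ext ll_summable ll_coord ll_sum dv dv_apply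
  dv_self dv_ne inner_dv norm_dv ev ev_apply add_coord sub_coord neg_coord smul_coord Cf Cf_apply
  Cf_norm Cf_dv Cf_dv_ne Cf_adj Cf_adj_ne Cf_adj_norm clp clp_abs clp_eq clp_cont Mw Mw_apply
  Mw_norm Mw_sa Mw_tendsto)

variable {K d : ℕ} {S : Type} [AddGroup S]

/-- the left translation -/
def lt {X : Type} (g : S) (v : X × S) : X × S := (v.1, g + v.2)

theorem lt_inj {X : Type} (g : S) : Function.Injective (lt (X := X) g) := by
  rintro ⟨l, x⟩ ⟨l', x'⟩ h
  unfold lt at h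
  simp only [Prod.mk.injEq, add_right_inj] at h
  exact Prod.ext h.1 h.2

theorem th_lt (e : Fin d → S) (a t B : ℝ) (w : List (Fin K) × S → ℝ) (g : S)
    (u : LL (List (Fin K) × S)) (v : List (Fin K) × S) :
    Th K e a t B (w ∘ lt g) (Cf (lt g) (lt_inj g) u) v = Th K e a t B w u (lt g v) := by
  rw [Th_apply, Th_apply]
  simp only [Cf_apply, lt, Function.comp]
  obtain ⟨l, x⟩ := v
  cases l with
  | nil => simp only [parh, add_assoc, add_sub_assoc]
  | cons i l => simp only [parh, add_assoc, add_sub_assoc]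

theorem rz_lt (e : Fin d → S) (a t B : ℝ) (w : List (Fin K) × S → ℝ) (g : S) (z : ℂ)
    (hz : z.im ≠ 0) (φ : LL (List (Fin K) × S)) :
    Cf (lt g) (lt_inj g) (Rz (Th K e a t B w) z φ) =
      Rz (Th K e a t B (w ∘ lt g)) z (Cf (lt g) (lt_inj g) φ) := by
  apply rz_uniq _ (Th_sa _ _ _ _ _) z hz
  apply ll_ext
  intro v
  rw [sub_coord, smul_coord, th_lt, Cf_apply, Cf_apply]
  have h1 := rz_eq (Th K e a t B w) (Th_sa _ _ _ _ _) z hz φ
  conv_rhs => rw [← h1, sub_coord, smul_coord]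

variable [Fintype S] [DecidableEq S]

theorem gh_lt (e : Fin d → S) (a t lam b : ℝ) (z : ℂ) (hz : 0 < z.im)
    (ω : List (Fin K) × S → ℝ) (g : S) : Gh K e a t lam b z (fun v => ω (lt g v)) =
      (Gh K e a t lam b z ω).submatrix (Equiv.addLeft g) (Equiv.addLeft g) := by
  ext x y
  have h1 := rz_lt e a t (lam * b) (pw lam b ω) g z hz.ne' (dv (lt g (([], y) : List (Fin K) × S)))
  rw [Cf_dv] at h1
  have h2 := congrArg (fun u : LL (List (Fin K) × S) => u ([], x)) h1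
  exact h2.symm

theorem imm_submatrix (F : Matrix S S ℂ) (e : S ≃ S) :
    Imm (F.submatrix e e) = (Imm F).submatrix e e := by
  ext x y
  simp [Imm]

/-- the diagonal entries of the inverse of the imaginary part -/
noncomputable def mq (e : Fin d → S) (a t lam b : ℝ) (z : ℂ) (x : S)
    (ω : List (Fin K) × S → ℝ) : ℝ := ((Imm (Gh K e a t lam b z ω))⁻¹ x x).re

theorem mq_lt (e : Fin d → S) (a t lam b : ℝ) (z : ℂ) (hz : 0 < z.im)
    (ω : List (Fin K) × S → ℝ) (g x : S) :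
    mq e a t lam b z x (fun v => ω (lt g v)) = mq e a t lam b z (g + x) ω := by
  unfold mq
  rw [gh_lt e a t lam b z hz, imm_submatrix, inv_submatrix_equiv]
  rfl

theorem mq_cont (e : Fin d → S) (a t lam b : ℝ) (z : ℂ) (hz : 0 < z.im) (x : S) :
    Continuous (mq (K := K) e a t lam b z x) := by
  unfold mq
  have h1 := cont_inv (cont_imm (gh_cont (K := K) e a t lam b z hz))
    (fun ω => gm_pos _ z (Th_sa _ _ _ _ _) hz)
  exact Complex.continuous_re.comp (h1.matrix_elem x x)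

theorem mq_nonneg (e : Fin d → S) (a t lam b : ℝ) (z : ℂ) (hz : 0 < z.im) (x : S)
    (ω : List (Fin K) × S → ℝ) : 0 ≤ mq e a t lam b z x ω := by
  have h1 : (Imm (Gh K e a t lam b z ω)).PosDef := gm_pos _ z (Th_sa _ _ _ _ _) hz
  have := h1.inv.posSemidef.diag_nonneg (i := x)
  exact (Complex.le_def.1 this).1

theorem mq_bdd (e : Fin d → S) (a t lam b : ℝ) (z : ℂ) (hz : 0 < z.im) (x : S) :
    ∃ M, ∀ ω, |mq (K := K) e a t lam b z x ω| ≤ M := by
  obtain ⟨M, hM⟩ := (isCompact_univ_pi fun _ : List (Fin K) × S =>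
    isCompact_Icc (a := -|b|) (b := |b|)).exists_bound_of_continuousOn
      (mq_cont (K := K) e a t lam b z hz x).continuousOn
  refine ⟨M, fun ω => ?_⟩
  have h1 := hM (fun v => clp b (ω v)) (fun v _ => abs_le.1 (clp_abs b (ω v)))
  have h2 : mq e a t lam b z x (fun v => clp b (ω v)) = mq e a t lam b z x ω := by
    unfold mq
    rw [gh_clp]
  rw [h2] at h1
  exact h1

theorem mq_int (e : Fin d → S) (a t lam b : ℝ) (z : ℂ) (hz : 0 < z.im) (x : S) (ρ : Measure ℝ)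
    [IsProbabilityMeasure ρ] : Integrable (fun ω => mq (K := K) e a t lam b z x ω ^ 2)
      (Ph K S ρ) := by
  obtain ⟨M, hM⟩ := mq_bdd (K := K) e a t lam b z hz x
  refine bintr ((mq_cont e a t lam b z hz x).measurable.pow_const 2) (M := M ^ 2) fun ω => ?_
  rw [abs_of_nonneg (sq_nonneg _), ← sq_abs]
  have := hM ω
  gcongr

/-- the bound of one entry -/
theorem mq_le (e : Fin d → S) (a t lam b : ℝ) (z : ℂ) (hz : 0 < z.im) (x : S) (ρ : Measure ℝ)
    [IsProbabilityMeasure ρ] (C : ℝ)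
    (h : ∫ ω, hs (Imm (Gh K e a t lam b z ω))⁻¹ ∂(Ph K S ρ) ≤ C * Fintype.card S) :
    ∫ ω, mq e a t lam b z x ω ^ 2 ∂(Ph K S ρ) ≤ C := by
  have h1 : ∀ g, ∫ ω, mq (K := K) e a t lam b z (g + 0) ω ^ 2 ∂(Ph K S ρ) =
      ∫ ω, mq e a t lam b z 0 ω ^ 2 ∂(Ph K S ρ) := by
    intro g
    have e1 := mp_intr (pi_mp ρ (lt g) (lt_inj (X := List (Fin K)) g))
      (f := fun ω => mq e a t lam b z 0 ω ^ 2)
      ((mq_cont e a t lam b z hz 0).measurable.pow_const 2)
    simp only [mq_lt e a t lam b z hz] at e1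
    exact e1
  simp only [add_zero] at h1
  rw [h1]
  have h2 : ∑ x, ∫ ω, mq (K := K) e a t lam b z x ω ^ 2 ∂(Ph K S ρ) ≤ C * Fintype.card S := by
    refine le_trans ?_ h
    rw [← integral_finsetSum _ fun x _ => mq_int e a t lam b z hz x ρ]
    have hR := cont_hs (cont_inv (cont_imm (gh_cont (K := K) e a t lam b z hz))
      (fun ω => gm_pos _ z (Th_sa _ _ _ _ _) hz))
    have hi : Integrable (fun ω => hs (Imm (Gh K e a t lam b z ω))⁻¹) (Ph K S ρ) := by
      obtain ⟨M, hM⟩ := (isCompact_univ_pi fun _ : List (Fin K) × S =>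
        isCompact_Icc (a := -|b|) (b := |b|)).exists_bound_of_continuousOn hR.continuousOn
      refine bintr hR.measurable (M := M) fun ω => ?_
      have h1 := hM (fun v => clp b (ω v)) (fun v _ => abs_le.1 (clp_abs b (ω v)))
      rw [gh_clp] at h1
      exact h1
    refine integral_mono (integrable_finsetSum _ fun x _ => mq_int e a t lam b z hz x ρ) hi
      fun ω => ?_
    unfold hs
    refine Finset.sum_le_sum fun x _ => ?_
    refine le_trans ?_ (Finset.single_le_sum (f := fun y => ‖(Imm (Gh K e a t lam b z ω))⁻¹ x y‖ ^ 2)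
      (fun _ _ => by positivity) (Finset.mem_univ x))
    unfold mq
    rw [← sq_abs]
    have := Complex.abs_re_le_norm ((Imm (Gh K e a t lam b z ω))⁻¹ x x)
    gcongr
  simp only [h1] at h2
  rw [Finset.sum_const, Finset.card_univ, nsmul_eq_mul, mul_comm C] at h2
  have h3 : (0 : ℝ) < Fintype.card S := by exact_mod_cast Fintype.card_pos
  exact le_of_mul_le_mul_left h2 h3

/-- the constants -/
theorem consts {δ μ c : ℝ} (hδ : 0 < δ) (hδ1 : δ ≤ 1) (hc : c = Real.sqrt δ / 4)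
    (hμ0 : 0 ≤ μ) (hμ : 4000000 * μ ≤ δ ^ 3) :
    μ ≤ 1 ∧ 2 * ((6 / c ^ 2 + 12) * ((26 + 36 * c⁻¹ ^ 4) * μ)) ≤ 1 / 2 := by
  have hc2 : c ^ 2 = δ / 16 := by
    rw [hc, div_pow, Real.sq_sqrt hδ.le]
    norm_num
  have hc4 : c⁻¹ ^ 4 = 256 / δ ^ 2 := by
    have : c⁻¹ ^ 4 = ((c ^ 2)⁻¹) ^ 2 := by
      rw [inv_pow, inv_pow]
      ring
    rw [this, hc2]
    field_simp
    norm_num
  have hδ3 : δ ^ 3 ≤ 1 := pow_le_one₀ hδ.le hδ1
  constructor
  · linarith
  · rw [hc2, hc4]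
    have h1 : (6 / (δ / 16) + 12) * (26 + 36 * (256 / δ ^ 2)) ≤ 998136 / δ ^ 3 := by
      rw [le_div_iff₀ (by positivity)]
      have h2 : (6 / (δ / 16) + 12) * (26 + 36 * (256 / δ ^ 2)) * δ ^ 3 =
          (96 + 12 * δ) * (26 * δ ^ 2 + 9216) := by
        field_simp
        ring
      rw [h2]
      have h3 : 96 + 12 * δ ≤ 108 := by linarith
      have h4 : 26 * δ ^ 2 + 9216 ≤ 9242 := by nlinarith
      have h5 : 0 ≤ 26 * δ ^ 2 + 9216 := by positivity
      nlinarith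
    calc 2 * ((6 / (δ / 16) + 12) * ((26 + 36 * (256 / δ ^ 2)) * μ)) =
        2 * ((6 / (δ / 16) + 12) * (26 + 36 * (256 / δ ^ 2))) * μ := by ring
      _ ≤ 2 * (998136 / δ ^ 3) * μ := by gcongr
      _ ≤ 2 * (998136 / δ ^ 3) * (δ ^ 3 / 4000000) := by
          gcongr
          linarith
      _ ≤ 1 / 2 := by
          field_simp
          norm_num

/-- **the moment bound, uniformly in the finite group** -/
theorem mom_h (hK : 2 ≤ K) {t : ℝ} (ht : 0 < t) {b : ℝ} (hb : 0 < b) {r : ℝ} (hr0 : 0 ≤ r)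
    (hr1 : r < 1) (e : Fin d → S) (ρ : Measure ℝ) [IsProbabilityMeasure ρ] {lam : ℝ}
    (hlam : 0 < lam) (hl : 4000000 * (lam * b) ≤ (1 - r ^ 2) ^ 3 * (Real.sqrt K * t)) (z : ℂ)
    (hz : 0 < z.im) (hz1 : z.im ≤ Real.sqrt K * t)
    (h1 : t * (K + 1) + 4 * d - 2 * r * (Real.sqrt K * t) ≤ z.re)
    (h2 : z.re ≤ t * (K + 1) + 2 * r * (Real.sqrt K * t)) (x : S) :
    ∫ ω, mq e (t * (K + 1) + 2 * d) t lam b z x ω ^ 2 ∂(Ph K S ρ) ≤
      64 * (Real.sqrt (1 - r ^ 2) / 4 / (Real.sqrt K * t))⁻¹ ^ 2 := by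
  have hK0 : (0 : ℝ) < K := by exact_mod_cast (by omega : 0 < K)
  have hsp := Real.sqrt_pos.2 hK0
  obtain ⟨κ, hκ⟩ : ∃ κ, κ = Real.sqrt K * t := ⟨_, rfl⟩
  have hκ0 : 0 < κ := by rw [hκ]; positivity
  obtain ⟨δ, hδ⟩ : ∃ δ, δ = 1 - r ^ 2 := ⟨_, rfl⟩
  have hδ0 : 0 < δ := by
    rw [hδ]
    nlinarith
  have hδ1 : δ ≤ 1 := by
    rw [hδ]
    nlinarith [sq_nonneg r]
  obtain ⟨c, hc⟩ : ∃ c, c = Real.sqrt δ / 4 := ⟨_, rfl⟩
  have hμ : 4000000 * (lam * b / κ) ≤ δ ^ 3 := by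
    rw [mul_div_assoc', div_le_iff₀ hκ0, hδ, hκ]
    exact hl
  obtain ⟨k1, k2⟩ := consts hδ0 hδ1 hc (by positivity) hμ
  have hRm := rm_gh e (t * (K + 1) + 2 * d) t lam b z hz hK ht hlam ρ
  rw [abs_of_pos hb] at hRm
  have ha1 : (t * (K + 1) + 2 * d - 2 * d : ℝ) = t * (K + 1) := by ring
  have ha2 : (t * (K + 1) + 2 * d + 2 * d : ℝ) = t * (K + 1) + 4 * d := by ring
  have h3 := am_low e (t * (K + 1) + 2 * d)
  have h4 := am_high e (t * (K + 1) + 2 * d)
  rw [ha1] at h3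
  rw [ha2] at h4
  have h5 := hRm.main (t * (K + 1)) (t * (K + 1) + 4 * d) δ 3 h3 h4 hδ0 (by norm_num)
    (fun a' ha ha' => ?_) c (c / κ) (by rw [hc]; norm_num) (by rw [hκ]) hb
    (by rw [← hκ]; exact k1) (by rw [← hκ]; exact k2)
  · have h6 := mq_le e _ t lam b z hz x ρ _ h5
    rw [hc, hδ, hκ] at h6
    exact h6
  · rw [← hκ] at h1 h2 hz1 ⊢
    have e1 : |z.re - a'| ≤ 2 * r * κ := by
      rw [abs_le]
      constructor
      · linarith
      · linarith
    constructor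
    · rw [hδ]
      have e2 : ((z.re - a') / κ / 2) ^ 2 = (|z.re - a'| / κ / 2) ^ 2 := by
        rw [div_pow, div_pow, div_pow, div_pow, sq_abs]
      rw [e2]
      have e3 : |z.re - a'| / κ / 2 ≤ r := by
        rw [div_div, div_le_iff₀ (by positivity)]
        linarith
      have : (|z.re - a'| / κ / 2) ^ 2 ≤ r ^ 2 := by gcongr
      linarith
    · rw [norm_div, Complex.norm_real, Real.norm_of_nonneg hκ0.le, div_le_iff₀ hκ0]
      refine (Complex.norm_le_abs_re_add_abs_im _).trans ?_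
      rw [Complex.sub_re, Complex.sub_im, Complex.ofReal_re, Complex.ofReal_im, sub_zero,
        abs_of_pos hz]
      nlinarith

end Pool.Agent.Helper32.BS
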