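import Mathlib

/-! The scalar root of the rooted tree. -/

set_option autoImplicit false

namespace Pool.Agent.Helper32.BS

/-- the root of `u² + ζ u + 1` in the unit disc -/
theorem root_ex (ζ : ℂ) (h : 0 < ζ.im) : ∃ u : ℂ, u * u + ζ * u + 1 = 0 ∧ ‖u‖ < 1 := by
  obtain ⟨s, hs⟩ : ∃ s : ℂ, s ^ 2 = ζ ^ 2 - 4 := IsAlgClosed.exists_pow_nat_eq _ two_pos
  obtain ⟨u, hu⟩ : ∃ u, u = (-ζ + s) / 2 := ⟨_, rfl⟩
  obtain ⟨v, hv⟩ : ∃ v, v = (-ζ - s) / 2 := ⟨_, rfl⟩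
  have h1 : u * u + ζ * u + 1 = 0 := by
    rw [hu]
    linear_combination (1 / 4) * hs
  have h2 : v * v + ζ * v + 1 = 0 := by
    rw [hv]
    linear_combination (1 / 4) * hs
  have h3 : u * v = 1 := by
    rw [hu, hv]
    linear_combination (-1 / 4) * hs
  have h4 : ∀ w : ℂ, w * w + ζ * w + 1 = 0 → ‖w‖ ≠ 1 := by
    intro w hw h5
    have h6 : w * (starRingEnd ℂ) w = 1 := by
      rw [Complex.mul_conj, Complex.normSq_eq_norm_sq, h5]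
      norm_num
    have h7 : ζ = -(w + (starRingEnd ℂ) w) := by
      have : (starRingEnd ℂ) w * (w * w + ζ * w + 1) = 0 := by rw [hw, mul_zero]
      linear_combination this - (w + ζ) * h6
    have h8 : ζ.im = 0 := by
      rw [h7]
      simp
    linarith
  have h5 : ‖u‖ * ‖v‖ = 1 := by rw [← norm_mul, h3, norm_one]
  rcases lt_trichotomy ‖u‖ 1 with h6 | h6 | h6
  · exact ⟨u, h1, h6⟩
  · exact absurd h6 (h4 u h1)
  · refine ⟨v, h2, ?_⟩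
    have := norm_nonneg v
    by_contra h7
    push Not at h7
    nlinarith

section

variable {ζ u : ℂ} (h : 0 < ζ.im) (hu : u * u + ζ * u + 1 = 0) (hu1 : ‖u‖ < 1)

include hu

theorem root_ne : u ≠ 0 := by
  intro h0
  rw [h0] at hu
  simp at hu

/-- `ζ |u|² = - u |u|² - conj u` -/
theorem root_conj : ζ * ((‖u‖ ^ 2 : ℝ) : ℂ) = -(u * ((‖u‖ ^ 2 : ℝ) : ℂ)) - (starRingEnd ℂ) u := by
  have h1 : ((‖u‖ ^ 2 : ℝ) : ℂ) = u * (starRingEnd ℂ) u := by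
    rw [Complex.mul_conj, Complex.normSq_eq_norm_sq]
  rw [h1]
  linear_combination (starRingEnd ℂ) u * hu

theorem root_im : ζ.im * ‖u‖ ^ 2 = u.im * (1 - ‖u‖ ^ 2) := by
  have h1 := congrArg Complex.im (root_conj hu)
  rw [Complex.im_mul_ofReal, Complex.sub_im, Complex.neg_im, Complex.im_mul_ofReal,
    Complex.conj_im] at h1
  linarith

theorem root_re : ζ.re * ‖u‖ ^ 2 = -(u.re * (1 + ‖u‖ ^ 2)) := by
  have h1 := congrArg Complex.re (root_conj hu)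
  rw [Complex.re_mul_ofReal, Complex.sub_re, Complex.neg_re, Complex.re_mul_ofReal,
    Complex.conj_re] at h1
  linarith

include h hu1

theorem root_im_pos : 0 < u.im := by
  have h1 := root_im hu
  have h2 : 0 < ‖u‖ := norm_pos_iff.2 (root_ne hu)
  have h3 : 0 < 1 - ‖u‖ ^ 2 := by nlinarith
  have h4 : 0 < ζ.im * ‖u‖ ^ 2 := by positivity
  rw [h1] at h4
  exact pos_of_mul_pos_left h4 h3.le

omit h hu1 in
theorem root_re_sq : u.re ^ 2 ≤ (ζ.re / 2) ^ 2 * ‖u‖ ^ 2 := by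
  have h1 := root_re hu
  have h2 : 0 < ‖u‖ := norm_pos_iff.2 (root_ne hu)
  have h3 : (ζ.re * ‖u‖ ^ 2) ^ 2 = u.re ^ 2 * (1 + ‖u‖ ^ 2) ^ 2 := by rw [h1]; ring
  have h4 : (2 * ‖u‖) ^ 2 ≤ (1 + ‖u‖ ^ 2) ^ 2 := by
    have : 2 * ‖u‖ ≤ 1 + ‖u‖ ^ 2 := by nlinarith [sq_nonneg (1 - ‖u‖)]
    gcongr
  have h5 : u.re ^ 2 * (2 * ‖u‖) ^ 2 ≤ (ζ.re * ‖u‖ ^ 2) ^ 2 := by
    rw [h3]
    gcongr
  have h6 : (0 : ℝ) < ‖u‖ ^ 2 := by positivity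
  have h7 : u.re ^ 2 * (2 * ‖u‖) ^ 2 = 4 * u.re ^ 2 * ‖u‖ ^ 2 := by ring
  have h8 : (ζ.re * ‖u‖ ^ 2) ^ 2 = (4 * ((ζ.re / 2) ^ 2 * ‖u‖ ^ 2)) * ‖u‖ ^ 2 := by ring
  rw [h7, h8] at h5
  have h9 := le_of_mul_le_mul_right h5 h6
  linarith

theorem root_low : 1 / (1 + ‖ζ‖) ≤ ‖u‖ := by
  have h1 : u * (-(u + ζ)) = 1 := by linear_combination -hu
  have h2 : ‖u‖ * ‖u + ζ‖ = 1 := by
    have := congrArg norm h1
    rwa [norm_mul, norm_neg, norm_one] at this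
  have h3 : ‖u + ζ‖ ≤ 1 + ‖ζ‖ := (norm_add_le _ _).trans (by linarith)
  rw [div_le_iff₀ (by positivity)]
  have := norm_nonneg u
  nlinarith

/-- the lower bound of the imaginary part -/
theorem root_im_low {M δ : ℝ} (hM : ‖ζ‖ ≤ M) (hδ : 0 ≤ δ) (hre : (ζ.re / 2) ^ 2 ≤ 1 - δ) :
    Real.sqrt δ / (1 + M) ≤ u.im := by
  have h1 := root_low h hu hu1
  have h2 := root_re_sq hu
  have h3 := root_im_pos h hu hu1
  have h4 : ‖u‖ ^ 2 = u.re ^ 2 + u.im ^ 2 := by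
    rw [← Complex.normSq_eq_norm_sq, Complex.normSq_apply]
    ring
  have hM0 : 0 ≤ M := (norm_nonneg _).trans hM
  have h5 : 1 / (1 + M) ≤ ‖u‖ := by
    refine le_trans ?_ h1
    have := norm_nonneg ζ
    gcongr
  have h6 : δ * ‖u‖ ^ 2 ≤ u.im ^ 2 := by nlinarith [sq_nonneg ‖u‖]
  have h7 : (Real.sqrt δ / (1 + M)) ^ 2 ≤ u.im ^ 2 := by
    refine le_trans ?_ h6
    rw [div_pow, Real.sq_sqrt hδ, div_eq_mul_one_div]
    have : 1 / (1 + M) ^ 2 ≤ ‖u‖ ^ 2 := by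
      rw [← one_div_pow]
      gcongr
    gcongr
  exact (pow_le_pow_iff_left₀ (by positivity) h3.le two_ne_zero).1 h7

end

/-- the spectral gap -/
theorem gap_low {u v : ℂ} {c : ℝ} (hu : u ≠ 0) (hu1 : ‖u‖ ≤ 1) (hv : 0 < v.im) (hc : 0 ≤ c)
    (hui : c ≤ u.im) : c ≤ ‖1 - u * v‖ := by
  have h1 : 1 - u * v = u * (u⁻¹ - v) := by
    rw [mul_sub, mul_inv_cancel₀ hu]
  have h2 : 0 < ‖u‖ := norm_pos_iff.2 hu
  have h3 : (u⁻¹).im = -u.im / ‖u‖ ^ 2 := by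
    rw [Complex.inv_im, Complex.normSq_eq_norm_sq]
  have h4 : u.im / ‖u‖ ^ 2 ≤ ‖u⁻¹ - v‖ := by
    have h5 := Complex.abs_im_le_norm (u⁻¹ - v)
    rw [Complex.sub_im, h3] at h5
    have h6 := neg_abs_le (-u.im / ‖u‖ ^ 2 - v.im)
    have h7 : -u.im / ‖u‖ ^ 2 = -(u.im / ‖u‖ ^ 2) := by ring
    rw [h7] at h5 h6
    linarith
  rw [h1, norm_mul]
  have h8 : ‖u‖ * (u.im / ‖u‖ ^ 2) = u.im / ‖u‖ := by field_simp
  have h9 : u.im / ‖u‖ ≤ ‖u‖ * ‖u⁻¹ - v‖ := by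
    rw [← h8]
    gcongr
  refine le_trans ?_ h9
  rw [le_div_iff₀ h2]
  nlinarith

end Pool.Agent.Helper32.BS
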