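import Pool.Agent.Helper32.BS.Rand
import Pool.Agent.Helper32.BS.Root

/-! The normal form of the matrices of the recursion. -/

set_option autoImplicit false
set_option linter.unusedSectionVars false
set_option linter.unusedSimpArgs false

open scoped BigOperators Matrix ComplexOrder MatrixOrder
open Matrix MeasureTheory ProbabilityTheory

namespace Pool.Agent.Helper32.BS

variable {n : Type} [Fintype n] [DecidableEq n]

/-- the scalar data -/
structure Sc (K : ℕ) (t : ℝ) (z : ℂ) (a : n → ℝ) (γ : n → ℂ) : Prop where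
  K0 : K ≠ 0
  tpos : 0 < t
  zpos : 0 < z.im
  eq : ∀ j, γ j * ((a j : ℂ) - z - K * (t : ℂ) ^ 2 * γ j) = 1
  im : ∀ j, 0 < (γ j).im
  small : ∀ j, Real.sqrt K * t * ‖γ j‖ ≤ 1

noncomputable def Dd (γ : n → ℂ) : Matrix n n ℂ :=
  diagonal fun j => (((Real.sqrt (γ j).im)⁻¹ : ℝ) : ℂ)

noncomputable def Rr (γ : n → ℂ) : Matrix n n ℂ := diagonal fun j => ((Real.sqrt (γ j).im : ℝ) : ℂ)

/-- the normal form -/
noncomputable def nf (γ : n → ℂ) (G : Matrix n n ℂ) : Matrix n n ℂ :=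
  Dd γ * (G - diagonal fun j => ((γ j).re : ℂ)) * Dd γ

theorem dd_conj (γ : n → ℂ) : (Dd γ)ᴴ = Dd γ := by
  unfold Dd
  rw [diagonal_conjTranspose]
  congr 1
  funext j
  rw [Pi.star_apply, RCLike.star_def, Complex.conj_ofReal]

theorem rr_conj (γ : n → ℂ) : (Rr γ)ᴴ = Rr γ := by
  unfold Rr
  rw [diagonal_conjTranspose]
  congr 1
  funext j
  rw [Pi.star_apply, RCLike.star_def, Complex.conj_ofReal]

section

variable (γ : n → ℂ) (hγ : ∀ j, 0 < (γ j).im)

include hγ

theorem rd : Rr γ * Dd γ = 1 := by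
  unfold Rr Dd
  rw [diagonal_mul_diagonal, ← diagonal_one]
  congr 1
  funext j
  rw [← Complex.ofReal_mul, mul_inv_cancel₀ (Real.sqrt_pos.2 (hγ j)).ne', Complex.ofReal_one]

theorem dr : Dd γ * Rr γ = 1 := by
  unfold Rr Dd
  rw [diagonal_mul_diagonal, ← diagonal_one]
  congr 1
  funext j
  rw [← Complex.ofReal_mul, inv_mul_cancel₀ (Real.sqrt_pos.2 (hγ j)).ne', Complex.ofReal_one]

theorem d_one : Dd γ * (diagonal fun j => ((γ j).im : ℂ)) * Dd γ = 1 := by
  unfold Dd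
  rw [diagonal_mul_diagonal, diagonal_mul_diagonal, ← diagonal_one]
  congr 1
  funext j
  rw [← Complex.ofReal_mul, ← Complex.ofReal_mul]
  have h := Real.sqrt_pos.2 (hγ j)
  have h2 := Real.mul_self_sqrt (hγ j).le
  have : (Real.sqrt (γ j).im)⁻¹ * (γ j).im * (Real.sqrt (γ j).im)⁻¹ = 1 := by
    calc (Real.sqrt (γ j).im)⁻¹ * (γ j).im * (Real.sqrt (γ j).im)⁻¹ =
        (Real.sqrt (γ j).im)⁻¹ * (Real.sqrt (γ j).im * Real.sqrt (γ j).im) *
          (Real.sqrt (γ j).im)⁻¹ := by rw [h2]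
      _ = 1 := by field_simp
  rw [this, Complex.ofReal_one]

theorem d_two : (diagonal fun j => (((γ j).im : ℝ) : ℂ)⁻¹) = Dd γ * Dd γ := by
  unfold Dd
  rw [diagonal_mul_diagonal]
  congr 1
  funext j
  have h := Real.sqrt_pos.2 (hγ j)
  rw [← Complex.ofReal_mul, ← mul_inv, Real.mul_self_sqrt (hγ j).le, Complex.ofReal_inv]

theorem nn_nf (G : Matrix n n ℂ) : Nn (nf γ G) = Dd γ * (G - diagonal (star γ)) * Dd γ := by
  unfold Nn nf
  rw [← d_one γ hγ]
  have h1 : diagonal (star γ) = (diagonal fun j => ((γ j).re : ℂ)) -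
      Complex.I • (diagonal fun j => ((γ j).im : ℂ)) := by
    rw [← diagonal_smul, diagonal_sub]
    congr 1
    funext j
    apply Complex.ext
    · simp
    · simp
  rw [h1]
  simp only [Matrix.mul_sub, Matrix.sub_mul, Matrix.mul_smul, Matrix.smul_mul]
  abel

theorem yy_nf (G : Matrix n n ℂ) : Yy (nf γ G) = Dd γ * (G - diagonal γ) * Dd γ := by
  unfold Yy nf
  rw [← d_one γ hγ]
  have h1 : diagonal γ = (diagonal fun j => ((γ j).re : ℂ)) +
      Complex.I • (diagonal fun j => ((γ j).im : ℂ)) := by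
    rw [← diagonal_smul, diagonal_add]
    congr 1
    funext j
    apply Complex.ext
    · simp
    · simp
  rw [h1]
  simp only [Matrix.mul_sub, Matrix.sub_mul, Matrix.mul_add, Matrix.add_mul, Matrix.mul_smul,
    Matrix.smul_mul]
  abel

omit hγ in
theorem imm_nf (G : Matrix n n ℂ) : Imm (nf γ G) = Dd γ * Imm G * Dd γ := by
  unfold Imm nf
  rw [conjTranspose_mul, conjTranspose_mul, conjTranspose_sub, dd_conj, diagonal_conjTranspose]
  have h1 : (star fun j => ((γ j).re : ℂ)) = fun j => ((γ j).re : ℂ) := by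
    funext j
    rw [Pi.star_apply, RCLike.star_def, Complex.conj_ofReal]
  rw [h1]
  simp only [Matrix.mul_sub, Matrix.sub_mul, Matrix.mul_smul, Matrix.smul_mul, Matrix.mul_assoc]
  congr 1
  abel

omit hγ in
theorem pt_nf (μ : ℝ) (V G : Matrix n n ℂ) :
    pt μ (Dd γ * V * Dd γ) (nf γ G) = nf γ (G - (μ : ℂ) • V) := by
  unfold pt nf
  simp only [Matrix.mul_sub, Matrix.sub_mul, Matrix.mul_smul, Matrix.smul_mul]
  abel

theorem imm_nf_pos (G : Matrix n n ℂ) (hG : (Imm G).PosDef) : (Imm (nf γ G)).PosDef := by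
  rw [imm_nf]
  have h1 := hG.mul_mul_conjTranspose_same (B := Dd γ) (by
    apply Matrix.vecMul_injective_of_isUnit
    exact ⟨⟨Dd γ, Rr γ, dr γ hγ, rd γ hγ⟩, rfl⟩)
  rwa [dd_conj] at h1

theorem imm_nf_inv (G : Matrix n n ℂ) (hG : (Imm G).PosDef) :
    (Imm (nf γ G))⁻¹ = Rr γ * (Imm G)⁻¹ * Rr γ := by
  apply inv_eq_right_inv
  rw [imm_nf]
  have h1 := mul_nonsing_inv _ ((isUnit_iff_isUnit_det _).1 hG.isUnit)
  calc Dd γ * Imm G * Dd γ * (Rr γ * (Imm G)⁻¹ * Rr γ) =
      Dd γ * Imm G * (Dd γ * Rr γ) * (Imm G)⁻¹ * Rr γ := by simp only [Matrix.mul_assoc]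
    _ = _ := by
      rw [dr γ hγ, Matrix.mul_one, Matrix.mul_assoc (Dd γ), h1, Matrix.mul_one, dr γ hγ]

end

theorem im_real_mul (x : ℝ) (w : ℂ) : ((x : ℂ) * w).im = x * w.im := by simp

variable {K : ℕ} {t : ℝ} {z : ℂ} {a : n → ℝ} {γ : n → ℂ}

theorem Sc.bg (h : Sc K t z a γ) (j : n) : (z.im : ℂ) * (γ j * star (γ j)) * (((γ j).im : ℝ) : ℂ)⁻¹ =
    1 - (((Real.sqrt K * t : ℝ) : ℂ) * γ j) * star (((Real.sqrt K * t : ℝ) : ℂ) * γ j) := by
  have h1 := h.eq j
  have h2 := h.im j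
  have h3 : (((Real.sqrt K * t : ℝ) : ℂ)) ^ 2 = K * (t : ℂ) ^ 2 := by
    rw [← Complex.ofReal_pow, mul_pow, Real.sq_sqrt (by positivity)]
    push_cast
    ring
  have hb : (((γ j).im : ℝ) : ℂ) ≠ 0 := by exact_mod_cast h2.ne'
  rw [star_mul', RCLike.star_def, Complex.conj_ofReal]
  have e1 : ((a j : ℂ) - z - K * (t : ℂ) ^ 2 * γ j) * (γ j * (starRingEnd ℂ) (γ j)) =
      (starRingEnd ℂ) (γ j) := by linear_combination (starRingEnd ℂ) (γ j) * h1
  have hns : γ j * (starRingEnd ℂ) (γ j) = ((Complex.normSq (γ j) : ℝ) : ℂ) := Complex.mul_conj _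
  rw [hns] at e1
  have e2 := congrArg Complex.im e1
  have hK : ((K : ℂ) * (t : ℂ) ^ 2) = ((K * t ^ 2 : ℝ) : ℂ) := by push_cast; ring
  rw [hK, Complex.im_mul_ofReal, Complex.sub_im, Complex.sub_im, Complex.ofReal_im,
    im_real_mul, Complex.conj_im] at e2
  have e3 : (z.im + K * t ^ 2 * (γ j).im) * Complex.normSq (γ j) = (γ j).im := by linarith
  have e4 : (((z.im + K * t ^ 2 * (γ j).im) * Complex.normSq (γ j) : ℝ) : ℂ) = ((γ j).im : ℂ) := by
    rw [e3]
  push_cast at e4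
  rw [hns]
  have e5 : (1 : ℂ) - (((Real.sqrt K * t : ℝ) : ℂ) * γ j) *
      (((Real.sqrt K * t : ℝ) : ℂ) * (starRingEnd ℂ) (γ j)) =
      1 - K * (t : ℂ) ^ 2 * (Complex.normSq (γ j) : ℂ) := by
    rw [← hns, ← h3]
    ring
  rw [e5]
  field_simp
  linear_combination e4

theorem Sc.stp (h : Sc K t z a γ) (G : Fin K → Matrix n n ℂ) (G' V : Matrix n n ℂ) (μ : ℝ)
    (hV : Vᴴ = V) (hG : ∀ i, (Imm (G i)).PosDef)
    (hrec : ((diagonal fun j => (a j : ℂ) - z) + ((K * t ^ 2 * μ : ℝ) : ℂ) • V -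
      ((t ^ 2 : ℝ) : ℂ) • ∑ i, G i) * G' = 1) :
    Stp K (t ^ 2) z.im (fun j => (γ j).im) γ (fun j => ((Real.sqrt K * t : ℝ) : ℂ) * γ j)
      (fun i => pt μ (Dd γ * V * Dd γ) (nf γ (G i))) (nf γ G') (Dd γ * G' * Rr γ) := by
  have hK0 := h.K0
  have h3 : (((Real.sqrt K * t : ℝ) : ℂ)) ^ 2 = K * (t : ℂ) ^ 2 := by
    rw [← Complex.ofReal_pow, mul_pow, Real.sq_sqrt (by positivity)]
    push_cast
    ring
  have hVD : (Dd γ * V * Dd γ)ᴴ = Dd γ * V * Dd γ := by
    rw [conjTranspose_mul, conjTranspose_mul, dd_conj, hV, Matrix.mul_assoc]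
  obtain ⟨X, hX⟩ : ∃ X, X = ((t ^ 2 : ℝ) : ℂ) • ∑ i, (G i - (μ : ℂ) • V) := ⟨_, rfl⟩
  have hX2 : X = ((t ^ 2 : ℝ) : ℂ) • (∑ i, G i) - ((K * t ^ 2 * μ : ℝ) : ℂ) • V := by
    rw [hX, Finset.sum_sub_distrib, Finset.sum_const, Finset.card_univ, Fintype.card_fin, smul_sub,
      ← Nat.cast_smul_eq_nsmul ℂ, smul_smul, smul_smul]
    congr 2
    push_cast
    ring
  obtain ⟨Z, hZ⟩ : ∃ Z : Matrix n n ℂ, Z = diagonal fun j => (a j : ℂ) - z := ⟨_, rfl⟩
  have hW : (Z - X) * G' = 1 := by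
    rw [hX2, hZ, ← hrec]
    congr 1
    abel
  have hW' : G' * (Z - X) = 1 := mul_eq_one_comm.1 hW
  have hdet : IsUnit (Dd γ * G' * Rr γ).det := by
    rw [← isUnit_iff_isUnit_det]
    refine ⟨⟨Dd γ * G' * Rr γ, Dd γ * (Z - X) * Rr γ, ?_, ?_⟩, rfl⟩
    · calc Dd γ * G' * Rr γ * (Dd γ * (Z - X) * Rr γ) =
          Dd γ * G' * (Rr γ * Dd γ) * (Z - X) * Rr γ := by simp only [Matrix.mul_assoc]
        _ = Dd γ * (G' * (Z - X)) * Rr γ := by
            rw [rd γ h.im, Matrix.mul_one]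
            simp only [Matrix.mul_assoc]
        _ = 1 := by rw [hW', Matrix.mul_one, dr γ h.im]
    · calc Dd γ * (Z - X) * Rr γ * (Dd γ * G' * Rr γ) =
          Dd γ * (Z - X) * (Rr γ * Dd γ) * G' * Rr γ := by simp only [Matrix.mul_assoc]
        _ = Dd γ * ((Z - X) * G') * Rr γ := by
            rw [rd γ h.im, Matrix.mul_one]
            simp only [Matrix.mul_assoc]
        _ = 1 := by rw [hW, Matrix.mul_one, dr γ h.im]
  -- the two scalar identities
  have hgy : (Z - (K : ℂ) • ((t ^ 2 : ℝ) : ℂ) • diagonal γ) * diagonal γ = 1 := by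
    rw [hZ, smul_smul, ← diagonal_smul, diagonal_sub, diagonal_mul_diagonal, ← diagonal_one]
    congr 1
    funext j
    have := h.eq j
    rw [Pi.smul_apply, smul_eq_mul]
    push_cast
    linear_combination this
  have hgn : (Z + (2 * Complex.I * z.im) • (1 : Matrix n n ℂ) -
      (K : ℂ) • ((t ^ 2 : ℝ) : ℂ) • diagonal (star γ)) * diagonal (star γ) = 1 := by
    rw [hZ, smul_smul, ← diagonal_smul, ← diagonal_one, ← diagonal_smul, diagonal_add, diagonal_sub,
      diagonal_mul_diagonal]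
    congr 1
    funext j
    have := congrArg (starRingEnd ℂ) (h.eq j)
    simp only [map_mul, map_sub, map_one, Complex.conj_ofReal, map_natCast, map_pow] at this
    simp only [Pi.smul_apply, smul_eq_mul, Pi.star_apply, RCLike.star_def]
    have hz : (starRingEnd ℂ) z = z - 2 * Complex.I * z.im := by
      apply Complex.ext
      · simp
      · simp
        ring
    rw [hz] at this
    push_cast
    linear_combination this
  have hsy : ∀ c : n → ℂ, ((t ^ 2 : ℝ) : ℂ) • ∑ i, Dd γ * (G i - (μ : ℂ) • V - diagonal c) * Dd γ =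
      Dd γ * (X - (K : ℂ) • ((t ^ 2 : ℝ) : ℂ) • diagonal c) * Dd γ := by
    intro c
    rw [← Matrix.sum_mul, ← Matrix.mul_sum, Finset.sum_sub_distrib, Finset.sum_const,
      Finset.card_univ, Fintype.card_fin, hX, ← Nat.cast_smul_eq_nsmul ℂ, ← Matrix.smul_mul,
      ← Matrix.mul_smul, smul_sub]
    congr 3
    rw [smul_comm]
  refine ⟨by have := h.tpos; positivity, h.zpos, h.im, ?_, ?_, h.bg, ?_, ?_, hdet, ?_, ?_, ?_⟩
  · intro j k
    push_cast at h3 ⊢
    linear_combination (-(γ j * γ k)) * h3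
  · intro j k
    rw [star_mul', RCLike.star_def, Complex.conj_ofReal]
    push_cast at h3 ⊢
    linear_combination (-(γ j * (starRingEnd ℂ) (γ k))) * h3
  · intro j
    rw [norm_mul, Complex.norm_real, Real.norm_of_nonneg (by have := h.tpos; positivity)]
    exact h.small j
  · intro i
    rw [imm_pt _ _ _ hVD]
    exact imm_nf_pos γ h.im _ (hG i)
  · simp only [pt_nf, nn_nf γ h.im]
    rw [hsy, d_two γ h.im, diagonal_conjTranspose]
    have e1 : (2 * Complex.I * z.im) • (Dd γ * Dd γ) =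
        Dd γ * ((2 * Complex.I * z.im) • (1 : Matrix n n ℂ)) * Dd γ := by
      rw [Matrix.mul_smul, Matrix.smul_mul, Matrix.mul_one]
    rw [e1, ← Matrix.add_mul, ← Matrix.mul_add]
    have e2 : G' * (X - (K : ℂ) • ((t ^ 2 : ℝ) : ℂ) • diagonal (star γ) +
        (2 * Complex.I * z.im) • (1 : Matrix n n ℂ)) * diagonal (star γ) =
        G' - diagonal (star γ) := by
      have e3 : X - (K : ℂ) • ((t ^ 2 : ℝ) : ℂ) • diagonal (star γ) +
        (2 * Complex.I * z.im) • (1 : Matrix n n ℂ) = (Z + (2 * Complex.I * z.im) • (1 : Matrix n n ℂ) -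
      (K : ℂ) • ((t ^ 2 : ℝ) : ℂ) • diagonal (star γ)) - (Z - X) := by abel
      rw [e3, Matrix.mul_assoc, Matrix.sub_mul, hgn, Matrix.mul_sub, Matrix.mul_one,
        ← Matrix.mul_assoc G' (Z - X), hW', Matrix.one_mul]
    calc Dd γ * (G' - diagonal (star γ)) * Dd γ =
        Dd γ * (G' * (X - (K : ℂ) • ((t ^ 2 : ℝ) : ℂ) • diagonal (star γ) +
        (2 * Complex.I * z.im) • (1 : Matrix n n ℂ)) * diagonal (star γ)) * Dd γ := by rw [e2]
      _ = Dd γ * G' * (Rr γ * Dd γ) * (X - (K : ℂ) • ((t ^ 2 : ℝ) : ℂ) • diagonal (star γ) +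
        (2 * Complex.I * z.im) • (1 : Matrix n n ℂ)) * (diagonal (star γ) * Dd γ) := by
          rw [rd γ h.im, Matrix.mul_one]
          simp only [Matrix.mul_assoc]
      _ = _ := by
          have e4 : diagonal (star γ) * Dd γ = Dd γ * diagonal (star γ) := by
            unfold Dd
            rw [diagonal_mul_diagonal, diagonal_mul_diagonal]
            congr 1
            funext j
            ring
          rw [e4]
          simp only [Matrix.mul_assoc]
  · simp only [pt_nf, yy_nf γ h.im]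
    rw [hsy]
    have e2 : G' * (X - (K : ℂ) • ((t ^ 2 : ℝ) : ℂ) • diagonal γ) * diagonal γ =
        G' - diagonal γ := by
      have e3 : X - (K : ℂ) • ((t ^ 2 : ℝ) : ℂ) • diagonal γ = (Z -
      (K : ℂ) • ((t ^ 2 : ℝ) : ℂ) • diagonal γ) - (Z - X) := by abel
      rw [e3, Matrix.mul_assoc, Matrix.sub_mul, hgy, Matrix.mul_sub, Matrix.mul_one,
        ← Matrix.mul_assoc G' (Z - X), hW', Matrix.one_mul]
    calc Dd γ * (G' - diagonal γ) * Dd γ =
        Dd γ * (G' * (X - (K : ℂ) • ((t ^ 2 : ℝ) : ℂ) • diagonal γ) * diagonal γ) * Dd γ := by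
          rw [e2]
      _ = Dd γ * G' * (Rr γ * Dd γ) * (X - (K : ℂ) • ((t ^ 2 : ℝ) : ℂ) • diagonal γ) *
          (diagonal γ * Dd γ) := by
          rw [rd γ h.im, Matrix.mul_one]
          simp only [Matrix.mul_assoc]
      _ = _ := by
          have e4 : diagonal γ * Dd γ = Dd γ * diagonal γ := by
            unfold Dd
            rw [diagonal_mul_diagonal, diagonal_mul_diagonal]
            congr 1
            funext j
            ring
          rw [e4]
          simp only [Matrix.mul_assoc]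
  · simp only [imm_pt _ _ _ hVD, imm_nf]
    rw [← Matrix.sum_mul, ← Matrix.mul_sum, d_two γ h.im]
    have e1 : ((t ^ 2 : ℝ) : ℂ) • (Dd γ * (∑ i, Imm (G i)) * Dd γ) + (z.im : ℂ) • (Dd γ * Dd γ) =
        Dd γ * (((t ^ 2 : ℝ) : ℂ) • (∑ i, Imm (G i)) + (z.im : ℂ) • 1) * Dd γ := by
      simp only [Matrix.mul_add, Matrix.add_mul, Matrix.mul_smul, Matrix.smul_mul, Matrix.mul_one]
    rw [e1, conjTranspose_mul, conjTranspose_mul, rr_conj, dd_conj]
    obtain ⟨q, hq⟩ : ∃ q, q = ((t ^ 2 : ℝ) : ℂ) • (∑ i, Imm (G i)) + (z.im : ℂ) • 1 := ⟨_, rfl⟩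
    rw [← hq]
    have e2 : (Z - X)ᴴ - (Z - X) = (2 * Complex.I) • q := by
      have f1 : ∀ i, (G i)ᴴ = G i - (2 * Complex.I) • Imm (G i) := by
        intro i
        have := imm_sub (G i)
        rw [← this]
        abel
      have f2 : Zᴴ = Z + (2 * Complex.I * z.im) • 1 := by
        rw [hZ, diagonal_conjTranspose, ← diagonal_one, ← diagonal_smul, diagonal_add]
        congr 1
        funext j
        have hz : (starRingEnd ℂ) z = z - 2 * Complex.I * z.im := by
          apply Complex.ext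
          · simp
          · simp
            ring
        simp only [Pi.star_apply, RCLike.star_def, map_sub, Complex.conj_ofReal, hz,
          Pi.smul_apply, smul_eq_mul, mul_one]
        ring
      rw [conjTranspose_sub, f2, hX2, conjTranspose_sub, conjTranspose_smul, conjTranspose_smul,
        conjTranspose_sum, hV, Finset.sum_congr rfl fun i _ => f1 i, Finset.sum_sub_distrib,
        ← Finset.smul_sum, hq]
      simp only [RCLike.star_def, Complex.conj_ofReal]
      module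
    have e3 : G' - G'ᴴ = (2 * Complex.I) • (G' * q * G'ᴴ) := by
      have f1 : (Z - X)ᴴ * G'ᴴ = 1 := by
        rw [← conjTranspose_mul, hW', conjTranspose_one]
      calc G' - G'ᴴ = G' * ((Z - X)ᴴ * G'ᴴ) - (G' * (Z - X)) * G'ᴴ := by
            rw [f1, hW', Matrix.mul_one, Matrix.one_mul]
        _ = G' * ((Z - X)ᴴ - (Z - X)) * G'ᴴ := by
            simp only [Matrix.mul_sub, Matrix.sub_mul, Matrix.mul_assoc]
        _ = _ := by
            rw [e2, Matrix.mul_smul, Matrix.smul_mul]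
    have e4 : Imm G' = G' * q * G'ᴴ := by
      unfold Imm
      rw [e3, smul_smul]
      have : -Complex.I / 2 * (2 * Complex.I) = 1 := by
        linear_combination -Complex.I_mul_I
      rw [this, one_smul]
    rw [e4]
    calc Dd γ * (G' * q * G'ᴴ) * Dd γ = Dd γ * G' * 1 * q * 1 * (G'ᴴ * Dd γ) := by
          simp only [Matrix.mul_assoc, Matrix.one_mul, Matrix.mul_one]
      _ = Dd γ * G' * (Rr γ * Dd γ) * q * (Dd γ * Rr γ) * (G'ᴴ * Dd γ) := by
          rw [rd γ h.im, dr γ h.im]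
      _ = _ := by simp only [Matrix.mul_assoc]

end Pool.Agent.Helper32.BS
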