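import Pool.Graph.R_pool_sql_team_seeded_1acbe0a2.Y662.TR.L2
import Pool.Graph.R_seed8.TH369.AN.RES

/-! The operators on the product of a tree with a group. -/

set_option autoImplicit false
set_option linter.unusedSectionVars false
set_option linter.unusedSimpArgs false

open scoped BigOperators InnerProductSpace Topology
open Filter

namespace Pool.Agent.Helper32.BS

open Pool.Agent.TH369.AN (Rz rz_eq rz_uniq rz_norm)
open Pool.Agent.Y662.TR (LL lmk lmk_apply ll_inner ll_ext ll_summable ll_coord ll_sum dv dv_apply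
  dv_self dv_ne inner_dv norm_dv ev ev_apply add_coord sub_coord neg_coord smul_coord Cf Cf_apply
  Cf_norm Cf_dv Cf_dv_ne Cf_adj Cf_adj_ne Cf_adj_norm clp clp_abs clp_eq clp_cont Mw Mw_apply
  Mw_norm Mw_sa Mw_tendsto)

section maps

variable {X Y S : Type}

/-- the shift -/
def sh [AddGroup S] (e : S) (v : X × S) : X × S := (v.1, v.2 + e)

theorem sh_inj [AddGroup S] (e : S) : Function.Injective (sh (X := X) e) := by
  rintro ⟨l, x⟩ ⟨l', x'⟩ h
  unfold sh at h
  simp only [Prod.mk.injEq, add_left_inj] at h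
  exact Prod.ext h.1 h.2

/-- a map of the tree -/
def tm (f : X → Y) (v : X × S) : Y × S := (f v.1, v.2)

theorem tm_inj {f : X → Y} (hf : Function.Injective f) : Function.Injective (tm (S := S) f) := by
  rintro ⟨l, x⟩ ⟨l', x'⟩ h
  unfold tm at h
  simp only [Prod.mk.injEq] at h
  exact Prod.ext (hf h.1) h.2

theorem add_adj_sa {ι : Type} (A : LL ι →L[ℂ] LL ι) :
    IsSelfAdjoint (A + ContinuousLinearMap.adjoint A) := by
  have h := IsSelfAdjoint.add_star_self A
  rwa [ContinuousLinearMap.star_eq_adjoint] at h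

theorem add_adj_norm {ι : Type} (A : LL ι →L[ℂ] LL ι) (hA : ‖A‖ ≤ 1) :
    ‖A + ContinuousLinearMap.adjoint A‖ ≤ 2 := by
  refine (norm_add_le _ _).trans ?_
  rw [LinearIsometryEquiv.norm_map]
  linarith

theorem real_smul_sa {ι : Type} (c : ℝ) (A : LL ι →L[ℂ] LL ι) (hA : IsSelfAdjoint A) :
    IsSelfAdjoint ((c : ℂ) • A) := by
  rw [isSelfAdjoint_iff, star_smul, hA.star_eq]
  congr 1
  exact Complex.conj_ofReal _

/-- the hopping in the group -/
noncomputable def Ls [AddGroup S] {d : ℕ} (X : Type) (e : Fin d → S) :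
    LL (X × S) →L[ℂ] LL (X × S) :=
  ∑ i : Fin d, (Cf (sh (e i)) (sh_inj _) + ContinuousLinearMap.adjoint (Cf (sh (e i)) (sh_inj _)))

theorem sh_adj [AddGroup S] (e : S) (u : LL (X × S)) (v : X × S) :
    ContinuousLinearMap.adjoint (Cf (sh e) (sh_inj e)) u v = u (v.1, v.2 - e) := by
  have h : v = sh e (v.1, v.2 - e) := by
    unfold sh
    simp
  conv_lhs => rw [h]
  rw [Cf_adj]

theorem Ls_apply [AddGroup S] {d : ℕ} (e : Fin d → S) (u : LL (X × S)) (v : X × S) :
    Ls X e u v = ∑ i : Fin d, (u (v.1, v.2 + e i) + u (v.1, v.2 - e i)) := by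
  unfold Ls
  rw [← ev_apply v]
  simp only [ContinuousLinearMap.sum_apply, ContinuousLinearMap.add_apply, map_sum, map_add,
    ev_apply, sh_adj, Cf_apply]
  rfl

theorem Ls_sa [AddGroup S] {d : ℕ} (e : Fin d → S) : IsSelfAdjoint (Ls X e) := by
  unfold Ls
  exact isSelfAdjoint_sum _ fun i _ => add_adj_sa _

theorem Ls_norm [AddGroup S] {d : ℕ} (e : Fin d → S) : ‖Ls X e‖ ≤ 2 * d := by
  unfold Ls
  refine (norm_sum_le _ _).trans ?_
  refine (Finset.sum_le_sum fun i _ => add_adj_norm _ (Cf_norm _ _)).trans ?_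
  simp [mul_comm]

/-- the hopping to the children -/
noncomputable def Lt {K : ℕ} (c : Fin K → X → X) (hc : ∀ j, Function.Injective (c j)) (S : Type) :
    LL (X × S) →L[ℂ] LL (X × S) :=
  ∑ j : Fin K, (Cf (tm (c j)) (tm_inj (hc j)) +
    ContinuousLinearMap.adjoint (Cf (tm (c j)) (tm_inj (hc j))))

theorem Lt_sa {K : ℕ} (c : Fin K → X → X) (hc : ∀ j, Function.Injective (c j)) :
    IsSelfAdjoint (Lt c hc S) := by
  unfold Lt
  exact isSelfAdjoint_sum _ fun i _ => add_adj_sa _

theorem Lt_norm {K : ℕ} (c : Fin K → X → X) (hc : ∀ j, Function.Injective (c j)) :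
    ‖Lt c hc S‖ ≤ 2 * K := by
  unfold Lt
  refine (norm_sum_le _ _).trans ?_
  refine (Finset.sum_le_sum fun i _ => add_adj_norm _ (Cf_norm _ _)).trans ?_
  simp [mul_comm]

end maps

section half

variable {K d : ℕ} {S : Type} [AddGroup S]

/-- the children of a vertex of the rooted tree -/
def cc (j : Fin K) (l : List (Fin K)) : List (Fin K) := j :: l

theorem cc_inj (j : Fin K) : Function.Injective (cc j) := List.cons_injective

/-- the operator on the rooted tree -/
noncomputable def Th (K : ℕ) {d : ℕ} {S : Type} [AddGroup S] (e : Fin d → S) (a t B : ℝ)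
    (w : List (Fin K) × S → ℝ) : LL (List (Fin K) × S) →L[ℂ] LL (List (Fin K) × S) :=
  (a : ℂ) • 1 + Mw B w - Ls (List (Fin K)) e - (t : ℂ) • Lt cc cc_inj S

theorem Th_sa (e : Fin d → S) (a t B : ℝ) (w : List (Fin K) × S → ℝ) :
    IsSelfAdjoint (Th K e a t B w) := by
  unfold Th
  refine IsSelfAdjoint.sub (IsSelfAdjoint.sub (IsSelfAdjoint.add ?_ (Mw_sa B w)) (Ls_sa e))
    (real_smul_sa t _ (Lt_sa _ _))
  exact real_smul_sa a _ (IsSelfAdjoint.one _)

open Classical in
/-- the term of the parent -/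
noncomputable def parh (u : List (Fin K) × S → ℂ) : List (Fin K) × S → ℂ
  | ([], _) => 0
  | (_ :: l, x) => u (l, x)

theorem cc_adj_cons (j i : Fin K) (l : List (Fin K)) (x : S) (u : LL (List (Fin K) × S)) :
    ContinuousLinearMap.adjoint (Cf (tm (cc j)) (tm_inj (cc_inj j))) u (i :: l, x) =
      if j = i then u (l, x) else 0 := by
  by_cases h : j = i
  · subst h
    rw [if_pos rfl]
    have h1 : ((j :: l, x) : List (Fin K) × S) = tm (cc j) (l, x) := rfl
    rw [h1, Cf_adj]
  · rw [if_neg h, Cf_adj_ne]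
    rintro ⟨l', x'⟩ h2
    unfold tm cc at h2
    simp only [Prod.mk.injEq, List.cons.injEq] at h2
    exact h h2.1.1

theorem cc_adj_nil (j : Fin K) (x : S) (u : LL (List (Fin K) × S)) :
    ContinuousLinearMap.adjoint (Cf (tm (cc j)) (tm_inj (cc_inj j))) u ([], x) = 0 := by
  rw [Cf_adj_ne]
  rintro ⟨l', x'⟩ h2
  unfold tm cc at h2
  simp at h2

theorem Lt_apply (u : LL (List (Fin K) × S)) (v : List (Fin K) × S) :
    Lt cc cc_inj S u v = (∑ j : Fin K, u (j :: v.1, v.2)) + parh (fun w => u w) v := by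
  unfold Lt
  rw [← ev_apply v]
  simp only [ContinuousLinearMap.sum_apply, ContinuousLinearMap.add_apply, map_sum, map_add,
    ev_apply, Cf_apply, Finset.sum_add_distrib]
  congr 1
  obtain ⟨l, x⟩ := v
  cases l with
  | nil =>
    unfold parh
    exact Finset.sum_eq_zero fun j _ => cc_adj_nil j x u
  | cons i l =>
    simp only [cc_adj_cons, Finset.sum_ite_eq', Finset.mem_univ, if_true]
    rfl

theorem Th_apply (e : Fin d → S) (a t B : ℝ) (w : List (Fin K) × S → ℝ)
    (u : LL (List (Fin K) × S)) (v : List (Fin K) × S) :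
    Th K e a t B w u v = ((a + clp B (w v) : ℝ) : ℂ) * u v -
      (∑ i : Fin d, (u (v.1, v.2 + e i) + u (v.1, v.2 - e i))) -
      (t : ℂ) * ((∑ j : Fin K, u (j :: v.1, v.2)) + parh (fun w => u w) v) := by
  unfold Th
  rw [← ev_apply v]
  simp only [ContinuousLinearMap.add_apply, ContinuousLinearMap.sub_apply,
    ContinuousLinearMap.smul_apply, ContinuousLinearMap.one_apply, map_add, map_sub, map_smul,
    ev_apply, Mw_apply, Ls_apply, Lt_apply]
  push_cast
  simp only [smul_eq_mul]
  ring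

end half

section full

variable {K d : ℕ} {S : Type} [AddGroup S]

/-- the vertices of the regular tree: two rooted trees, the roots of which are joined -/
abbrev Tr (K : ℕ) : Type := Bool × List (Fin K)

def cf (j : Fin K) (p : Tr K) : Tr K := (p.1, j :: p.2)

theorem cf_inj (j : Fin K) : Function.Injective (cf j) := by
  rintro ⟨s, l⟩ ⟨s', l'⟩ h
  unfold cf at h
  simp only [Prod.mk.injEq, List.cons.injEq, true_and] at h
  exact Prod.ext h.1 h.2

def sf (p : Tr K) : Tr K := (!p.1, p.2)

theorem sf_inj : Function.Injective (sf (K := K)) := by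
  rintro ⟨s, l⟩ ⟨s', l'⟩ h
  unfold sf at h
  simp only [Prod.mk.injEq, Bool.not_eq_not] at h
  have : s = s' := by
    have := h.1
    revert this
    cases s <;> cases s' <;> simp
  exact Prod.ext this h.2

/-- the indicator of one of the roots -/
noncomputable def ri (v : Tr K × S) : ℝ := if v.1 = (true, []) then 1 else 0

/-- half of the hopping between the roots -/
noncomputable def Kr (K : ℕ) (S : Type) : LL (Tr K × S) →L[ℂ] LL (Tr K × S) :=
  Mw 1 ri * Cf (tm sf) (tm_inj sf_inj)

theorem Kr_norm : ‖Kr K S‖ ≤ 1 := by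
  unfold Kr
  refine (norm_mul_le _ _).trans ?_
  have h1 := Mw_norm 1 (ri (K := K) (S := S))
  have h2 := Cf_norm (tm (S := S) (sf (K := K))) (tm_inj sf_inj)
  rw [abs_one] at h1
  calc _ ≤ (1 : ℝ) * 1 := by gcongr
    _ = 1 := one_mul 1

/-- the parent -/
def pa : Tr K → Tr K
  | (s, []) => (!s, [])
  | (s, _ :: l) => (s, l)

theorem ri_clp (v : Tr K × S) : clp 1 (ri v) = ri v := by
  apply clp_eq
  unfold ri
  split_ifs <;> simp

theorem Kr_apply (u : LL (Tr K × S)) (v : Tr K × S) :
    Kr K S u v = if v.1 = (true, []) then u (pa v.1, v.2) else 0 := by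
  have h1 : Kr K S u v = ((clp 1 (ri v) : ℝ) : ℂ) * u (tm sf v) := rfl
  rw [h1, ri_clp]
  unfold ri
  split_ifs with h
  · unfold tm sf
    rw [h]
    simp [pa]
  · simp

theorem Kr_adj (u : LL (Tr K × S)) (v : Tr K × S) :
    ContinuousLinearMap.adjoint (Kr K S) u v = if v.1 = (false, []) then u (pa v.1, v.2) else 0 := by
  have h1 : ContinuousLinearMap.adjoint (Kr K S) u =
      ContinuousLinearMap.adjoint (Cf (tm (S := S) (sf (K := K))) (tm_inj sf_inj)) (Mw 1 ri u) := by
    unfold Kr
    rw [ContinuousLinearMap.mul_def, ContinuousLinearMap.adjoint_comp]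
    have h2 : ContinuousLinearMap.adjoint (Mw 1 (ri (K := K) (S := S))) = Mw 1 ri := by
      rw [← ContinuousLinearMap.star_eq_adjoint]
      exact (Mw_sa 1 _).star_eq
    rw [h2]
    rfl
  have h2 : v = tm sf (tm sf v) := by
    unfold tm sf
    simp
  rw [h1]
  conv_lhs => rw [h2]
  rw [Cf_adj, Mw_apply, ri_clp]
  obtain ⟨⟨s, l⟩, x⟩ := v
  unfold ri tm sf
  cases s
  · by_cases hl : l = []
    · subst hl
      simp [pa]
    · simp [hl]
  · simp

theorem Kr_sum (u : LL (Tr K × S)) (v : Tr K × S) :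
    (Kr K S + ContinuousLinearMap.adjoint (Kr K S)) u v =
      if v.1.2 = [] then u (pa v.1, v.2) else 0 := by
  have h1 : (Kr K S + ContinuousLinearMap.adjoint (Kr K S)) u v =
      Kr K S u v + ContinuousLinearMap.adjoint (Kr K S) u v := rfl
  rw [h1, Kr_apply, Kr_adj]
  obtain ⟨⟨s, l⟩, x⟩ := v
  by_cases hl : l = []
  · subst hl
    cases s <;> simp
  · cases s <;> simp [hl]

theorem cf_adj (j : Fin K) (s : Bool) (l : List (Fin K)) (x : S) (u : LL (Tr K × S)) :
    ContinuousLinearMap.adjoint (Cf (tm (cf j)) (tm_inj (cf_inj j))) u ((s, l), x) =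
      if l.head? = some j then u (pa (s, l), x) else 0 := by
  cases l with
  | nil =>
    rw [Cf_adj_ne]
    · simp
    · rintro ⟨l', x'⟩ h2
      unfold tm cf at h2
      simp at h2
  | cons i l =>
    by_cases h : j = i
    · subst h
      have h1 : (((s, j :: l), x) : Tr K × S) = tm (cf j) ((s, l), x) := rfl
      rw [h1, Cf_adj]
      simp [tm, cf, pa]
    · rw [Cf_adj_ne]
      · simp [Ne.symm h]
      · rintro ⟨l', x'⟩ h2
        unfold tm cf at h2
        simp only [Prod.mk.injEq, List.cons.injEq] at h2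
        exact h h2.1.2.1

theorem Ltf_apply (u : LL (Tr K × S)) (v : Tr K × S) :
    Lt cf cf_inj S u v = (∑ j : Fin K, u (cf j v.1, v.2)) +
      if v.1.2 = [] then 0 else u (pa v.1, v.2) := by
  unfold Lt
  rw [← ev_apply v]
  simp only [ContinuousLinearMap.sum_apply, ContinuousLinearMap.add_apply, map_sum, map_add,
    ev_apply, Cf_apply, Finset.sum_add_distrib]
  congr 1
  obtain ⟨⟨s, l⟩, x⟩ := v
  simp only [cf_adj]
  cases l with
  | nil => simp
  | cons i l => simp

/-- the operator on the regular tree -/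
noncomputable def Tf (K : ℕ) {d : ℕ} {S : Type} [AddGroup S] (e : Fin d → S) (a t B : ℝ)
    (w : Tr K × S → ℝ) : LL (Tr K × S) →L[ℂ] LL (Tr K × S) :=
  (a : ℂ) • 1 + Mw B w - Ls (Tr K) e - (t : ℂ) • Lt cf cf_inj S -
    (t : ℂ) • (Kr K S + ContinuousLinearMap.adjoint (Kr K S))

theorem Tf_sa (e : Fin d → S) (a t B : ℝ) (w : Tr K × S → ℝ) :
    IsSelfAdjoint (Tf K e a t B w) := by
  unfold Tf
  refine IsSelfAdjoint.sub (IsSelfAdjoint.sub (IsSelfAdjoint.sub (IsSelfAdjoint.add ?_ (Mw_sa B w))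
    (Ls_sa e)) (real_smul_sa t _ (Lt_sa _ _))) (real_smul_sa t _ (add_adj_sa _))
  exact real_smul_sa a _ (IsSelfAdjoint.one _)

theorem Tf_apply (e : Fin d → S) (a t B : ℝ) (w : Tr K × S → ℝ)
    (u : LL (Tr K × S)) (v : Tr K × S) :
    Tf K e a t B w u v = ((a + clp B (w v) : ℝ) : ℂ) * u v -
      (∑ i : Fin d, (u (v.1, v.2 + e i) + u (v.1, v.2 - e i))) -
      (t : ℂ) * ((∑ j : Fin K, u (cf j v.1, v.2)) + u (pa v.1, v.2)) := by
  unfold Tf
  have hK := Kr_sum u v
  obtain ⟨Q, hQ⟩ : ∃ Q, Q = Kr K S + ContinuousLinearMap.adjoint (Kr K S) := ⟨_, rfl⟩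
  rw [← hQ] at hK ⊢
  rw [← ev_apply v, ContinuousLinearMap.sub_apply, map_sub, ContinuousLinearMap.smul_apply,
    map_smul, ev_apply v (Q u), hK]
  simp only [ContinuousLinearMap.add_apply, ContinuousLinearMap.sub_apply,
    ContinuousLinearMap.smul_apply, ContinuousLinearMap.one_apply, map_add, map_sub, map_smul,
    ev_apply, Mw_apply, Ls_apply, Ltf_apply]
  push_cast
  simp only [smul_eq_mul]
  split_ifs <;> ring

end full

section sub

variable {K d : ℕ} {S : Type} [AddGroup S]

/-- **the subtree of a child of the vertex `l0`, in the rooted tree** -/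
theorem sub_half (e : Fin d → S) (a t B : ℝ) (w : List (Fin K) × S → ℝ) (j : Fin K)
    (l0 : List (Fin K)) (u : LL (List (Fin K) × S)) (v : List (Fin K) × S) :
    Th K e a t B (w ∘ tm (fun l => l ++ j :: l0))
      (Cf (tm (fun l => l ++ j :: l0)) (tm_inj (List.append_left_injective _)) u) v =
      Th K e a t B w u (tm (fun l => l ++ j :: l0) v) +
        (t : ℂ) * (if v.1 = [] then u (l0, v.2) else 0) := by
  rw [Th_apply, Th_apply]
  simp only [Cf_apply, tm, Function.comp]
  obtain ⟨l, x⟩ := v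
  cases l with
  | nil =>
    simp only [parh, List.nil_append, if_true, List.cons_append]
    ring
  | cons i l =>
    simp only [parh, List.cons_append, if_false, reduceCtorEq]
    ring

/-- **the subtree of a child of the vertex `l0`, in the regular tree** -/
theorem sub_full (e : Fin d → S) (a t B : ℝ) (w : Tr K × S → ℝ) (j : Fin K) (s : Bool)
    (l0 : List (Fin K)) (hf : Function.Injective fun l : List (Fin K) => ((s, l ++ j :: l0) : Tr K))
    (u : LL (Tr K × S)) (v : List (Fin K) × S) :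
    Th K e a t B (w ∘ tm (fun l => ((s, l ++ j :: l0) : Tr K)))
      (Cf (tm (fun l => ((s, l ++ j :: l0) : Tr K))) (tm_inj hf) u) v =
      Tf K e a t B w u (tm (fun l => ((s, l ++ j :: l0) : Tr K)) v) +
        (t : ℂ) * (if v.1 = [] then u ((s, l0), v.2) else 0) := by
  rw [Th_apply, Tf_apply]
  simp only [Cf_apply, tm, Function.comp]
  obtain ⟨l, x⟩ := v
  cases l with
  | nil =>
    simp only [parh, List.nil_append, if_true, List.cons_append, cf, pa]
    ring
  | cons i l =>
    simp only [parh, List.cons_append, if_false, reduceCtorEq, cf, pa]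
    ring

theorem jf_inj (j : Fin K) (s : Bool) (l0 : List (Fin K)) :
    Function.Injective fun l : List (Fin K) => ((s, l ++ j :: l0) : Tr K) := by
  intro l l' h
  simp only [Prod.mk.injEq, true_and] at h
  exact List.append_left_injective _ h

end sub

end Pool.Agent.Helper32.BS
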