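import Pool.Agent.Helper32.BS.Step

/-! The perturbation by the potential. -/

set_option autoImplicit false
set_option linter.unusedSectionVars false
set_option linter.unusedSimpArgs false

open scoped BigOperators Matrix ComplexOrder MatrixOrder
open Matrix

namespace Pool.Agent.Helper32.BS

variable {n : Type} [Fintype n] [DecidableEq n]

/-- the perturbed point -/
noncomputable def pt (μ : ℝ) (V F : Matrix n n ℂ) : Matrix n n ℂ := F - (μ : ℂ) • V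

theorem imm_pt (μ : ℝ) (V F : Matrix n n ℂ) (hV : Vᴴ = V) : Imm (pt μ V F) = Imm F := by
  unfold Imm pt
  rw [conjTranspose_sub, conjTranspose_smul, hV, RCLike.star_def, Complex.conj_ofReal]
  congr 1
  abel

theorem nn_pt (μ : ℝ) (V F : Matrix n n ℂ) : Nn (pt μ V F) = Nn F - (μ : ℂ) • V := by
  unfold Nn pt
  abel

theorem yy_pt (μ : ℝ) (V F : Matrix n n ℂ) : Yy (pt μ V F) = Yy F - (μ : ℂ) • V := by
  unfold Yy pt
  abel

/-- the error -/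
noncomputable def Ee (V F : Matrix n n ℂ) : Matrix n n ℂ := V * (Imm F)⁻¹ * V

theorem ee_psd (V F : Matrix n n ℂ) (hV : Vᴴ = V) (hF : (Imm F).PosDef) :
    (Ee V F).PosSemidef := by
  have h := hF.inv.posSemidef.mul_mul_conjTranspose_same V
  rw [hV] at h
  exact h

/-- Young's inequality for operators -/
theorem young_psd (A V r : Matrix n n ℂ) (hV : Vᴴ = V) (hr : r.PosSemidef) (μ : ℝ) (hμ : 0 ≤ μ) :
    (((1 + μ : ℝ) : ℂ) • (Aᴴ * r * A) + ((μ + μ ^ 2 : ℝ) : ℂ) • (V * r * V) -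
      (A - (μ : ℂ) • V)ᴴ * r * (A - (μ : ℂ) • V)).PosSemidef := by
  have h1 : ((1 + μ : ℝ) : ℂ) • (Aᴴ * r * A) + ((μ + μ ^ 2 : ℝ) : ℂ) • (V * r * V) -
      (A - (μ : ℂ) • V)ᴴ * r * (A - (μ : ℂ) • V) = (μ : ℂ) • ((A + V)ᴴ * r * (A + V)) := by
    rw [conjTranspose_sub, conjTranspose_smul, conjTranspose_add, hV, RCLike.star_def,
      Complex.conj_ofReal]
    simp only [Matrix.add_mul, Matrix.mul_add, Matrix.sub_mul, Matrix.mul_sub, Matrix.smul_mul,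
      Matrix.mul_smul, smul_smul, smul_sub, smul_add]
    push_cast
    module
  rw [h1]
  have h2 : (0 : ℂ) ≤ (μ : ℂ) := by exact_mod_cast hμ
  exact (hr.conjTranspose_mul_mul_same _).smul h2

variable (μ : ℝ) (V F : Matrix n n ℂ) (hV : Vᴴ = V) (hF : (Imm F).PosDef) (hμ : 0 < μ)
  (hμ1 : μ ≤ 1)

include hV hF hμ hμ1

theorem cube_le : (1 + μ) ^ 3 ≤ 1 + 7 * μ ∧ (1 + μ) ^ 3 ≤ 8 := by
  constructor
  · nlinarith [mul_pos hμ hμ, mul_le_mul_of_nonneg_left hμ1 hμ.le,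
      mul_le_mul_of_nonneg_left hμ1 (mul_pos hμ hμ).le]
  · have : 1 + μ ≤ 2 := by linarith
    calc (1 + μ) ^ 3 ≤ 2 ^ 3 := by gcongr
      _ = 8 := by norm_num

theorem pert_m : hs (Dm (pt μ V F)) ≤ (1 + 7 * μ) * hs (Dm F) + 8 * μ * hs (Ee V F) := by
  have h1 : (((1 + μ : ℝ) : ℂ) • Dm F + ((μ + μ ^ 2 : ℝ) : ℂ) • Ee V F -
      Dm (pt μ V F)).PosSemidef := by
    have := young_psd (Yy F) V (Imm F)⁻¹ hV hF.inv.posSemidef μ hμ.le
    unfold Dm Ee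
    rw [imm_pt μ V F hV, yy_pt]
    exact this
  have hF2 : (Imm (pt μ V F)).PosDef := by rwa [imm_pt μ V F hV]
  have h2 := hs_mono _ _ (dm_psd _ hF2) h1
  have h3 := hs_young (((1 + μ : ℝ) : ℂ) • Dm F) (((μ + μ ^ 2 : ℝ) : ℂ) • Ee V F) hμ
  rw [hs_smul, hs_smul, Complex.norm_real, Complex.norm_real, Real.norm_eq_abs, Real.norm_eq_abs,
    sq_abs, sq_abs] at h3
  obtain ⟨h4, h5⟩ := cube_le μ V F hV hF hμ hμ1
  have h6 : (1 + 1 / μ) * ((μ + μ ^ 2) ^ 2 * hs (Ee V F)) = μ * (1 + μ) ^ 3 * hs (Ee V F) := by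
    field_simp
    ring
  rw [h6] at h3
  have h7 := hs_nonneg (Dm F)
  have h8 := hs_nonneg (Ee V F)
  have h9 : (1 + μ) * ((1 + μ) ^ 2 * hs (Dm F)) ≤ (1 + 7 * μ) * hs (Dm F) := by
    have : (1 + μ) * ((1 + μ) ^ 2 * hs (Dm F)) = (1 + μ) ^ 3 * hs (Dm F) := by ring
    rw [this]
    gcongr
  have h10 : μ * (1 + μ) ^ 3 * hs (Ee V F) ≤ 8 * μ * hs (Ee V F) := by
    have : μ * (1 + μ) ^ 3 ≤ 8 * μ := by nlinarith
    gcongr
  linarith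

theorem pert_z : hs (Dz (pt μ V F)) ≤ (1 + 7 * μ) * hs (Dz F) + 16 * μ * hs (Ee V F) +
    64 * μ * Fintype.card n := by
  have hF2 : (Imm (pt μ V F)).PosDef := by rwa [imm_pt μ V F hV]
  have h1 : (((1 + μ : ℝ) : ℂ) • Dz F + (((μ + μ ^ 2 : ℝ) : ℂ) • Ee V F + ((4 * μ : ℝ) : ℂ) • 1) -
      Dz (pt μ V F)).PosSemidef := by
    have := young_psd (Nn F) V (Imm F)⁻¹ hV hF.inv.posSemidef μ hμ.le
    have e1 : (Nn F)ᴴ * (Imm F)⁻¹ * Nn F = Dz F + (4 : ℂ) • 1 := dp_eq F hF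
    have e2 : (Nn F - (μ : ℂ) • V)ᴴ * (Imm F)⁻¹ * (Nn F - (μ : ℂ) • V) =
        Dz (pt μ V F) + (4 : ℂ) • 1 := by
      rw [← dp_eq _ hF2]
      unfold Dp
      rw [imm_pt μ V F hV, nn_pt]
    rw [e1, e2] at this
    have e3 : ((1 + μ : ℝ) : ℂ) • Dz F + (((μ + μ ^ 2 : ℝ) : ℂ) • Ee V F + ((4 * μ : ℝ) : ℂ) • 1) -
      Dz (pt μ V F) = ((1 + μ : ℝ) : ℂ) • (Dz F + (4 : ℂ) • 1) +
        ((μ + μ ^ 2 : ℝ) : ℂ) • (V * (Imm F)⁻¹ * V) - (Dz (pt μ V F) + (4 : ℂ) • 1) := by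
      unfold Ee
      push_cast
      module
    rw [e3]
    exact this
  have h2 := hs_mono _ _ (dz_psd _ hF2) h1
  have h3 := hs_young (((1 + μ : ℝ) : ℂ) • Dz F)
    (((μ + μ ^ 2 : ℝ) : ℂ) • Ee V F + ((4 * μ : ℝ) : ℂ) • 1) hμ
  have h3' := hs_add (((μ + μ ^ 2 : ℝ) : ℂ) • Ee V F) (((4 * μ : ℝ) : ℂ) • (1 : Matrix n n ℂ))
  rw [hs_smul, hs_smul, Complex.norm_real, Complex.norm_real, Real.norm_eq_abs, Real.norm_eq_abs,
    sq_abs, sq_abs, hs_one F hF] at h3'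
  rw [hs_smul, Complex.norm_real, Real.norm_eq_abs, sq_abs] at h3
  obtain ⟨h4, h5⟩ := cube_le μ V F hV hF hμ hμ1
  have hn : (0 : ℝ) ≤ Fintype.card n := by positivity
  have h6 : (1 + 1 / μ) * (2 * ((μ + μ ^ 2) ^ 2 * hs (Ee V F)) + 2 * ((4 * μ) ^ 2 *
      (Fintype.card n : ℝ))) = 2 * (μ * (1 + μ) ^ 3 * hs (Ee V F)) +
        32 * (μ * (1 + μ) * (Fintype.card n : ℝ)) := by
    field_simp
    ring
  have h3'' : (1 + 1 / μ) * hs (((μ + μ ^ 2 : ℝ) : ℂ) • Ee V F + ((4 * μ : ℝ) : ℂ) • 1) ≤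
      2 * (μ * (1 + μ) ^ 3 * hs (Ee V F)) + 32 * (μ * (1 + μ) * (Fintype.card n : ℝ)) := by
    rw [← h6]
    gcongr
  have h7 := hs_nonneg (Dz F)
  have h8 := hs_nonneg (Ee V F)
  have h9 : (1 + μ) * ((1 + μ) ^ 2 * hs (Dz F)) ≤ (1 + 7 * μ) * hs (Dz F) := by
    have : (1 + μ) * ((1 + μ) ^ 2 * hs (Dz F)) = (1 + μ) ^ 3 * hs (Dz F) := by ring
    rw [this]
    gcongr
  have h10 : μ * (1 + μ) ^ 3 * hs (Ee V F) ≤ 8 * μ * hs (Ee V F) := by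
    have : μ * (1 + μ) ^ 3 ≤ 8 * μ := by nlinarith
    gcongr
  have h11 : μ * (1 + μ) * (Fintype.card n : ℝ) ≤ 2 * μ * (Fintype.card n : ℝ) := by
    have : μ * (1 + μ) ≤ 2 * μ := by nlinarith
    gcongr
  linarith

theorem pert_x : hs (Xx (pt μ V F) - Xx F) ≤ μ ^ 2 * (4 * hs (Dp F) + 6 * hs (Ee V F)) := by
  obtain ⟨R, hR⟩ := gram _ hF.inv.posSemidef
  have c1 : hs ((Nn F)ᴴ * (Imm F)⁻¹ * V) ≤ (hs (Dp F) + hs (Ee V F)) / 2 := by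
    have := hs_cross (R * Nn F) (R * V)
    have e1 : (R * Nn F)ᴴ * (R * V) = (Nn F)ᴴ * (Imm F)⁻¹ * V := by
      rw [hR, conjTranspose_mul]
      simp only [Matrix.mul_assoc]
    have e2 : (R * Nn F)ᴴ * (R * Nn F) = Dp F := by
      unfold Dp
      rw [hR, conjTranspose_mul]
      simp only [Matrix.mul_assoc]
    have e3 : (R * V)ᴴ * (R * V) = Ee V F := by
      unfold Ee
      rw [hR, conjTranspose_mul, hV]
      simp only [Matrix.mul_assoc]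
    rwa [e1, e2, e3] at this
  have c2 : hs (V * (Imm F)⁻¹ * Yy F) ≤ (hs (Ee V F) + hs (Dm F)) / 2 := by
    have := hs_cross (R * V) (R * Yy F)
    have e1 : (R * V)ᴴ * (R * Yy F) = V * (Imm F)⁻¹ * Yy F := by
      rw [hR, conjTranspose_mul, hV]
      simp only [Matrix.mul_assoc]
    have e2 : (R * Yy F)ᴴ * (R * Yy F) = Dm F := by
      unfold Dm
      rw [hR, conjTranspose_mul]
      simp only [Matrix.mul_assoc]
    have e3 : (R * V)ᴴ * (R * V) = Ee V F := by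
      unfold Ee
      rw [hR, conjTranspose_mul, hV]
      simp only [Matrix.mul_assoc]
    rwa [e1, e2, e3] at this
  have h1 : Xx (pt μ V F) - Xx F = (-(μ : ℂ)) • ((Nn F)ᴴ * (Imm F)⁻¹ * V +
      V * (Imm F)⁻¹ * Yy F) + ((μ : ℂ) ^ 2) • Ee V F := by
    unfold Xx Ee
    rw [imm_pt μ V F hV, nn_pt, yy_pt, conjTranspose_sub, conjTranspose_smul, hV, RCLike.star_def,
      Complex.conj_ofReal]
    simp only [Matrix.add_mul, Matrix.mul_add, Matrix.sub_mul, Matrix.mul_sub, Matrix.smul_mul,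
      Matrix.mul_smul, smul_smul, smul_sub, smul_add]
    module
  rw [h1]
  have h2 := hs_add ((-(μ : ℂ)) • ((Nn F)ᴴ * (Imm F)⁻¹ * V + V * (Imm F)⁻¹ * Yy F))
    (((μ : ℂ) ^ 2) • Ee V F)
  have h3 := hs_add ((Nn F)ᴴ * (Imm F)⁻¹ * V) (V * (Imm F)⁻¹ * Yy F)
  rw [hs_smul, hs_smul, norm_neg, norm_pow, Complex.norm_real, Real.norm_eq_abs, sq_abs] at h2
  have h4 := (dm_le_xx F hF).trans (xx_le_dp F hF)
  have h5 := hs_nonneg (Ee V F)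
  have h6 : (μ ^ 2) ^ 2 ≤ μ ^ 2 := by
    have : μ ^ 2 ≤ 1 := by nlinarith
    nlinarith [sq_nonneg μ]
  have h7 : (μ ^ 2) ^ 2 * hs (Ee V F) ≤ μ ^ 2 * hs (Ee V F) := by gcongr
  have h8 : μ ^ 2 * hs ((Nn F)ᴴ * (Imm F)⁻¹ * V + V * (Imm F)⁻¹ * Yy F) ≤
      μ ^ 2 * (2 * hs (Dp F) + 2 * hs (Ee V F)) := by
    gcongr
    linarith
  nlinarith

end Pool.Agent.Helper32.BS
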