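import Pool.Agent.Helper32.BS.HS

/-! Joint convexity, and the three matrices of a point of the Siegel half space. -/

set_option autoImplicit false
set_option linter.unusedSectionVars false
set_option linter.unusedSimpArgs false

open scoped BigOperators Matrix ComplexOrder MatrixOrder
open Matrix

namespace Pool.Agent.Helper32.BS

section joint

variable {ι m n p : Type} [Fintype ι] [Fintype m] [Fintype n] [Fintype p] [DecidableEq n]

/-- the defect of joint convexity -/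
noncomputable def dfc (Q : ι → Matrix n n ℂ) (N : ι → Matrix n m ℂ) (Y : ι → Matrix n p ℂ) :
    Matrix m p ℂ :=
  ∑ i, (N i)ᴴ * (Q i)⁻¹ * Y i - (∑ i, N i)ᴴ * (∑ i, Q i)⁻¹ * ∑ i, Y i

theorem dfc_eq [Nonempty ι] (Q : ι → Matrix n n ℂ) (hQ : ∀ i, (Q i).PosDef)
    (N : ι → Matrix n m ℂ) (Y : ι → Matrix n p ℂ) :
    dfc Q N Y = ∑ i, (N i - Q i * ((∑ i, Q i)⁻¹ * ∑ i, N i))ᴴ * (Q i)⁻¹ *
      (Y i - Q i * ((∑ i, Q i)⁻¹ * ∑ i, Y i)) := by
  obtain ⟨S, hS⟩ : ∃ S, S = ∑ i, Q i := ⟨_, rfl⟩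
  have hSp : S.PosDef := by
    rw [hS]
    exact posDef_sum Finset.univ_nonempty fun i _ => hQ i
  have hSi : S⁻¹ * S = 1 := nonsing_inv_mul _ ((isUnit_iff_isUnit_det _).1 hSp.isUnit)
  have hSh : (S⁻¹)ᴴ = S⁻¹ := hSp.inv.isHermitian.eq
  unfold dfc
  rw [← hS]
  obtain ⟨a, ha⟩ : ∃ a, a = ∑ i, N i := ⟨_, rfl⟩
  obtain ⟨c, hc⟩ : ∃ c, c = ∑ i, Y i := ⟨_, rfl⟩
  rw [← ha, ← hc]
  have h1 : ∀ i, (N i - Q i * (S⁻¹ * a))ᴴ * (Q i)⁻¹ * (Y i - Q i * (S⁻¹ * c)) =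
      (N i)ᴴ * (Q i)⁻¹ * Y i - (N i)ᴴ * (S⁻¹ * c) - aᴴ * S⁻¹ * Y i +
        aᴴ * S⁻¹ * (Q i) * (S⁻¹ * c) := by
    intro i
    have u1 : Q i * (Q i)⁻¹ = 1 := mul_nonsing_inv _ ((isUnit_iff_isUnit_det _).1 (hQ i).isUnit)
    have u2 : (Q i)⁻¹ * Q i = 1 := nonsing_inv_mul _ ((isUnit_iff_isUnit_det _).1 (hQ i).isUnit)
    have u3 : (Q i)ᴴ = Q i := (hQ i).isHermitian.eq
    rw [conjTranspose_sub, conjTranspose_mul, conjTranspose_mul, u3, hSh]
    have e1 : (aᴴ * S⁻¹ * Q i) * (Q i)⁻¹ = aᴴ * S⁻¹ := by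
      rw [Matrix.mul_assoc, u1, Matrix.mul_one]
    have e2 : ∀ M : Matrix m n ℂ, M * (Q i)⁻¹ * (Q i * (S⁻¹ * c)) = M * (S⁻¹ * c) := by
      intro M
      rw [← Matrix.mul_assoc (M * (Q i)⁻¹), Matrix.mul_assoc M, u2, Matrix.mul_one]
    rw [Matrix.sub_mul, e1, Matrix.sub_mul, Matrix.mul_sub, Matrix.mul_sub, e2]
    have e3 : aᴴ * S⁻¹ * (Q i * (S⁻¹ * c)) = aᴴ * S⁻¹ * Q i * (S⁻¹ * c) := by
      rw [← Matrix.mul_assoc]
    rw [e3]
    abel
  simp only [h1]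
  rw [Finset.sum_add_distrib, Finset.sum_sub_distrib, Finset.sum_sub_distrib]
  have h2 : ∑ i, (N i)ᴴ * (S⁻¹ * c) = aᴴ * (S⁻¹ * c) := by
    rw [← Matrix.sum_mul, ha, conjTranspose_sum]
  have h3 : ∑ i, aᴴ * S⁻¹ * Y i = aᴴ * S⁻¹ * c := by
    rw [← Matrix.mul_sum, hc]
  have h4 : ∑ i, aᴴ * S⁻¹ * Q i * (S⁻¹ * c) = aᴴ * S⁻¹ * c := by
    rw [← Matrix.sum_mul, ← Matrix.mul_sum, ← hS, Matrix.mul_assoc aᴴ, hSi, Matrix.mul_one,
      Matrix.mul_assoc]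
  rw [h2, h3, h4, Matrix.mul_assoc]
  abel

/-- the defects are Gram matrices -/
theorem dfc_gram [Nonempty ι] (Q : ι → Matrix n n ℂ) (hQ : ∀ i, (Q i).PosDef)
    (N : ι → Matrix n m ℂ) (Y : ι → Matrix n p ℂ) :
    ∃ (C : Matrix (ι × n) m ℂ) (E : Matrix (ι × n) p ℂ), dfc Q N N = Cᴴ * C ∧
      dfc Q Y Y = Eᴴ * E ∧ dfc Q N Y = Cᴴ * E := by
  choose R hR using fun i => gram (Q i)⁻¹ (hQ i).inv.posSemidef
  obtain ⟨A, hA⟩ : ∃ A : ι → Matrix n m ℂ, A = fun i => N i - Q i * ((∑ i, Q i)⁻¹ * ∑ i, N i) :=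
    ⟨_, rfl⟩
  obtain ⟨B, hB⟩ : ∃ B : ι → Matrix n p ℂ, B = fun i => Y i - Q i * ((∑ i, Q i)⁻¹ * ∑ i, Y i) :=
    ⟨_, rfl⟩
  have key : ∀ {r q : Type} [Fintype r] [Fintype q] (A : ι → Matrix n r ℂ) (B : ι → Matrix n q ℂ),
      ∑ i, (A i)ᴴ * (Q i)⁻¹ * B i =
        (Matrix.of fun (x : ι × n) j => (R x.1 * A x.1) x.2 j)ᴴ *
          (Matrix.of fun (x : ι × n) j => (R x.1 * B x.1) x.2 j) := by
    intro r q _ _ A B
    ext j k
    rw [Matrix.sum_apply, Matrix.mul_apply, Fintype.sum_prod_type]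
    refine Finset.sum_congr rfl fun i _ => ?_
    rw [hR i]
    have : (A i)ᴴ * ((R i)ᴴ * R i) * B i = (R i * A i)ᴴ * (R i * B i) := by
      rw [conjTranspose_mul]
      simp only [Matrix.mul_assoc]
    rw [this, Matrix.mul_apply]
    rfl
  refine ⟨Matrix.of fun (x : ι × n) j => (R x.1 * A x.1) x.2 j,
    Matrix.of fun (x : ι × n) j => (R x.1 * B x.1) x.2 j, ?_, ?_, ?_⟩
  · rw [dfc_eq Q hQ, ← key A A, hA]
  · rw [dfc_eq Q hQ, ← key B B, hB]
  · rw [dfc_eq Q hQ, ← key A B, hA, hB]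

theorem dfc_psd [Nonempty ι] (Q : ι → Matrix n n ℂ) (hQ : ∀ i, (Q i).PosDef)
    (N : ι → Matrix n m ℂ) : (dfc Q N N).PosSemidef := by
  obtain ⟨C, -, h, -, -⟩ := dfc_gram Q hQ N N
  rw [h]
  exact posSemidef_conjTranspose_mul_self C

end joint

section point

variable {n : Type} [Fintype n] [DecidableEq n]

/-- the imaginary part -/
noncomputable def Imm (F : Matrix n n ℂ) : Matrix n n ℂ := (-Complex.I / 2) • (F - Fᴴ)

/-- `F + i` -/
noncomputable def Nn (F : Matrix n n ℂ) : Matrix n n ℂ := F + Complex.I • 1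

/-- `F - i` -/
noncomputable def Yy (F : Matrix n n ℂ) : Matrix n n ℂ := F - Complex.I • 1

noncomputable def Dp (F : Matrix n n ℂ) : Matrix n n ℂ := (Nn F)ᴴ * (Imm F)⁻¹ * Nn F
noncomputable def Dm (F : Matrix n n ℂ) : Matrix n n ℂ := (Yy F)ᴴ * (Imm F)⁻¹ * Yy F
noncomputable def Xx (F : Matrix n n ℂ) : Matrix n n ℂ := (Nn F)ᴴ * (Imm F)⁻¹ * Yy F
noncomputable def Dz (F : Matrix n n ℂ) : Matrix n n ℂ := Yy F * (Imm F)⁻¹ * (Yy F)ᴴ

theorem imm_sub (F : Matrix n n ℂ) : F - Fᴴ = (2 * Complex.I) • Imm F := by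
  unfold Imm
  rw [smul_smul]
  have : 2 * Complex.I * (-Complex.I / 2) = 1 := by
    have := Complex.I_mul_I
    linear_combination -this
  rw [this, one_smul]

theorem imm_eq (F : Matrix n n ℂ) : F = Fᴴ + (2 * Complex.I) • Imm F := by
  rw [← imm_sub]
  abel

theorem nn_conj (F : Matrix n n ℂ) : (Nn F)ᴴ = Fᴴ - Complex.I • 1 := by
  unfold Nn
  rw [conjTranspose_add, conjTranspose_smul, conjTranspose_one, RCLike.star_def, Complex.conj_I,
    neg_smul, sub_eq_add_neg]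

theorem yy_conj (F : Matrix n n ℂ) : (Yy F)ᴴ = Fᴴ + Complex.I • 1 := by
  unfold Yy
  rw [conjTranspose_sub, conjTranspose_smul, conjTranspose_one, RCLike.star_def, Complex.conj_I,
    neg_smul, sub_neg_eq_add]

theorem nn_eq (F : Matrix n n ℂ) : Nn F = (Yy F)ᴴ + (2 * Complex.I) • Imm F := by
  rw [yy_conj]
  unfold Nn
  conv_lhs => rw [imm_eq F]
  abel

theorem nn_conj_eq (F : Matrix n n ℂ) : (Nn F)ᴴ = Yy F - (2 * Complex.I) • Imm F := by
  rw [nn_conj, ← imm_sub]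
  unfold Yy
  abel

theorem nn_nn (F : Matrix n n ℂ) : Nn F * (Nn F)ᴴ = Yy F * (Yy F)ᴴ + (4 : ℂ) • Imm F := by
  have h : (4 : ℂ) • Imm F = (-2 * Complex.I) • (F - Fᴴ) := by
    rw [imm_sub, smul_smul]
    congr 1
    have := Complex.I_mul_I
    linear_combination 4 * this
  rw [h, nn_conj, yy_conj]
  unfold Nn Yy
  simp only [Matrix.add_mul, Matrix.sub_mul, Matrix.mul_add, Matrix.mul_sub, Matrix.smul_mul,
    Matrix.mul_smul, Matrix.one_mul, Matrix.mul_one, smul_smul, smul_sub, smul_add]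
  module


variable (F : Matrix n n ℂ) (hF : (Imm F).PosDef)

include hF

theorem im_inv : Imm F * (Imm F)⁻¹ = 1 ∧ (Imm F)⁻¹ * Imm F = 1 :=
  ⟨mul_nonsing_inv _ ((isUnit_iff_isUnit_det _).1 hF.isUnit),
    nonsing_inv_mul _ ((isUnit_iff_isUnit_det _).1 hF.isUnit)⟩

theorem inv_herm : ((Imm F)⁻¹)ᴴ = (Imm F)⁻¹ := hF.inv.isHermitian.eq

theorem dp_eq : Dp F = Dz F + (4 : ℂ) • 1 := by
  obtain ⟨h1, h2⟩ := im_inv F hF
  unfold Dp Dz
  rw [nn_conj_eq, nn_eq]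
  obtain ⟨q, hq⟩ : ∃ q, q = Imm F := ⟨_, rfl⟩
  obtain ⟨r, hr⟩ : ∃ r, r = (Imm F)⁻¹ := ⟨_, rfl⟩
  obtain ⟨y, hy⟩ : ∃ y, y = Yy F := ⟨_, rfl⟩
  rw [← hr] at h1 h2 ⊢
  have h3 : y - yᴴ = (2 * Complex.I) • q - (2 * Complex.I) • 1 := by
    rw [hy, yy_conj, hq, ← imm_sub]
    unfold Yy
    module
  rw [← hq, ← hy] at *
  have h4 : (y - (2 * Complex.I) • q) * r * (yᴴ + (2 * Complex.I) • q) =
      y * r * yᴴ + (2 * Complex.I) • (y - yᴴ) + (4 : ℂ) • q := by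
    have e1 : y * r * q = y := by rw [Matrix.mul_assoc, h2, Matrix.mul_one]
    have e2 : q * r * yᴴ = yᴴ := by rw [h1, Matrix.one_mul]
    have e3 : q * r * q = q := by rw [h1, Matrix.one_mul]
    simp only [Matrix.add_mul, Matrix.sub_mul, Matrix.mul_add, Matrix.mul_sub, Matrix.smul_mul,
      Matrix.mul_smul, smul_smul, smul_sub, smul_add, e1, e2, e3]
    have e4 : (2 * Complex.I * (2 * Complex.I)) = -4 := by
      linear_combination 4 * Complex.I_mul_I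
    rw [e4]
    module
  rw [h4, h3]
  simp only [smul_sub, smul_smul]
  have e4 : (2 * Complex.I * (2 * Complex.I)) = -4 := by
    linear_combination 4 * Complex.I_mul_I
  rw [e4]
  module

theorem dz_psd : (Dz F).PosSemidef := by
  unfold Dz
  exact hF.inv.posSemidef.mul_mul_conjTranspose_same _

theorem dp_psd : (Dp F).PosSemidef := by
  unfold Dp
  exact hF.inv.posSemidef.conjTranspose_mul_mul_same _

theorem dm_psd : (Dm F).PosSemidef := by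
  unfold Dm
  exact hF.inv.posSemidef.conjTranspose_mul_mul_same _

theorem xx_conj : (Xx F)ᴴ = (Yy F)ᴴ * (Imm F)⁻¹ * Nn F := by
  unfold Xx
  rw [conjTranspose_mul, conjTranspose_mul, conjTranspose_conjTranspose, inv_herm F hF,
    Matrix.mul_assoc]

theorem xx_left : (Xx F)ᴴ * Xx F = Dm F * Dm F + (4 : ℂ) • Dm F := by
  obtain ⟨h1, h2⟩ := im_inv F hF
  rw [xx_conj F hF]
  unfold Xx Dm
  have h3 := nn_nn F
  obtain ⟨q, hq⟩ : ∃ q, q = Imm F := ⟨_, rfl⟩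
  obtain ⟨r, hr⟩ : ∃ r, r = (Imm F)⁻¹ := ⟨_, rfl⟩
  rw [← hr] at h1 h2 ⊢
  rw [← hq] at h1 h2 h3
  calc (Yy F)ᴴ * r * Nn F * ((Nn F)ᴴ * r * Yy F) =
      (Yy F)ᴴ * r * (Nn F * (Nn F)ᴴ) * r * Yy F := by simp only [Matrix.mul_assoc]
    _ = (Yy F)ᴴ * r * (Yy F * (Yy F)ᴴ) * r * Yy F + (4 : ℂ) • ((Yy F)ᴴ * (r * q) * r * Yy F) := by
        rw [h3]
        simp only [Matrix.mul_add, Matrix.add_mul, Matrix.mul_smul, Matrix.smul_mul,
          Matrix.mul_assoc]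
    _ = _ := by
        rw [h2, Matrix.mul_one]
        simp only [Matrix.mul_assoc]

theorem xx_right : Xx F * (Xx F)ᴴ = Dz F * Dz F + (4 : ℂ) • Dz F := by
  obtain ⟨h1, h2⟩ := im_inv F hF
  have h5 := dp_eq F hF
  have h0 : Xx F * (Xx F)ᴴ = Dp F * Dp F - (4 : ℂ) • Dp F := by
    rw [xx_conj F hF]
    unfold Xx Dp
    have h3 := nn_nn F
    obtain ⟨q, hq⟩ : ∃ q, q = Imm F := ⟨_, rfl⟩
    obtain ⟨r, hr⟩ : ∃ r, r = (Imm F)⁻¹ := ⟨_, rfl⟩
    rw [← hr] at h1 h2 ⊢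
    rw [← hq] at h1 h2 h3
    have h4 : Yy F * (Yy F)ᴴ = Nn F * (Nn F)ᴴ - (4 : ℂ) • q := by
      rw [h3]
      abel
    calc (Nn F)ᴴ * r * Yy F * ((Yy F)ᴴ * r * Nn F) =
        (Nn F)ᴴ * r * (Yy F * (Yy F)ᴴ) * r * Nn F := by simp only [Matrix.mul_assoc]
      _ = (Nn F)ᴴ * r * (Nn F * (Nn F)ᴴ) * r * Nn F - (4 : ℂ) • ((Nn F)ᴴ * (r * q) * r * Nn F) := by
          rw [h4]
          simp only [Matrix.mul_sub, Matrix.sub_mul, Matrix.mul_smul, Matrix.smul_mul,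
            Matrix.mul_assoc]
      _ = _ := by
          rw [h2, Matrix.mul_one]
          simp only [Matrix.mul_assoc]
  rw [h0, h5]
  simp only [Matrix.add_mul, Matrix.mul_add, Matrix.smul_mul, Matrix.mul_smul, Matrix.mul_one,
    Matrix.one_mul, smul_add, smul_smul]
  module

theorem hs_xx_left : hs (Xx F) = hs (Dm F) + 4 * (trace (Dm F)).re := by
  rw [hs_trace, hs_trace, xx_left F hF, (dm_psd F hF).isHermitian.eq, trace_add, trace_smul]
  simp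

theorem hs_xx_right : hs (Xx F) = hs (Dz F) + 4 * (trace (Dz F)).re := by
  rw [hs_trace', hs_trace, xx_right F hF, (dz_psd F hF).isHermitian.eq, trace_add, trace_smul]
  simp

theorem dm_le_xx : hs (Dm F) ≤ hs (Xx F) := by
  have h1 := hs_xx_left F hF
  have h2 := (Complex.le_def.1 (dm_psd F hF).trace_nonneg).1
  simp only [Complex.zero_re] at h2
  linarith

theorem dz_le_xx : hs (Dz F) ≤ hs (Xx F) := by
  have h1 := hs_xx_right F hF
  have h2 := (Complex.le_def.1 (dz_psd F hF).trace_nonneg).1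
  simp only [Complex.zero_re] at h2
  linarith

theorem hs_dp : hs (Dp F) = hs (Dz F) + 8 * (trace (Dz F)).re + 16 * Fintype.card n := by
  rw [hs_trace, (dp_psd F hF).isHermitian.eq, dp_eq F hF, hs_trace, (dz_psd F hF).isHermitian.eq]
  simp only [Matrix.add_mul, Matrix.mul_add, Matrix.smul_mul, Matrix.mul_smul, Matrix.mul_one,
    Matrix.one_mul, smul_smul, trace_add, trace_smul, trace_one]
  simp
  ring

theorem xx_le_dp : hs (Xx F) ≤ hs (Dp F) := by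
  have h1 := hs_xx_right F hF
  have h2 := (Complex.le_def.1 (dz_psd F hF).trace_nonneg).1
  simp only [Complex.zero_re] at h2
  have h3 := hs_dp F hF
  have h4 : (0 : ℝ) ≤ Fintype.card n := by positivity
  linarith

theorem card_le_dp : 16 * (Fintype.card n : ℝ) ≤ hs (Dp F) := by
  have h1 := hs_nonneg (Dz F)
  have h2 := (Complex.le_def.1 (dz_psd F hF).trace_nonneg).1
  simp only [Complex.zero_re] at h2
  have h3 := hs_dp F hF
  linarith

theorem hs_one : hs (1 : Matrix n n ℂ) = Fintype.card n := by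
  rw [hs_trace]
  simp

theorem dp_le_dz : hs (Dp F) ≤ 2 * hs (Dz F) + 32 * Fintype.card n := by
  rw [dp_eq F hF]
  refine (hs_add _ _).trans ?_
  rw [hs_smul, hs_one F hF]
  norm_num
  linarith

/-- the inverse of the imaginary part -/
theorem inv_le_dp : hs (Imm F)⁻¹ ≤ hs (Dp F) := by
  have h1 : (4 : ℂ) • (Imm F)⁻¹ = (Nn F - Yy F)ᴴ * (Imm F)⁻¹ * (Nn F - Yy F) := by
    have : Nn F - Yy F = (2 * Complex.I) • 1 := by
      unfold Nn Yy
      module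
    rw [this, conjTranspose_smul, conjTranspose_one]
    simp only [Matrix.smul_mul, Matrix.mul_smul, Matrix.mul_one, Matrix.one_mul, smul_smul]
    congr 1
    simp only [RCLike.star_def, map_mul, Complex.conj_I, Complex.conj_ofNat]
    linear_combination 4 * Complex.I_mul_I
  have h2 : ((2 : ℂ) • (Dp F + Dm F) - (4 : ℂ) • (Imm F)⁻¹).PosSemidef := by
    have h3 : (2 : ℂ) • (Dp F + Dm F) - (4 : ℂ) • (Imm F)⁻¹ =
        (Nn F + Yy F)ᴴ * (Imm F)⁻¹ * (Nn F + Yy F) := by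
      rw [h1]
      unfold Dp Dm
      simp only [conjTranspose_add, conjTranspose_sub, Matrix.add_mul, Matrix.mul_add,
        Matrix.sub_mul, Matrix.mul_sub]
      module
    rw [h3]
    exact hF.inv.posSemidef.conjTranspose_mul_mul_same _
  have h4 : ((4 : ℂ) • (Imm F)⁻¹).PosSemidef := by
    rw [h1]
    exact hF.inv.posSemidef.conjTranspose_mul_mul_same _
  have h5 := hs_mono _ _ h4 h2
  rw [hs_smul, hs_smul] at h5
  have h6 := hs_add (Dp F) (Dm F)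
  have h7 := dm_le_xx F hF
  have h8 := xx_le_dp F hF
  norm_num at h5
  linarith

end point

end Pool.Agent.Helper32.BS
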