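import Pool.Agent.Helper32.BS.Pert

/-! The random recursion: the second moment bound. -/

set_option autoImplicit false
set_option linter.unusedSectionVars false
set_option linter.unusedSimpArgs false

open scoped BigOperators Matrix ComplexOrder MatrixOrder
open Matrix MeasureTheory ProbabilityTheory

namespace Pool.Agent.Helper32.BS

section sums

variable {Ω : Type} [MeasurableSpace Ω] {P : Measure Ω} [IsProbabilityMeasure P]

theorem bint {f : Ω → ℂ} (hf : Measurable f) {M : ℝ} (hM : ∀ ω, ‖f ω‖ ≤ M) : Integrable f P :=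
  Integrable.of_bound hf.aestronglyMeasurable M (Filter.Eventually.of_forall hM)

theorem bintr {f : Ω → ℝ} (hf : Measurable f) {M : ℝ} (hM : ∀ ω, |f ω| ≤ M) : Integrable f P :=
  Integrable.of_bound hf.aestronglyMeasurable M (Filter.Eventually.of_forall hM)

theorem mp_int {τ : Ω → Ω} (hτ : MeasurePreserving τ P P) {f : Ω → ℂ} (hf : Measurable f) :
    ∫ ω, f (τ ω) ∂P = ∫ ω, f ω ∂P := by
  have h := integral_map (μ := P) (φ := τ) hτ.measurable.aemeasurable (f := f)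
    hf.aestronglyMeasurable
  rw [hτ.map_eq] at h
  exact h.symm

theorem mp_intr {τ : Ω → Ω} (hτ : MeasurePreserving τ P P) {f : Ω → ℝ} (hf : Measurable f) :
    ∫ ω, f (τ ω) ∂P = ∫ ω, f ω ∂P := by
  have h := integral_map (μ := P) (φ := τ) hτ.measurable.aemeasurable (f := f)
    hf.aestronglyMeasurable
  rw [hτ.map_eq] at h
  exact h.symm

/-- the second moment of a sum of independent copies -/
theorem sum_two {K : ℕ} (τ : Fin K → Ω → Ω) (hτ : ∀ i, MeasurePreserving (τ i) P P)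
    (hind : ∀ i j, i ≠ j → IndepFun (τ i) (τ j) P) (f : Ω → ℂ) (hf : Measurable f) (M : ℝ)
    (hM : ∀ ω, ‖f ω‖ ≤ M) :
    ∫ ω, ‖∑ i, f (τ i ω)‖ ^ 2 ∂P ≤ K * ∫ ω, ‖f ω‖ ^ 2 ∂P + K ^ 2 * ‖∫ ω, f ω ∂P‖ ^ 2 := by
  have hfc : Measurable fun ω => (starRingEnd ℂ) (f ω) := Complex.continuous_conj.measurable.comp hf
  have hn : ∀ z : ℂ, ((‖z‖ ^ 2 : ℝ) : ℂ) = z * (starRingEnd ℂ) z := by
    intro z
    rw [Complex.mul_conj, Complex.normSq_eq_norm_sq]
  obtain ⟨a, ha⟩ : ∃ a, a = ∫ ω, f ω ∂P := ⟨_, rfl⟩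
  obtain ⟨b, hb⟩ : ∃ b, b = ∫ ω, ‖f ω‖ ^ 2 ∂P := ⟨_, rfl⟩
  have hac : ∫ ω, (starRingEnd ℂ) (f ω) ∂P = (starRingEnd ℂ) a := by
    rw [ha]
    exact integral_conj
  rw [← ha, ← hb]
  have h2 : ∀ i j : Fin K, ∫ ω, f (τ i ω) * (starRingEnd ℂ) (f (τ j ω)) ∂P =
      if i = j then (b : ℂ) else a * (starRingEnd ℂ) a := by
    intro i j
    by_cases h : i = j
    · subst h
      rw [if_pos rfl]
      have h3 : (fun ω => f (τ i ω) * (starRingEnd ℂ) (f (τ i ω))) =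
          fun ω => ((‖f (τ i ω)‖ ^ 2 : ℝ) : ℂ) := by
        funext w
        rw [hn]
      rw [h3, integral_complex_ofReal, mp_intr (hτ i) (f := fun ω => ‖f ω‖ ^ 2) (by fun_prop), ← hb]
    · rw [if_neg h]
      have h4 := (hind i j h).integral_fun_comp_mul_comp (f := f)
        (g := fun ω => (starRingEnd ℂ) (f ω)) (hτ i).measurable.aemeasurable
        (hτ j).measurable.aemeasurable hf.aestronglyMeasurable hfc.aestronglyMeasurable
      rw [h4, mp_int (hτ i) hf, mp_int (hτ j) hfc, hac, ha]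
  have hint : ∀ i j : Fin K, Integrable (fun ω => f (τ i ω) * (starRingEnd ℂ) (f (τ j ω))) P := by
    intro i j
    refine bint ((hf.comp (hτ i).measurable).mul (hfc.comp (hτ j).measurable)) (M := M * M)
      fun w => ?_
    rw [norm_mul, Complex.norm_conj]
    exact mul_le_mul (hM _) (hM _) (norm_nonneg _) ((norm_nonneg _).trans (hM (τ i w)))
  have h3 : ((∫ ω, ‖∑ i, f (τ i ω)‖ ^ 2 ∂P : ℝ) : ℂ) =
      ∑ i : Fin K, ∑ j : Fin K, (if i = j then (b : ℂ) else a * (starRingEnd ℂ) a) := by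
    rw [← integral_complex_ofReal]
    have h4 : ∀ ω, ((‖∑ i, f (τ i ω)‖ ^ 2 : ℝ) : ℂ) =
        ∑ i, ∑ j, f (τ i ω) * (starRingEnd ℂ) (f (τ j ω)) := by
      intro ω
      rw [hn, map_sum, Finset.sum_mul_sum]
    simp only [h4]
    rw [integral_finsetSum _ fun y _ => integrable_finsetSum _ fun y' _ => hint y y']
    refine Finset.sum_congr rfl fun y _ => ?_
    rw [integral_finsetSum _ fun y' _ => hint y y']
    refine Finset.sum_congr rfl fun y' _ => ?_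
    rw [h2]
  have h4 : ∑ i : Fin K, ∑ j : Fin K, (if i = j then (b : ℂ) else a * (starRingEnd ℂ) a) =
      ((K * b + (K ^ 2 - K) * ‖a‖ ^ 2 : ℝ) : ℂ) := by
    have h5 : ∀ i j : Fin K, (if i = j then (b : ℂ) else a * (starRingEnd ℂ) a) =
        a * (starRingEnd ℂ) a + (if i = j then (b : ℂ) - a * (starRingEnd ℂ) a else 0) := by
      intro i j
      split_ifs <;> ring
    simp only [h5, Finset.sum_add_distrib, Finset.sum_ite_eq, Finset.mem_univ, if_true,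
      Finset.sum_const, Finset.card_univ, Fintype.card_fin, nsmul_eq_mul]
    push_cast
    rw [← Complex.ofReal_pow, hn]
    ring
  rw [h4] at h3
  have h5 := Complex.ofReal_injective h3
  rw [h5]
  have h6 : 0 ≤ (K : ℝ) * ‖a‖ ^ 2 := by positivity
  linarith

theorem norm_int_sq (f : Ω → ℂ) (hf : Measurable f) (M : ℝ) (hM : ∀ ω, ‖f ω‖ ≤ M) :
    ‖∫ ω, f ω ∂P‖ ^ 2 ≤ ∫ ω, ‖f ω‖ ^ 2 ∂P := by
  have h1 : ‖∫ ω, f ω ∂P‖ ≤ ∫ ω, ‖f ω‖ ∂P := norm_integral_le_integral_norm f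
  have h2 : (∫ ω, ‖f ω‖ ∂P) ^ 2 ≤ ∫ ω, ‖f ω‖ ^ 2 ∂P := by
    obtain ⟨a, ha⟩ : ∃ a, a = ∫ ω, ‖f ω‖ ∂P := ⟨_, rfl⟩
    rw [← ha]
    have i1 : Integrable (fun ω => ‖f ω‖) P := (bint hf hM).norm
    have i2 : Integrable (fun ω => ‖f ω‖ ^ 2) P := by
      refine bintr (hf.norm.pow_const 2) (M := M ^ 2) fun ω => ?_
      rw [abs_of_nonneg (by positivity)]
      have := hM ω
      gcongr
    have h3 : 0 ≤ ∫ ω, (‖f ω‖ - a) ^ 2 ∂P := integral_nonneg fun ω => sq_nonneg _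
    have h4 : ∫ ω, (‖f ω‖ - a) ^ 2 ∂P = (∫ ω, ‖f ω‖ ^ 2 ∂P) - a ^ 2 := by
      have : ∀ ω, (‖f ω‖ - a) ^ 2 = ‖f ω‖ ^ 2 - 2 * a * ‖f ω‖ + a ^ 2 := fun ω => by ring
      simp only [this]
      have i3 : Integrable (fun ω => 2 * a * ‖f ω‖) P := i1.const_mul _
      have i4 : Integrable (fun ω => ‖f ω‖ ^ 2 - 2 * a * ‖f ω‖) P := i2.sub i3
      rw [integral_add i4 (integrable_const _), integral_sub i2 i3, integral_const_mul, ← ha]
      simp
      ring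
    linarith
  calc ‖∫ ω, f ω ∂P‖ ^ 2 ≤ (∫ ω, ‖f ω‖ ∂P) ^ 2 := by gcongr
    _ ≤ _ := h2

end sums

section main

variable {n Ω : Type} [Fintype n] [DecidableEq n] [MeasurableSpace Ω] (P : Measure Ω)
  [IsProbabilityMeasure P]

/-- the data -/
structure Dat (K : ℕ) (c η μ cV c0 M : ℝ) (b : n → ℝ) (g u : n → ℂ) (τ : Fin K → Ω → Ω)
    (F V T : Ω → Matrix n n ℂ) : Prop where
  K2 : 2 ≤ K
  μpos : 0 < μ
  μle : μ ≤ 1
  cVpos : 0 ≤ cV
  c0pos : 0 < c0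
  low : ∀ j k, c0 ≤ ‖1 - u j * u k‖
  mp : ∀ i, MeasurePreserving (τ i) P P
  ind : ∀ i j, i ≠ j → IndepFun (τ i) (τ j) P
  step : ∀ ω, Stp K c η b g u (fun i => pt μ (V ω) (F (τ i ω))) (F ω) (T ω)
  herm : ∀ ω, (V ω)ᴴ = V ω
  pos : ∀ ω, (Imm (F ω)).PosDef
  Vle : ∀ ω i, hs (Ee (V ω) (F (τ i ω))) ≤ cV * hs (Imm (F (τ i ω)))⁻¹
  meas1 : ∀ j k, Measurable fun ω => Dp (F ω) j k
  meas2 : ∀ j k, Measurable fun ω => Dm (F ω) j k
  meas3 : ∀ j k, Measurable fun ω => Xx (F ω) j k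
  bdd : ∀ ω, hs (Dp (F ω)) ≤ M

variable {P} {K : ℕ} {c η μ cV c0 M : ℝ} {b : n → ℝ} {g u : n → ℂ} {τ : Fin K → Ω → Ω}
  {F V T : Ω → Matrix n n ℂ}

theorem hs_meas {G : Ω → Matrix n n ℂ} (h : ∀ j k, Measurable fun ω => G ω j k) :
    Measurable fun ω => hs (G ω) := by
  unfold hs
  exact Finset.measurable_fun_sum _ fun j _ => Finset.measurable_fun_sum _ fun k _ =>
    ((h j k).norm).pow_const 2

theorem entry_le (X : Matrix n n ℂ) (j k : n) : ‖X j k‖ ^ 2 ≤ hs X := by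
  unfold hs
  refine le_trans ?_ (Finset.single_le_sum (f := fun i => ∑ l, ‖X i l‖ ^ 2)
    (fun i _ => by positivity) (Finset.mem_univ j))
  exact Finset.single_le_sum (f := fun l => ‖X j l‖ ^ 2) (fun i _ => by positivity)
    (Finset.mem_univ k)

theorem int_hs {G : Ω → Matrix n n ℂ} (hG : ∀ j k, Measurable fun ω => G ω j k) {M : ℝ}
    (hM : ∀ ω, hs (G ω) ≤ M) : Integrable (fun ω => hs (G ω)) P := by
  refine bintr (hs_meas hG) (M := M) fun ω => ?_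
  rw [abs_of_nonneg (hs_nonneg _)]
  exact hM ω

theorem hs_int {G : Ω → Matrix n n ℂ} (hG : ∀ j k, Measurable fun ω => G ω j k) {M : ℝ}
    (hM : ∀ ω, hs (G ω) ≤ M) : ∫ ω, hs (G ω) ∂P = ∑ j, ∑ k, ∫ ω, ‖G ω j k‖ ^ 2 ∂P := by
  have hi : ∀ j k, Integrable (fun ω => ‖G ω j k‖ ^ 2) P := by
    intro j k
    refine bintr ((hG j k).norm.pow_const 2) (M := M) fun ω => ?_
    rw [abs_of_nonneg (by positivity)]
    exact (entry_le _ _ _).trans (hM ω)
  unfold hs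
  rw [integral_finsetSum _ fun j _ => integrable_finsetSum _ fun k _ => hi j k]
  refine Finset.sum_congr rfl fun j _ => ?_
  rw [integral_finsetSum _ fun k _ => hi j k]

/-- the residual -/
noncomputable def Bt (K : ℕ) (u : n → ℂ) (τ : Fin K → Ω → Ω) (F : Ω → Matrix n n ℂ) (ω : Ω) :
    Matrix n n ℂ := av K u (fun i => Xx (F (τ i ω))) u - Xx (F ω)

theorem av_sub (K : ℕ) (u : n → ℂ) (A B : Fin K → Matrix n n ℂ) :
    av K u (fun i => A i - B i) u = av K u A u - av K u B u := by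
  unfold av
  simp only [Matrix.mul_sub, Matrix.sub_mul]
  rw [Finset.sum_sub_distrib, smul_sub]

theorem av_app (K : ℕ) (u : n → ℂ) (A : Fin K → Matrix n n ℂ) (j k : n) :
    av K u A u j k = (1 / (K : ℂ)) * (u j * u k) * ∑ i, A i j k := by
  unfold av
  rw [Matrix.smul_apply, Matrix.sum_apply, smul_eq_mul, mul_assoc, Finset.mul_sum (a := u j * u k)]
  congr 1
  refine Finset.sum_congr rfl fun i _ => ?_
  rw [mul_diagonal, diagonal_mul]
  ring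

variable (h : Dat P K c η μ cV c0 M b g u τ F V T)

include h

theorem Dat.Kne : K ≠ 0 := by
  have := h.K2
  omega

theorem Dat.bt_le (ω : Ω) : hs (Bt K u τ F ω) ≤
    1 / (K : ℝ) * ∑ i, ((1 + 7 * μ) * (hs (Dm (F (τ i ω))) + hs (Dz (F (τ i ω)))) +
      (8 + 36 * cV) * μ * hs (Dp (F (τ i ω))) + 64 * μ * Fintype.card n) -
      hs (Dm (F ω)) - hs (Dz (F ω)) := by
  have hK := h.Kne
  obtain ⟨Δp, Δm, β, h1, h2, h3, h4⟩ := slack (h.step ω) hK
  have hu := (h.step ω).ule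
  have h5 : Bt K u τ F ω = β + av K u (fun i => Xx (F (τ i ω)) -
      Xx (pt μ (V ω) (F (τ i ω)))) u := by
    unfold Bt
    rw [av_sub, h4]
    abel
  have h6 := hs_add β (av K u (fun i => Xx (F (τ i ω)) - Xx (pt μ (V ω) (F (τ i ω)))) u)
  rw [← h5] at h6
  have h7 := hs_av (n := n) hK u u hu hu (fun i => Xx (F (τ i ω)) - Xx (pt μ (V ω) (F (τ i ω))))
  have hK0 : (0 : ℝ) < K := by
    have := h.K2
    exact_mod_cast (by omega : 0 < K)
  have h8 : hs (Bt K u τ F ω) ≤ 1 / (K : ℝ) * ∑ i, (hs (Dm (pt μ (V ω) (F (τ i ω)))) +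
      hs (Dz (pt μ (V ω) (F (τ i ω)))) + 2 * hs (Xx (F (τ i ω)) - Xx (pt μ (V ω) (F (τ i ω))))) -
      hs (Dm (F ω)) - hs (Dz (F ω)) := by
    rw [Finset.sum_add_distrib, Finset.sum_add_distrib, ← Finset.mul_sum, mul_add, mul_add]
    have : 1 / (K : ℝ) * (2 * ∑ i, hs (Xx (F (τ i ω)) - Xx (pt μ (V ω) (F (τ i ω))))) =
        2 * (1 / (K : ℝ) * ∑ i, hs (Xx (F (τ i ω)) - Xx (pt μ (V ω) (F (τ i ω))))) := by ring
    rw [this]
    linarith
  refine h8.trans ?_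
  have hK1 : (0 : ℝ) ≤ 1 / (K : ℝ) := by positivity
  refine sub_le_sub_right (sub_le_sub_right (mul_le_mul_of_nonneg_left
    (Finset.sum_le_sum fun i _ => ?_) hK1) _) _
  have e0 := h.pos (τ i ω)
  have e1 := pert_m μ (V ω) (F (τ i ω)) (h.herm ω) e0 h.μpos h.μle
  have e2 := pert_z μ (V ω) (F (τ i ω)) (h.herm ω) e0 h.μpos h.μle
  have e3 := pert_x μ (V ω) (F (τ i ω)) (h.herm ω) e0 h.μpos h.μle
  have e3' : hs (Xx (F (τ i ω)) - Xx (pt μ (V ω) (F (τ i ω)))) =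
      hs (Xx (pt μ (V ω) (F (τ i ω))) - Xx (F (τ i ω))) := by
    rw [← hs_neg, neg_sub]
  have e4 := h.Vle ω i
  have e5 := inv_le_dp _ e0
  have e6 : hs (Ee (V ω) (F (τ i ω))) ≤ cV * hs (Dp (F (τ i ω))) :=
    e4.trans (mul_le_mul_of_nonneg_left e5 h.cVpos)
  have e7 := hs_nonneg (Dp (F (τ i ω)))
  have e8 : μ ^ 2 ≤ μ := by
    have := h.μpos
    have := h.μle
    nlinarith
  have e9 := h.μpos
  have e10 : μ ^ 2 * (4 * hs (Dp (F (τ i ω))) + 6 * hs (Ee (V ω) (F (τ i ω)))) ≤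
      μ * (4 * hs (Dp (F (τ i ω))) + 6 * (cV * hs (Dp (F (τ i ω))))) := by
    have := hs_nonneg (Ee (V ω) (F (τ i ω)))
    gcongr
  have e11 : μ * hs (Ee (V ω) (F (τ i ω))) ≤ μ * (cV * hs (Dp (F (τ i ω)))) := by gcongr
  rw [e3']
  linarith

theorem Dat.meas4 (j k : n) : Measurable fun ω => Dz (F ω) j k := by
  have : (fun ω => Dz (F ω) j k) = fun ω => Dp (F ω) j k - ((4 : ℂ) • (1 : Matrix n n ℂ)) j k := by
    funext ω
    rw [dp_eq _ (h.pos ω), Matrix.add_apply, add_sub_cancel_right]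
  rw [this]
  exact (h.meas1 j k).sub_const _

theorem Dat.bdz (ω : Ω) : hs (Dz (F ω)) ≤ M :=
  (dz_le_xx _ (h.pos ω)).trans ((xx_le_dp _ (h.pos ω)).trans (h.bdd ω))

theorem Dat.bdm (ω : Ω) : hs (Dm (F ω)) ≤ M :=
  (dm_le_xx _ (h.pos ω)).trans ((xx_le_dp _ (h.pos ω)).trans (h.bdd ω))

theorem Dat.bdx (ω : Ω) : hs (Xx (F ω)) ≤ M := (xx_le_dp _ (h.pos ω)).trans (h.bdd ω)

theorem Dat.meas5 (j k : n) : Measurable fun ω => Bt K u τ F ω j k := by
  unfold Bt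
  simp only [Matrix.sub_apply, av_app]
  refine Measurable.sub ?_ (h.meas3 j k)
  refine Measurable.const_mul ?_ _
  exact Finset.measurable_fun_sum _ fun i _ => (h.meas3 j k).comp (h.mp i).measurable

theorem Dat.bdb (ω : Ω) : hs (Bt K u τ F ω) ≤ 4 * M := by
  have hu := (h.step ω).ule
  have h1 := hs_sub (av K u (fun i => Xx (F (τ i ω))) u) (Xx (F ω))
  have h2 := hs_av (n := n) h.Kne u u hu hu (fun i => Xx (F (τ i ω)))
  have h3 : 1 / (K : ℝ) * ∑ i, hs (Xx (F (τ i ω))) ≤ M := by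
    have hK0 : (0 : ℝ) < K := by
      have := h.K2
      exact_mod_cast (by omega : 0 < K)
    calc 1 / (K : ℝ) * ∑ i, hs (Xx (F (τ i ω))) ≤ 1 / (K : ℝ) * ∑ i : Fin K, M := by
          gcongr with i
          exact h.bdx _
      _ = M := by
          rw [Finset.sum_const, Finset.card_univ, Fintype.card_fin, nsmul_eq_mul]
          field_simp
  have h4 := h.bdx ω
  unfold Bt
  linarith

/-- the residual is small -/
theorem Dat.bt_int : ∫ ω, hs (Bt K u τ F ω) ∂P ≤ (26 + 36 * cV) * μ * ∫ ω, hs (Dp (F ω)) ∂P := by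
  have hK0 : (0 : ℝ) < K := by
    have := h.K2
    exact_mod_cast (by omega : 0 < K)
  have ip := int_hs (P := P) h.meas1 h.bdd
  have im := int_hs (P := P) h.meas2 h.bdm
  have iz := int_hs (P := P) h.meas4 h.bdz
  have ib := int_hs (P := P) h.meas5 h.bdb
  obtain ⟨w, hw⟩ : ∃ w : Ω → ℝ, w = fun ω => (1 + 7 * μ) * (hs (Dm (F ω)) + hs (Dz (F ω))) +
      (8 + 36 * cV) * μ * hs (Dp (F ω)) + 64 * μ * Fintype.card n := ⟨_, rfl⟩
  have iw : Integrable w P := by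
    rw [hw]
    exact (((im.add iz).const_mul _).add (ip.const_mul _)).add (integrable_const _)
  have hwm : Measurable w := by
    rw [hw]
    exact ((((hs_meas h.meas2).add (hs_meas h.meas4)).const_mul _).add
      ((hs_meas h.meas1).const_mul _)).add_const _
  have iwc : ∀ i, Integrable (fun ω => w (τ i ω)) P := fun i =>
    (h.mp i).integrable_comp_of_integrable iw
  have h1 : ∫ ω, hs (Bt K u τ F ω) ∂P ≤ ∫ ω, (1 / (K : ℝ) * ∑ i, w (τ i ω) - hs (Dm (F ω)) -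
      hs (Dz (F ω))) ∂P := by
    refine integral_mono ib ?_ ?_
    · exact (((integrable_finsetSum _ fun i _ => iwc i).const_mul _).sub im).sub iz
    · intro ω
      have := h.bt_le ω
      rw [hw]
      exact this
  refine h1.trans ?_
  have i3 : Integrable (fun ω => 1 / (K : ℝ) * ∑ i, w (τ i ω)) P :=
    (integrable_finsetSum _ fun i _ => iwc i).const_mul _
  have i4 : Integrable (fun ω => 1 / (K : ℝ) * ∑ i, w (τ i ω) - hs (Dm (F ω))) P := i3.sub im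
  rw [integral_sub i4 iz, integral_sub i3 im, integral_const_mul,
    integral_finsetSum _ fun i _ => iwc i]
  have h2 : ∀ i, ∫ ω, w (τ i ω) ∂P = ∫ ω, w ω ∂P := fun i => mp_intr (h.mp i) hwm
  simp only [h2]
  rw [Finset.sum_const, Finset.card_univ, Fintype.card_fin, nsmul_eq_mul]
  have h3 : 1 / (K : ℝ) * (K * ∫ ω, w ω ∂P) = ∫ ω, w ω ∂P := by field_simp
  rw [h3]
  have h4 : ∫ ω, w ω ∂P = (1 + 7 * μ) * ((∫ ω, hs (Dm (F ω)) ∂P) + ∫ ω, hs (Dz (F ω)) ∂P) +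
      (8 + 36 * cV) * μ * (∫ ω, hs (Dp (F ω)) ∂P) + 64 * μ * Fintype.card n := by
    rw [hw]
    have j1 : Integrable (fun ω => (1 + 7 * μ) * (hs (Dm (F ω)) + hs (Dz (F ω)))) P :=
      (im.add iz).const_mul _
    have j2 : Integrable (fun ω => (8 + 36 * cV) * μ * hs (Dp (F ω))) P := ip.const_mul _
    have j3 : Integrable (fun ω => (1 + 7 * μ) * (hs (Dm (F ω)) + hs (Dz (F ω))) +
      (8 + 36 * cV) * μ * hs (Dp (F ω))) P := j1.add j2
    rw [integral_add j3 (integrable_const _), integral_add j1 j2, integral_const_mul,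
      integral_const_mul, integral_add im iz]
    simp
  rw [h4]
  have e1 : ∫ ω, hs (Dm (F ω)) ∂P ≤ ∫ ω, hs (Dp (F ω)) ∂P :=
    integral_mono im ip fun ω => (dm_le_xx _ (h.pos ω)).trans (xx_le_dp _ (h.pos ω))
  have e2 : ∫ ω, hs (Dz (F ω)) ∂P ≤ ∫ ω, hs (Dp (F ω)) ∂P :=
    integral_mono iz ip fun ω => (dz_le_xx _ (h.pos ω)).trans (xx_le_dp _ (h.pos ω))
  have e3 : 16 * (Fintype.card n : ℝ) ≤ ∫ ω, hs (Dp (F ω)) ∂P := by
    have : ∫ _ω, 16 * (Fintype.card n : ℝ) ∂P = 16 * (Fintype.card n : ℝ) := by simp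
    rw [← this]
    exact integral_mono (integrable_const _) ip fun ω => card_le_dp _ (h.pos ω)
  have e4 := h.μpos
  nlinarith [mul_le_mul_of_nonneg_left e1 e4.le, mul_le_mul_of_nonneg_left e2 e4.le,
    mul_le_mul_of_nonneg_left e3 e4.le]

/-- the second moments of the entries of `X` -/
theorem Dat.chi (j k : n) : ∫ ω, ‖Xx (F ω) j k‖ ^ 2 ∂P ≤
    (6 / c0 ^ 2 + 12) * ∫ ω, ‖Bt K u τ F ω j k‖ ^ 2 ∂P := by
  obtain ⟨ω0⟩ : Nonempty Ω := nonempty_of_isProbabilityMeasure P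
  have hu := (h.step ω0).ule
  have hK2 := h.K2
  have hK0 : (0 : ℝ) < K := by exact_mod_cast (by omega : 0 < K)
  have hKc : (K : ℂ) ≠ 0 := by exact_mod_cast h.Kne
  obtain ⟨f, hf⟩ : ∃ f : Ω → ℂ, f = fun ω => Xx (F ω) j k := ⟨_, rfl⟩
  obtain ⟨r, hr⟩ : ∃ r : Ω → ℂ, r = fun ω => Bt K u τ F ω j k := ⟨_, rfl⟩
  have fm : Measurable f := by
    rw [hf]
    exact h.meas3 j k
  have rm : Measurable r := by
    rw [hr]
    exact h.meas5 j k
  have hM0 : 0 ≤ M := (hs_nonneg _).trans (h.bdd ω0)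
  have fb : ∀ ω, ‖f ω‖ ≤ Real.sqrt M := by
    intro ω
    rw [hf]
    apply Real.le_sqrt_of_sq_le
    exact (entry_le _ _ _).trans (h.bdx ω)
  have rb : ∀ ω, ‖r ω‖ ≤ Real.sqrt (4 * M) := by
    intro ω
    rw [hr]
    apply Real.le_sqrt_of_sq_le
    exact (entry_le _ _ _).trans (h.bdb ω)
  have hrf : ∀ ω, r ω = (1 / (K : ℂ)) * (u j * u k) * (∑ i, f (τ i ω)) - f ω := by
    intro ω
    rw [hr, hf]
    simp only [Bt, Matrix.sub_apply, av_app]
  obtain ⟨x, hx⟩ : ∃ x, x = ∫ ω, f ω ∂P := ⟨_, rfl⟩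
  obtain ⟨q, hq⟩ : ∃ q, q = ∫ ω, ‖f ω‖ ^ 2 ∂P := ⟨_, rfl⟩
  obtain ⟨s, hs'⟩ : ∃ s, s = ∫ ω, ‖r ω‖ ^ 2 ∂P := ⟨_, rfl⟩
  have fi : Integrable f P := bint fm fb
  have ri : Integrable r P := bint rm rb
  have fci : ∀ i, Integrable (fun ω => f (τ i ω)) P := fun i =>
    (h.mp i).integrable_comp_of_integrable fi
  -- the mean
  have h1 : ∫ ω, r ω ∂P = (u j * u k - 1) * x := by
    have e1 : ∫ ω, r ω ∂P = ∫ ω, ((1 / (K : ℂ)) * (u j * u k) * (∑ i, f (τ i ω)) - f ω) ∂P := by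
      simp only [← hrf]
    rw [e1, integral_sub ((integrable_finsetSum _ fun i _ => fci i).const_mul _) fi,
      integral_const_mul, integral_finsetSum _ fun i _ => fci i]
    have e2 : ∀ i, ∫ ω, f (τ i ω) ∂P = x := fun i => by rw [mp_int (h.mp i) fm, hx]
    simp only [e2]
    rw [Finset.sum_const, Finset.card_univ, Fintype.card_fin, nsmul_eq_mul, ← hx]
    field_simp
  have h2 : c0 ^ 2 * ‖x‖ ^ 2 ≤ s := by
    have e1 := norm_int_sq (P := P) r rm _ rb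
    rw [h1, norm_mul, mul_pow, ← hs'] at e1
    have e2 : c0 ≤ ‖u j * u k - 1‖ := by
      rw [norm_sub_rev]
      exact h.low j k
    have e3 : c0 ^ 2 ≤ ‖u j * u k - 1‖ ^ 2 := by
      have := h.c0pos
      gcongr
    have e4 : 0 ≤ ‖x‖ ^ 2 := by positivity
    nlinarith
  -- the second moment
  have h3 := sum_two τ h.mp h.ind f fm _ fb
  rw [← hx, ← hq] at h3
  have hsq : Integrable (fun ω => ‖∑ i, f (τ i ω)‖ ^ 2) P := by
    refine bintr ?_ (M := (K * Real.sqrt M) ^ 2) fun ω => ?_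
    · exact (Finset.measurable_fun_sum _ fun i _ => fm.comp (h.mp i).measurable).norm.pow_const 2
    · rw [abs_of_nonneg (by positivity)]
      have : ‖∑ i, f (τ i ω)‖ ≤ K * Real.sqrt M := by
        refine (norm_sum_le _ _).trans ?_
        refine (Finset.sum_le_sum fun i _ => fb (τ i ω)).trans ?_
        rw [Finset.sum_const, Finset.card_univ, Fintype.card_fin, nsmul_eq_mul]
      gcongr
  have hrq : Integrable (fun ω => ‖r ω‖ ^ 2) P := by
    refine bintr (rm.norm.pow_const 2) (M := (Real.sqrt (4 * M)) ^ 2) fun ω => ?_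
    rw [abs_of_nonneg (by positivity)]
    have := rb ω
    gcongr
  have hfq : Integrable (fun ω => ‖f ω‖ ^ 2) P := by
    refine bintr (fm.norm.pow_const 2) (M := (Real.sqrt M) ^ 2) fun ω => ?_
    rw [abs_of_nonneg (by positivity)]
    have := fb ω
    gcongr
  have h4 : ∀ ω, ‖f ω‖ ^ 2 ≤ 3 / 2 * (1 / (K : ℝ) ^ 2 * ‖∑ i, f (τ i ω)‖ ^ 2) + 3 * ‖r ω‖ ^ 2 := by
    intro ω
    have e1 : f ω = (1 / (K : ℂ)) * (u j * u k) * (∑ i, f (τ i ω)) - r ω := by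
      rw [hrf]
      ring
    have e2 : ‖f ω‖ ≤ ‖(1 / (K : ℂ)) * (u j * u k) * (∑ i, f (τ i ω))‖ + ‖r ω‖ := by
      conv_lhs => rw [e1]
      exact norm_sub_le _ _
    have e3 : ‖(1 / (K : ℂ)) * (u j * u k) * (∑ i, f (τ i ω))‖ ≤
        1 / (K : ℝ) * ‖∑ i, f (τ i ω)‖ := by
      rw [norm_mul, norm_mul, norm_mul, norm_div, norm_one, Complex.norm_natCast]
      have : 1 / (K : ℝ) * (‖u j‖ * ‖u k‖) ≤ 1 / (K : ℝ) * (1 * 1) := by
        gcongr
        · exact hu j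
        · exact hu k
      rw [one_mul, mul_one] at this
      gcongr
    have e4 := sq_young (a := 1 / (K : ℝ) * ‖∑ i, f (τ i ω)‖) (b := ‖r ω‖) (θ := 1 / 2)
      (by norm_num)
    have e5 : ‖f ω‖ ^ 2 ≤ (1 / (K : ℝ) * ‖∑ i, f (τ i ω)‖ + ‖r ω‖) ^ 2 := by
      gcongr
      linarith
    refine e5.trans (e4.trans (le_of_eq ?_))
    ring
  have h5 : q ≤ 3 / 2 * (1 / (K : ℝ) ^ 2 * ∫ ω, ‖∑ i, f (τ i ω)‖ ^ 2 ∂P) + 3 * s := by
    rw [hq, hs', ← integral_const_mul, ← integral_const_mul, ← integral_const_mul,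
      ← integral_add ((hsq.const_mul _).const_mul _) (hrq.const_mul _)]
    exact integral_mono hfq (((hsq.const_mul _).const_mul _).add (hrq.const_mul _)) h4
  have h6 : 1 / (K : ℝ) ^ 2 * ∫ ω, ‖∑ i, f (τ i ω)‖ ^ 2 ∂P ≤ q / 2 + ‖x‖ ^ 2 := by
    have e1 : 1 / (K : ℝ) ^ 2 * ∫ ω, ‖∑ i, f (τ i ω)‖ ^ 2 ∂P ≤
        1 / (K : ℝ) ^ 2 * (K * q + K ^ 2 * ‖x‖ ^ 2) := by gcongr
    have e2 : 1 / (K : ℝ) ^ 2 * (K * q + K ^ 2 * ‖x‖ ^ 2) = q / K + ‖x‖ ^ 2 := by field_simp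
    have e3 : 0 ≤ q := by
      rw [hq]
      exact integral_nonneg fun ω => by positivity
    have e4 : q / K ≤ q / 2 := by
      have : (2 : ℝ) ≤ K := by exact_mod_cast hK2
      gcongr
    linarith
  have h7 : q ≤ 6 * ‖x‖ ^ 2 + 12 * s := by linarith
  have h8 : ‖x‖ ^ 2 ≤ s / c0 ^ 2 := by
    rw [le_div_iff₀ (pow_pos h.c0pos 2)]
    linarith
  have h9 : q ≤ (6 / c0 ^ 2 + 12) * s := by
    have : (6 / c0 ^ 2 + 12) * s = 6 * (s / c0 ^ 2) + 12 * s := by ring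
    rw [this]
    linarith
  rw [hq, hs', hf, hr] at h9
  exact h9

/-- **the second moment bound** -/
theorem Dat.main (hsm : 2 * ((6 / c0 ^ 2 + 12) * ((26 + 36 * cV) * μ)) ≤ 1 / 2) :
    ∫ ω, hs (Dp (F ω)) ∂P ≤ 64 * Fintype.card n := by
  have ip := int_hs (P := P) h.meas1 h.bdd
  have iz := int_hs (P := P) h.meas4 h.bdz
  have ix := int_hs (P := P) h.meas3 h.bdx
  have h1 : ∫ ω, hs (Dp (F ω)) ∂P ≤ 2 * (∫ ω, hs (Xx (F ω)) ∂P) + 32 * Fintype.card n := by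
    have e1 : ∫ ω, hs (Dp (F ω)) ∂P ≤ ∫ ω, (2 * hs (Xx (F ω)) + 32 * (Fintype.card n : ℝ)) ∂P := by
      refine integral_mono ip ((ix.const_mul _).add (integrable_const _)) fun ω => ?_
      have a1 := dp_le_dz _ (h.pos ω)
      have a2 := dz_le_xx _ (h.pos ω)
      show hs (Dp (F ω)) ≤ 2 * hs (Xx (F ω)) + 32 * (Fintype.card n : ℝ)
      linarith
    have e2 : ∫ ω, (2 * hs (Xx (F ω)) + 32 * (Fintype.card n : ℝ)) ∂P =
        2 * (∫ ω, hs (Xx (F ω)) ∂P) + 32 * Fintype.card n := by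
      rw [integral_add (ix.const_mul _) (integrable_const _), integral_const_mul]
      simp
    linarith
  have h2 : ∫ ω, hs (Xx (F ω)) ∂P ≤ (6 / c0 ^ 2 + 12) * ∫ ω, hs (Bt K u τ F ω) ∂P := by
    rw [hs_int h.meas3 h.bdx, hs_int h.meas5 h.bdb, Finset.mul_sum]
    refine Finset.sum_le_sum fun j _ => ?_
    rw [Finset.mul_sum]
    exact Finset.sum_le_sum fun k _ => h.chi j k
  have h3 := h.bt_int
  have h4 : 0 ≤ ∫ ω, hs (Dp (F ω)) ∂P := integral_nonneg fun ω => hs_nonneg _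
  have h5 : (6 / c0 ^ 2 + 12) * ∫ ω, hs (Bt K u τ F ω) ∂P ≤
      (6 / c0 ^ 2 + 12) * ((26 + 36 * cV) * μ * ∫ ω, hs (Dp (F ω)) ∂P) := by
    have := h.c0pos
    gcongr
  have h6 : 2 * ((6 / c0 ^ 2 + 12) * ((26 + 36 * cV) * μ * ∫ ω, hs (Dp (F ω)) ∂P)) ≤
      1 / 2 * ∫ ω, hs (Dp (F ω)) ∂P := by
    have e1 : 2 * ((6 / c0 ^ 2 + 12) * ((26 + 36 * cV) * μ * ∫ ω, hs (Dp (F ω)) ∂P)) =
        2 * ((6 / c0 ^ 2 + 12) * ((26 + 36 * cV) * μ)) * ∫ ω, hs (Dp (F ω)) ∂P := by ring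
    rw [e1]
    gcongr
  linarith

end main

end Pool.Agent.Helper32.BS
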