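import Pool.Agent.Helper32.BS.Acn

/-! Residually finite groups. -/

set_option autoImplicit false
set_option linter.unusedSectionVars false
set_option linter.unusedSimpArgs false

open scoped BigOperators InnerProductSpace Topology ENNReal
open Filter MeasureTheory ProbabilityTheory

namespace Pool.Agent.Helper32.BS

open Pool.Agent.TH369.MU (SpM)
open Pool.Agent.Y662.TR (LL dv)

/-- residually finite groups (written additively) -/
def RF (G : Type) [AddGroup G] : Prop :=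
  ∀ g : G, g ≠ 0 → ∃ N : AddSubgroup G, N.Normal ∧ N.FiniteIndex ∧ g ∉ N

/-- the normal subgroups of finite index -/
abbrev FN (G : Type) [AddGroup G] : Type := {N : AddSubgroup G // N.Normal ∧ N.FiniteIndex}

instance fn_normal {G : Type} [AddGroup G] (N : FN G) : N.1.Normal := N.2.1

instance fn_finite {G : Type} [AddGroup G] (N : FN G) : N.1.FiniteIndex := N.2.2

variable {G : Type} [AddGroup G]

theorem rf_fin (h : RF G) (F : Finset G) : ∃ N : FN G, ∀ x ∈ F, x ≠ 0 → x ∉ N.1 := by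
  classical
  induction F using Finset.induction_on with
  | empty => exact ⟨⟨⊤, inferInstance, inferInstance⟩, by simp⟩
  | insert a F _ ih =>
    obtain ⟨N, hN⟩ := ih
    by_cases ha : a = 0
    · refine ⟨N, fun x hx hx0 => ?_⟩
      rw [Finset.mem_insert] at hx
      rcases hx with hx | hx
      · exact absurd (hx.trans ha) hx0
      · exact hN x hx hx0
    · obtain ⟨M, hM1, hM2, hM3⟩ := h a ha
      haveI := hM1
      haveI := hM2
      refine ⟨⟨N.1 ⊓ M, inferInstance, inferInstance⟩, fun x hx hx0 => ?_⟩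
      rw [Finset.mem_insert] at hx
      rcases hx with hx | hx
      · rw [hx]
        exact fun h2 => hM3 h2.2
      · exact fun h2 => hN x hx hx0 h2.1

/-- the approximation by finite quotients -/
theorem apx_ex [Countable G] (h : RF G) : ∃ (N : ℕ → FN G) (J : ∀ n, (G ⧸ (N n).1) → G),
    Apx G (fun n => G ⧸ (N n).1) (fun n => QuotientAddGroup.mk' (N n).1) J := by
  classical
  obtain ⟨f, hf⟩ := exists_surjective_nat G
  obtain ⟨F, hF⟩ : ∃ F : ℕ → Finset G, F = fun n => (Finset.range n).image f := ⟨_, rfl⟩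
  have hFm : ∀ y : G, ∀ᶠ n in atTop, y ∈ F n := by
    intro y
    obtain ⟨m, hm⟩ := hf y
    filter_upwards [eventually_gt_atTop m] with n hn
    rw [hF]
    exact Finset.mem_image.2 ⟨m, Finset.mem_range.2 hn, hm⟩
  choose N hN using fun n => rf_fin h ((F n ×ˢ F n).image fun p => -p.1 + p.2)
  refine ⟨N, fun n x => if hx : ∃ y ∈ F n, (QuotientAddGroup.mk' (N n).1) y = x then hx.choose
    else x.out, fun n x => ?_, fun y => ?_⟩
  · by_cases hx : ∃ y ∈ F n, (QuotientAddGroup.mk' (N n).1) y = x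
    · simp only [dif_pos hx]
      exact hx.choose_spec.2
    · simp only [dif_neg hx]
      exact QuotientAddGroup.out_eq' x
  · filter_upwards [hFm y] with n hn
    have hx : ∃ y' ∈ F n, (QuotientAddGroup.mk' (N n).1) y' = (QuotientAddGroup.mk' (N n).1) y :=
      ⟨y, hn, rfl⟩
    simp only [dif_pos hx]
    obtain ⟨h1, h2⟩ := hx.choose_spec
    obtain ⟨y', hy'⟩ : ∃ y', y' = hx.choose := ⟨_, rfl⟩
    rw [← hy'] at h1 h2 ⊢
    have h3 : -y' + y ∈ (N n).1 := QuotientAddGroup.eq.1 h2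
    by_contra hne
    refine hN n (-y' + y) (Finset.mem_image.2 ⟨(y', y), Finset.mem_product.2 ⟨h1, hn⟩, rfl⟩) ?_ h3
    intro h4
    exact hne (neg_add_eq_zero.1 h4)

/-- `ℤ^d` is residually finite -/
theorem rf_zd (d : ℕ) : RF (Fin d → ℤ) := by
  intro g hg
  obtain ⟨i, hi⟩ : ∃ i, g i ≠ 0 := by
    by_contra h
    push Not at h
    exact hg (funext h)
  obtain ⟨m, hm⟩ : ∃ m : ℕ, m = (g i).natAbs + 1 := ⟨_, rfl⟩
  haveI : NeZero m := ⟨by omega⟩
  obtain ⟨φ, hφ⟩ : ∃ φ : (Fin d → ℤ) →+ ZMod m,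
      φ = (Int.castAddHom (ZMod m)).comp (Pi.evalAddMonoidHom (fun _ : Fin d => ℤ) i) := ⟨_, rfl⟩
  refine ⟨φ.ker, inferInstance, inferInstance, fun h => ?_⟩
  rw [AddMonoidHom.mem_ker, hφ] at h
  have h1 : ((g i : ℤ) : ZMod m) = 0 := h
  rw [ZMod.intCast_zmod_eq_zero_iff_dvd] at h1
  have h2 := Int.natAbs_dvd_natAbs.2 h1
  rw [Int.natAbs_natCast] at h2
  have h3 := Nat.le_of_dvd (Int.natAbs_pos.2 hi) h2
  omega

/-- **absolutely continuous spectrum** -/
theorem main_rf [Countable G] (hG : RF G) {K d : ℕ} (hK : 2 ≤ K) (e : Fin d → G) {t : ℝ}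
    (ht : 0 < t) {b : ℝ} (hb : 0 < b) {r : ℝ} (hr0 : 0 ≤ r) (hr1 : r < 1) {lam : ℝ}
    (hlam : 0 < lam) (hl : 4000000 * (lam * b) ≤ (1 - r ^ 2) ^ 3 * (Real.sqrt K * t)) {α β : ℝ}
    (h1 : t * (K + 1) + 4 * d - 2 * r * (Real.sqrt K * t) ≤ α)
    (h2 : β ≤ t * (K + 1) + 2 * r * (Real.sqrt K * t))
    (ρ : Measure ℝ) [IsProbabilityMeasure ρ] : ∀ᵐ ω ∂(Pf K G ρ),
        (∀ (φ : LL (Tr K × G)) (m : Measure ℝ),
          SpM (Tf K e (t * (K + 1) + 2 * d) t (lam * b) (pw lam b ω)) φ m →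
          ∀ A : Set ℝ, A ⊆ Set.Ioo α β → volume A = 0 → m A = 0) ∧
        (∀ (v : Tr K × G) (m : Measure ℝ),
          SpM (Tf K e (t * (K + 1) + 2 * d) t (lam * b) (pw lam b ω)) (dv v) m →
          ∀ A : Set ℝ, A ⊆ Set.Ioo α β → MeasurableSet A → m A = 0 → volume A = 0) := by
  classical
  obtain ⟨N, J, hA⟩ := apx_ex hG
  haveI : ∀ n, Fintype (G ⧸ (N n).1) := fun n => Fintype.ofFinite _
  exact main_ac hA hK e ht hb hr0 hr1 hlam hl h1 h2 ρ

end Pool.Agent.Helper32.BS
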