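import Pool.Agent.Helper32.BS.Pt

/-! One step of the recursion, and the perturbation by the potential. -/

set_option autoImplicit false
set_option linter.unusedSectionVars false
set_option linter.unusedSimpArgs false

open scoped BigOperators Matrix ComplexOrder MatrixOrder
open Matrix

namespace Pool.Agent.Helper32.BS

variable {n : Type} [Fintype n] [DecidableEq n]

theorem cancel {m p : Type} [Fintype m] [Fintype p] (T R : Matrix n n ℂ) (hT : IsUnit T.det)
    (W : Matrix n m ℂ) (V : Matrix n p ℂ) :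
    (T * W)ᴴ * (T * R * Tᴴ)⁻¹ * (T * V) = Wᴴ * R⁻¹ * V := by
  have h1 : T⁻¹ * T = 1 := nonsing_inv_mul _ hT
  have h2 : Tᴴ * (Tᴴ)⁻¹ = 1 := by
    apply mul_nonsing_inv
    rw [det_conjTranspose]
    exact hT.star
  rw [Matrix.mul_inv_rev, Matrix.mul_inv_rev, conjTranspose_mul]
  calc Wᴴ * Tᴴ * ((Tᴴ)⁻¹ * (R⁻¹ * T⁻¹)) * (T * V) =
      Wᴴ * (Tᴴ * (Tᴴ)⁻¹) * R⁻¹ * (T⁻¹ * T) * V := by simp only [Matrix.mul_assoc]
    _ = _ := by rw [h1, h2, Matrix.mul_one, Matrix.mul_one]

theorem inv_rsmul (c : ℝ) (hc : 0 < c) (Q : Matrix n n ℂ) (hQ : Q.PosDef) :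
    ((c : ℂ) • Q)⁻¹ = ((c⁻¹ : ℝ) : ℂ) • Q⁻¹ := by
  apply inv_eq_right_inv
  rw [Matrix.smul_mul, Matrix.mul_smul, smul_smul,
    mul_nonsing_inv _ ((isUnit_iff_isUnit_det _).1 hQ.isUnit), ← Complex.ofReal_mul,
    mul_inv_cancel₀ hc.ne', Complex.ofReal_one, one_smul]

/-- the data of one step: `F'` is obtained from the `F i`, `i < K` -/
structure Stp (K : ℕ) (c η : ℝ) (b : n → ℝ) (g u : n → ℂ) (F : Fin K → Matrix n n ℂ)
    (F' T : Matrix n n ℂ) : Prop where
  cpos : 0 < c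
  ηpos : 0 < η
  bpos : ∀ j, 0 < b j
  gu : ∀ j k, (K : ℂ) * c * (g j * g k) = u j * u k
  gu' : ∀ j k, (K : ℂ) * c * (g j * star (g k)) = u j * star (u k)
  bg : ∀ j, (η : ℂ) * (g j * star (g j)) * ((b j : ℂ))⁻¹ = 1 - u j * star (u j)
  ule : ∀ j, ‖u j‖ ≤ 1
  pos : ∀ i, (Imm (F i)).PosDef
  unit : IsUnit T.det
  eN : Nn F' = T * ((c : ℂ) • ∑ i, Nn (F i) + (2 * Complex.I * η) • diagonal fun j => ((b j : ℂ))⁻¹) *
    (diagonal g)ᴴ
  eY : Yy F' = T * ((c : ℂ) • ∑ i, Yy (F i)) * diagonal g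
  eQ : Imm F' = T * ((c : ℂ) • ∑ i, Imm (F i) + (η : ℂ) • diagonal fun j => ((b j : ℂ))⁻¹) * Tᴴ

section

variable {K : ℕ} {c η : ℝ} {b : n → ℝ} {g u : n → ℂ} {F : Fin K → Matrix n n ℂ}
  {F' T : Matrix n n ℂ}

theorem diag_psd (b : n → ℝ) (hb : ∀ j, 0 < b j) (η : ℝ) (hη : 0 < η) :
    ((η : ℂ) • diagonal fun j => ((b j : ℂ))⁻¹ : Matrix n n ℂ).PosDef := by
  rw [← diagonal_smul]
  apply PosDef.diagonal
  intro j
  rw [Pi.smul_apply, smul_eq_mul, ← Complex.ofReal_inv, ← Complex.ofReal_mul]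
  have := hb j
  exact_mod_cast (by positivity : 0 < η * (b j)⁻¹)

/-- the weights -/
noncomputable def wQ (c η : ℝ) (b : n → ℝ) (F : Fin K → Matrix n n ℂ) :
    Option (Fin K) → Matrix n n ℂ
  | none => (η : ℂ) • diagonal fun j => ((b j : ℂ))⁻¹
  | some i => (c : ℂ) • Imm (F i)

noncomputable def wN (c η : ℝ) (b : n → ℝ) (g : n → ℂ) (F : Fin K → Matrix n n ℂ) :
    Option (Fin K) → Matrix n n ℂ
  | none => (2 * Complex.I * η) • (diagonal fun j => ((b j : ℂ))⁻¹) * (diagonal g)ᴴ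
  | some i => (c : ℂ) • (Nn (F i) * (diagonal g)ᴴ)

noncomputable def wY (c : ℝ) (g : n → ℂ) (F : Fin K → Matrix n n ℂ) :
    Option (Fin K) → Matrix n n ℂ
  | none => 0
  | some i => (c : ℂ) • (Yy (F i) * diagonal g)

theorem wQ_pos (h : Stp K c η b g u F F' T) (i : Option (Fin K)) : (wQ c η b F i).PosDef := by
  cases i with
  | none => exact diag_psd b h.bpos η h.ηpos
  | some i =>
    have h2 : (0 : ℂ) < (c : ℂ) := by exact_mod_cast h.cpos
    exact (h.pos i).smul h2

theorem sum_wQ (h : Stp K c η b g u F F' T) : Imm F' = T * (∑ i, wQ c η b F i) * Tᴴ := by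
  rw [h.eQ, Fintype.sum_option]
  simp only [wQ]
  rw [← Finset.smul_sum, add_comm]

theorem sum_wN (h : Stp K c η b g u F F' T) : Nn F' = T * ∑ i, wN c η b g F i := by
  rw [h.eN, Fintype.sum_option]
  simp only [wN]
  rw [← Finset.smul_sum, ← Matrix.sum_mul, Matrix.mul_assoc, Matrix.add_mul, Matrix.smul_mul,
    add_comm]

theorem sum_wY (h : Stp K c η b g u F F' T) : Yy F' = T * ∑ i, wY c g F i := by
  rw [h.eY, Fintype.sum_option]
  simp only [wY]
  rw [← Finset.smul_sum, ← Matrix.sum_mul, Matrix.mul_assoc, Matrix.smul_mul, zero_add]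

/-- the average of the conjugated matrices -/
noncomputable def av (K : ℕ) (a : n → ℂ) (M : Fin K → Matrix n n ℂ) (e : n → ℂ) : Matrix n n ℂ :=
  (1 / (K : ℂ)) • ∑ i, diagonal a * M i * diagonal e

theorem term_some (c : ℝ) (hc : 0 < c) (Q A B : Matrix n n ℂ) (hQ : Q.PosDef) (x y : n → ℂ) :
    ((c : ℂ) • (A * diagonal x))ᴴ * ((c : ℂ) • Q)⁻¹ * ((c : ℂ) • (B * diagonal y)) =
      (c : ℂ) • (diagonal (star x) * (Aᴴ * Q⁻¹ * B) * diagonal y) := by
  rw [inv_rsmul c hc Q hQ, conjTranspose_smul, conjTranspose_mul, diagonal_conjTranspose]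
  simp only [Matrix.smul_mul, Matrix.mul_smul, smul_smul, Matrix.mul_assoc]
  congr 1
  have : (c : ℂ) ≠ 0 := by exact_mod_cast hc.ne'
  rw [RCLike.star_def, Complex.conj_ofReal]
  push_cast
  field_simp

variable (h : Stp K c η b g u F F' T) (hK : K ≠ 0)

include h hK

theorem scal (M : Fin K → Matrix n n ℂ) (x y p q : n → ℂ)
    (hxy : ∀ j k, (K : ℂ) * c * (x j * y k) = p j * q k) :
    ∑ i, (c : ℂ) • (diagonal x * M i * diagonal y) = av K p M q := by
  have hK' : (K : ℂ) ≠ 0 := by exact_mod_cast hK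
  unfold av
  ext j k
  rw [Matrix.sum_apply, Matrix.smul_apply, Matrix.sum_apply, smul_eq_mul, Finset.mul_sum]
  refine Finset.sum_congr rfl fun i _ => ?_
  rw [Matrix.smul_apply, smul_eq_mul, mul_diagonal, diagonal_mul, mul_diagonal, diagonal_mul]
  have := hxy j k
  field_simp
  linear_combination (M i j k) * this

theorem defN : dfc (wQ c η b F) (wN c η b g F) (wN c η b g F) =
    av K u (fun i => Dp (F i)) (star u) +
      (4 : ℂ) • (1 - diagonal fun j => u j * star (u j)) - Dp F' := by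
  have h1 : (∑ i, wN c η b g F i)ᴴ * (∑ i, wQ c η b F i)⁻¹ * ∑ i, wN c η b g F i = Dp F' := by
    unfold Dp
    rw [sum_wQ h, sum_wN h, cancel T _ h.unit]
  unfold dfc
  rw [h1, Fintype.sum_option]
  have h2 : ∑ i, (wN c η b g F (some i))ᴴ * (wQ c η b F (some i))⁻¹ * wN c η b g F (some i) =
      av K u (fun i => Dp (F i)) (star u) := by
    rw [← scal h hK (fun i => Dp (F i)) g (star g) u (star u) (by
      intro j k
      exact h.gu' j k)]
    refine Finset.sum_congr rfl fun i _ => ?_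
    simp only [wN, wQ]
    rw [diagonal_conjTranspose, term_some c h.cpos _ _ _ (h.pos i), star_star]
    rfl
  have h3 : (wN c η b g F none)ᴴ * (wQ c η b F none)⁻¹ * wN c η b g F none =
      (4 : ℂ) • (1 - diagonal fun j => u j * star (u j)) := by
    simp only [wN, wQ]
    have e1 : ((η : ℂ) • diagonal fun j => ((b j : ℂ))⁻¹ : Matrix n n ℂ)⁻¹ =
        diagonal fun j => (η : ℂ)⁻¹ * b j := by
      apply inv_eq_right_inv
      rw [← diagonal_smul, diagonal_mul_diagonal, ← diagonal_one]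
      congr 1
      funext j
      have e2 : (b j : ℂ) ≠ 0 := by exact_mod_cast (h.bpos j).ne'
      have e3 : (η : ℂ) ≠ 0 := by exact_mod_cast h.ηpos.ne'
      rw [Pi.smul_apply, smul_eq_mul]
      field_simp
    rw [e1, diagonal_conjTranspose, ← diagonal_smul, diagonal_mul_diagonal,
      diagonal_conjTranspose, diagonal_mul_diagonal, diagonal_mul_diagonal, ← diagonal_one,
      diagonal_sub, ← diagonal_smul]
    congr 1
    funext j
    have e2 : (b j : ℂ) ≠ 0 := by exact_mod_cast (h.bpos j).ne'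
    have e3 : (η : ℂ) ≠ 0 := by exact_mod_cast h.ηpos.ne'
    have e4 := h.bg j
    simp only [Pi.smul_apply, Pi.star_apply, smul_eq_mul, star_mul', star_inv₀, star_star,
      RCLike.star_def, Complex.conj_ofReal, Complex.conj_I, map_ofNat, Complex.conj_conj] at e4 ⊢
    rw [← e4]
    field_simp
    linear_combination (-4 * (starRingEnd ℂ) (g j) * g j) * Complex.I_mul_I
  rw [h2, h3]
  abel

theorem defY : dfc (wQ c η b F) (wY c g F) (wY c g F) =
    av K (star u) (fun i => Dm (F i)) u - Dm F' := by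
  have h1 : (∑ i, wY c g F i)ᴴ * (∑ i, wQ c η b F i)⁻¹ * ∑ i, wY c g F i = Dm F' := by
    unfold Dm
    rw [sum_wQ h, sum_wY h, cancel T _ h.unit]
  unfold dfc
  rw [h1, Fintype.sum_option]
  have h2 : ∑ i, (wY c g F (some i))ᴴ * (wQ c η b F (some i))⁻¹ * wY c g F (some i) =
      av K (star u) (fun i => Dm (F i)) u := by
    rw [← scal h hK (fun i => Dm (F i)) (star g) g (star u) u (by
      intro j k
      have := h.gu' k j
      simp only [Pi.star_apply]
      linear_combination this)]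
    refine Finset.sum_congr rfl fun i _ => ?_
    simp only [wY, wQ]
    rw [term_some c h.cpos _ _ _ (h.pos i)]
    rfl
  rw [h2]
  simp [wY]

theorem defX : dfc (wQ c η b F) (wN c η b g F) (wY c g F) =
    av K u (fun i => Xx (F i)) u - Xx F' := by
  have h1 : (∑ i, wN c η b g F i)ᴴ * (∑ i, wQ c η b F i)⁻¹ * ∑ i, wY c g F i = Xx F' := by
    unfold Xx
    rw [sum_wQ h, sum_wY h, sum_wN h, cancel T _ h.unit]
  unfold dfc
  rw [h1, Fintype.sum_option]
  have h2 : ∑ i, (wN c η b g F (some i))ᴴ * (wQ c η b F (some i))⁻¹ * wY c g F (some i) =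
      av K u (fun i => Xx (F i)) u := by
    rw [← scal h hK (fun i => Xx (F i)) g g u u h.gu]
    refine Finset.sum_congr rfl fun i _ => ?_
    simp only [wY, wQ, wN]
    rw [diagonal_conjTranspose, term_some c h.cpos _ _ _ (h.pos i), star_star]
    rfl
  rw [h2]
  simp [wY]

omit h hK in
theorem hs_diag_le (p q : n → ℂ) (hp : ∀ j, ‖p j‖ ≤ 1) (hq : ∀ j, ‖q j‖ ≤ 1) (M : Matrix n n ℂ) :
    hs (diagonal p * M * diagonal q) ≤ hs M := by
  unfold hs
  refine Finset.sum_le_sum fun i _ => Finset.sum_le_sum fun j _ => ?_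
  rw [mul_diagonal, diagonal_mul, norm_mul, norm_mul]
  have h1 : ‖p i‖ * ‖M i j‖ * ‖q j‖ ≤ 1 * ‖M i j‖ * 1 := by
    gcongr
    · exact hp i
    · exact hq j
  rw [one_mul, mul_one] at h1
  gcongr

omit h in
theorem hs_av (p q : n → ℂ) (hp : ∀ j, ‖p j‖ ≤ 1) (hq : ∀ j, ‖q j‖ ≤ 1)
    (M : Fin K → Matrix n n ℂ) : hs (av K p M q) ≤ 1 / (K : ℝ) * ∑ i, hs (M i) := by
  have hn : (Finset.univ : Finset (Fin K)).Nonempty := by
    haveI : NeZero K := ⟨hK⟩
    exact Finset.univ_nonempty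
  have h1 := hs_avg Finset.univ (fun i => diagonal p * M i * diagonal q) hn
  rw [Finset.card_univ, Fintype.card_fin] at h1
  refine h1.trans ?_
  gcongr with i
  exact hs_diag_le p q hp hq (M i)

theorem impos : (Imm F').PosDef := by
  rw [sum_wQ h]
  have h1 : (∑ i, wQ c η b F i).PosDef :=
    posDef_sum Finset.univ_nonempty fun i _ => wQ_pos h i
  refine h1.mul_mul_conjTranspose_same ?_
  have h2 := h.unit
  rw [← isUnit_iff_isUnit_det] at h2
  exact Matrix.vecMul_injective_of_isUnit h2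

/-- **the slack of the one step inequality** -/
theorem slack : ∃ Δp Δm β : Matrix n n ℂ,
    hs Δm ≤ 1 / (K : ℝ) * ∑ i, hs (Dm (F i)) - hs (Dm F') ∧
    hs Δp ≤ 1 / (K : ℝ) * ∑ i, hs (Dz (F i)) - hs (Dz F') ∧
    hs β ≤ (hs Δp + hs Δm) / 2 ∧ Xx F' = av K u (fun i => Xx (F i)) u - β := by
  have hF' := impos h hK
  have hu : ∀ j, ‖(star u) j‖ ≤ 1 := fun j => by
    rw [Pi.star_apply, norm_star]
    exact h.ule j
  obtain ⟨C, E, h1, h2, h3⟩ := dfc_gram (wQ c η b F) (wQ_pos h) (wN c η b g F) (wY c g F)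
  refine ⟨dfc (wQ c η b F) (wN c η b g F) (wN c η b g F),
    dfc (wQ c η b F) (wY c g F) (wY c g F), dfc (wQ c η b F) (wN c η b g F) (wY c g F),
    ?_, ?_, ?_, ?_⟩
  · have h4 := dfc_psd (wQ c η b F) (wQ_pos h) (wY c g F)
    rw [defY h hK] at h4 ⊢
    have h5 := hs_slack _ _ (dm_psd F' hF') h4
    have h6 := hs_av (n := n) hK (star u) u hu h.ule (fun i => Dm (F i))
    linarith
  · have h4 := dfc_psd (wQ c η b F) (wQ_pos h) (wN c η b g F)
    have h7 : dfc (wQ c η b F) (wN c η b g F) (wN c η b g F) =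
        av K u (fun i => Dz (F i)) (star u) - Dz F' := by
      rw [defN h hK, dp_eq F' hF']
      have h8 : av K u (fun i => Dp (F i)) (star u) = av K u (fun i => Dz (F i)) (star u) +
          (4 : ℂ) • diagonal fun j => u j * star (u j) := by
        unfold av
        have h9 : ∀ i, diagonal u * Dp (F i) * diagonal (star u) =
            diagonal u * Dz (F i) * diagonal (star u) +
              (4 : ℂ) • diagonal fun j => u j * star (u j) := by
          intro i
          rw [dp_eq (F i) (h.pos i), Matrix.mul_add, Matrix.add_mul, Matrix.mul_smul,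
            Matrix.smul_mul, Matrix.mul_one, diagonal_mul_diagonal]
          rfl
        simp only [h9]
        rw [Finset.sum_add_distrib, smul_add, Finset.sum_const, Finset.card_univ, Fintype.card_fin]
        congr 1
        have hK' : (K : ℂ) ≠ 0 := by exact_mod_cast hK
        rw [← Nat.cast_smul_eq_nsmul ℂ, smul_smul, one_div, inv_mul_cancel₀ hK', one_smul]
      rw [h8]
      module
    rw [h7] at h4 ⊢
    have h5 := hs_slack _ _ (dz_psd F' hF') h4
    have h6 := hs_av (n := n) hK u (star u) h.ule hu (fun i => Dz (F i))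
    linarith
  · rw [h1, h2, h3]
    exact hs_cross C E
  · rw [defX h hK]
    abel

end

end Pool.Agent.Helper32.BS
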